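import Pool.Agent.H6.C.Stm

/-!
# The bound from the two functional equations (helper415)
-/

set_option autoImplicit false

namespace Pool.Agent.H6.C

namespace BND

open Finset

theorem geo {q Q : ℝ} (hq : 1 ≤ q) (hQ : q ≤ Q) (M : ℕ) :
    (q - 1) * ∑ i ∈ range M, Q ^ i ≤ Q ^ M := by
  induction M with
  | zero => simp
  | succ M ih =>
    rw [sum_range_succ, mul_add, pow_succ]
    have h1 : 0 < Q := by linarith
    have h2 : 0 < Q ^ M := pow_pos h1 M
    nlinarith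

theorem num1 {q : ℝ} (hq : 4 ≤ q) : q ^ (-(7 / 8) : ℝ) ≤ 3 / 10 := by
  have hq0 : 0 < q := by linarith
  have h0 : 0 ≤ q ^ (-(7 / 8) : ℝ) := Real.rpow_nonneg hq0.le _
  have h1 : (q ^ (-(7 / 8) : ℝ)) ^ 8 ≤ (3 / 10 : ℝ) ^ 8 := by
    have e1 : (q ^ (-(7 / 8) : ℝ)) ^ 8 = (q ^ 7)⁻¹ := by
      rw [← Real.rpow_natCast, ← Real.rpow_mul hq0.le, ← Real.rpow_natCast,
        ← Real.rpow_neg hq0.le]
      norm_num
    rw [e1]
    have h2 : (4 : ℝ) ^ 7 ≤ q ^ 7 := pow_le_pow_left₀ (by norm_num) hq 7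
    have h3 : (q ^ 7)⁻¹ ≤ ((4 : ℝ) ^ 7)⁻¹ := inv_anti₀ (by norm_num) h2
    refine h3.trans ?_
    norm_num
  exact le_of_pow_le_pow_left₀ (by norm_num) (by norm_num) h1

theorem num2 {q : ℝ} (hq : 4 ≤ q) : q ^ (-(15 / 8) : ℝ) ≤ 3 / 40 := by
  have hq0 : 0 < q := by linarith
  have e1 : q ^ (-(15 / 8) : ℝ) = q ^ (-(7 / 8) : ℝ) * q⁻¹ := by
    rw [← Real.rpow_neg_one, ← Real.rpow_add hq0]
    norm_num
  rw [e1]
  have h1 := num1 hq
  have h2 : q⁻¹ ≤ (4 : ℝ)⁻¹ := inv_anti₀ (by norm_num) hq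
  have h0 : 0 ≤ q ^ (-(7 / 8) : ℝ) := Real.rpow_nonneg hq0.le _
  have h3 : 0 < q⁻¹ := by positivity
  calc q ^ (-(7 / 8) : ℝ) * q⁻¹ ≤ (3 / 10) * (4 : ℝ)⁻¹ := mul_le_mul h1 h2 h3.le (by norm_num)
    _ = 3 / 40 := by norm_num

/-- sums of terms bounded by a geometric sequence -/
theorem sum_bd {q Q B : ℝ} (hq : 1 ≤ q) (hQ : q ≤ Q) (hB : 0 ≤ B) {M : ℕ} {f : ℕ → ℝ}
    (hf : ∀ i < M, |f i| ≤ B * Q ^ i) : |(q - 1) * ∑ i ∈ range M, f i| ≤ B * Q ^ M := by
  rw [abs_mul, abs_of_nonneg (by linarith : 0 ≤ q - 1)]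
  calc (q - 1) * |∑ i ∈ range M, f i| ≤ (q - 1) * ∑ i ∈ range M, B * Q ^ i := by
        refine mul_le_mul_of_nonneg_left ?_ (by linarith)
        exact (abs_sum_le_sum_abs _ _).trans (sum_le_sum fun i hi => hf i (mem_range.1 hi))
    _ = B * ((q - 1) * ∑ i ∈ range M, Q ^ i) := by
        rw [← mul_sum]
        ring
    _ ≤ B * Q ^ M := mul_le_mul_of_nonneg_left (geo hq hQ M) hB

theorem core {q θ C1 : ℝ} (hq : 4 ≤ q) (hθ : 0 < θ) (hθ' : θ ≤ 1 / 48) {c : ℕ → ℝ}
    (hc : ∀ j : ℕ, |c j| ≤ C1 * q ^ ((1 - θ) * j)) {F : ℕ → ℕ → ℝ}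
    (fe1a : ∀ n j, j ≤ n → |F n j| = |F n (n - j)|) (fe1b : ∀ n j, n < j → F n j = 0)
    (fe2a : ∀ m j : ℕ, j ≤ m → F (4 * m) j = q ^ ((2 * m : ℝ) - j) * c j ∧
      F (4 * m + 1) j = q ^ ((2 * m + 1 : ℝ) - j) * c j)
    (fe2b : ∀ m M j : ℕ, j = m + M + 1 →
      F (4 * m) j = q ^ ((2 * m : ℝ) - j) * (c j + (q - 1) * ∑ i ∈ range (M + 1), F (4 * i) j +
        (q - 1) * ∑ i ∈ range M, F (4 * i + 1) j - F (4 * M + 1) j) ∧
      F (4 * m + 1) j = q ^ ((2 * m + 1 : ℝ) - j) * (c j +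
        (q - 1) * ∑ i ∈ range M, F (4 * i + 1) j + (q - 1) * ∑ i ∈ range M, F (4 * i) j -
          F (4 * M) j)) (m : ℕ) :
    (∀ j, j < 2 * m → |F (4 * m) j| ≤ 2 * C1 * q ^ ((2 * m : ℝ) - θ * j)) ∧
    ∀ j, j ≤ 2 * m → |F (4 * m + 1) j - q ^ ((2 * m + 1 : ℝ) - j) * c j| ≤
      C1 * q ^ ((2 * m + 1 : ℝ) - θ * j - (1 - 2 * θ) * (2 * m - j)) := by
  have hq0 : 0 < q := by linarith
  have hq1 : 1 ≤ q := by linarith
  have hC : 0 ≤ C1 := by
    have := (abs_nonneg _).trans (hc 0)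
    simpa using this
  have hn1 := num1 hq
  have hn2 := num2 hq
  obtain ⟨Q, hQ⟩ : ∃ Q, Q = q ^ (2 - 4 * θ) := ⟨_, rfl⟩
  have hQi : ∀ i : ℕ, Q ^ i = q ^ ((2 - 4 * θ) * i) := by
    intro i
    rw [hQ, ← Real.rpow_natCast, ← Real.rpow_mul hq0.le]
  have hqQ : q ≤ Q := by
    rw [hQ]
    nth_rewrite 1 [← Real.rpow_one q]
    exact Real.rpow_le_rpow_of_exponent_le hq1 (by linarith)
  have hQ0 : 0 < Q := by linarith
  -- the main term
  have hmain : ∀ (x : ℝ) (j : ℕ), |q ^ (x - j) * c j| ≤ C1 * q ^ (x - θ * j) := by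
    intro x j
    rw [abs_mul, abs_of_pos (Real.rpow_pos_of_pos hq0 _)]
    calc q ^ (x - j) * |c j| ≤ q ^ (x - j) * (C1 * q ^ ((1 - θ) * j)) :=
          mul_le_mul_of_nonneg_left (hc j) (Real.rpow_nonneg hq0.le _)
      _ = C1 * (q ^ (x - j) * q ^ ((1 - θ) * j)) := by ring
      _ = C1 * q ^ (x - θ * j) := by
          rw [← Real.rpow_add hq0]
          congr 2
          ring
  induction m using Nat.strong_induction_on with
  | _ m ih =>
  -- the values beyond the centre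
  have hA : ∀ i j : ℕ, i < m → 2 * i + 1 ≤ j → |F (4 * i) j| ≤ 2 * C1 * q ^ (θ * j) * Q ^ i := by
    intro i j hi hj
    by_cases h4 : 4 * i < j
    · rw [fe1b _ _ h4, abs_zero]
      positivity
    · rw [fe1a _ _ (not_lt.1 h4)]
      refine ((ih i hi).1 (4 * i - j) (by omega)).trans (le_of_eq ?_)
      have e : q ^ ((2 * i : ℝ) - θ * ((4 * i - j : ℕ) : ℝ)) =
          q ^ (θ * j) * q ^ ((2 - 4 * θ) * i) := by
        rw [← Real.rpow_add hq0, Nat.cast_sub (not_lt.1 h4)]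
        congr 1
        push_cast
        ring
      rw [hQi, e]
      ring
  have hB : ∀ i j : ℕ, i < m → 2 * i + 1 ≤ j →
      |F (4 * i + 1) j| ≤ 2 * C1 * q ^ (θ * j) * q ^ (1 - θ) * Q ^ i := by
    intro i j hi hj
    by_cases h4 : 4 * i + 1 < j
    · rw [fe1b _ _ h4, abs_zero]
      positivity
    · rw [fe1a _ _ (not_lt.1 h4)]
      obtain ⟨j', hj'⟩ : ∃ j', j' = 4 * i + 1 - j := ⟨_, rfl⟩
      rw [← hj']
      have h5 : j' ≤ 2 * i := by omega
      have h6 := (ih i hi).2 j' h5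
      have h7 := hmain (2 * i + 1) j'
      have h8 : q ^ ((2 * i + 1 : ℝ) - θ * j' - (1 - 2 * θ) * (2 * i - j')) ≤
          q ^ ((2 * i + 1 : ℝ) - θ * j') := by
        refine Real.rpow_le_rpow_of_exponent_le hq1 ?_
        have h9 : (j' : ℝ) ≤ 2 * i := by exact_mod_cast h5
        have h10 : 0 ≤ (1 - 2 * θ) * (2 * i - j') := mul_nonneg (by linarith) (by linarith)
        linarith
      have h11 : |F (4 * i + 1) j'| ≤ 2 * C1 * q ^ ((2 * i + 1 : ℝ) - θ * j') := by
        have h12 : F (4 * i + 1) j' = (F (4 * i + 1) j' - q ^ ((2 * i + 1 : ℝ) - j') * c j') +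
            q ^ ((2 * i + 1 : ℝ) - j') * c j' := by ring
        rw [h12]
        refine (abs_add_le _ _).trans ?_
        have h13 := mul_le_mul_of_nonneg_left h8 hC
        linarith
      refine h11.trans (le_of_eq ?_)
      have h14 : (j' : ℝ) = 4 * i + 1 - j := by
        rw [hj', Nat.cast_sub (not_lt.1 h4)]
        push_cast
        ring
      have e : q ^ ((2 * i + 1 : ℝ) - θ * j') =
          q ^ (θ * j) * q ^ (1 - θ) * q ^ ((2 - 4 * θ) * i) := by
        rw [← Real.rpow_add hq0, ← Real.rpow_add hq0, h14]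
        congr 1
        ring
      rw [hQi, e]
      ring
  have hX : ∀ j : ℕ, 0 ≤ 2 * C1 * q ^ (θ * j) := fun j => by positivity
  constructor
  · intro j hj
    have hm1 := hmain (2 * m) j
    by_cases hjm : j ≤ m
    · rw [(fe2a m j hjm).1]
      refine hm1.trans ?_
      have := Real.rpow_nonneg hq0.le ((2 * m : ℝ) - θ * j)
      nlinarith
    · obtain ⟨M, hM⟩ : ∃ M, j = m + M + 1 := ⟨j - m - 1, by omega⟩
      have hMm : M < m := by omega
      have e1 := sum_bd hq1 hqQ (hX j) (M := M) (f := fun i => F (4 * i) j)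
        (fun i hi => hA i j (by omega) (by omega))
      have e2 := sum_bd hq1 hqQ (B := 2 * C1 * q ^ (θ * j) * q ^ (1 - θ)) (by positivity) (M := M)
        (f := fun i => F (4 * i + 1) j) (fun i hi => hB i j (by omega) (by omega))
      have e3 := hA M j hMm (by omega)
      have e4 := hB M j hMm (by omega)
      have hqθ : q ^ (1 - θ) ≤ q := by
        nth_rewrite 2 [← Real.rpow_one q]
        exact Real.rpow_le_rpow_of_exponent_le hq1 (by linarith)
      obtain ⟨Z, hZ⟩ : ∃ Z, Z = 2 * C1 * q ^ (θ * j) * Q ^ M := ⟨_, rfl⟩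
      have hZ0 : 0 ≤ Z := by
        rw [hZ]
        positivity
      have e2' : |(q - 1) * ∑ i ∈ range M, F (4 * i + 1) j| ≤ Z * q := by
        refine e2.trans ?_
        calc 2 * C1 * q ^ (θ * j) * q ^ (1 - θ) * Q ^ M = Z * q ^ (1 - θ) := by rw [hZ]; ring
          _ ≤ Z * q := mul_le_mul_of_nonneg_left hqθ hZ0
      have e4' : |F (4 * M + 1) j| ≤ Z * q := by
        refine e4.trans ?_
        calc 2 * C1 * q ^ (θ * j) * q ^ (1 - θ) * Q ^ M = Z * q ^ (1 - θ) := by rw [hZ]; ring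
          _ ≤ Z * q := mul_le_mul_of_nonneg_left hqθ hZ0
      have e1' : |(q - 1) * ∑ i ∈ range (M + 1), F (4 * i) j| ≤ Z * q := by
        rw [sum_range_succ, mul_add]
        refine (abs_add_le _ _).trans ?_
        rw [abs_mul (q - 1) (F (4 * M) j), abs_of_nonneg (by linarith : 0 ≤ q - 1)]
        have h5 : (q - 1) * |F (4 * M) j| ≤ (q - 1) * Z := by
          rw [hZ]
          exact mul_le_mul_of_nonneg_left e3 (by linarith)
        rw [← hZ] at e1
        linarith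
      obtain ⟨D, hD⟩ : ∃ D, D = (q - 1) * ∑ i ∈ range (M + 1), F (4 * i) j +
          (q - 1) * ∑ i ∈ range M, F (4 * i + 1) j - F (4 * M + 1) j := ⟨_, rfl⟩
      have hD' : |D| ≤ 3 * (Z * q) := by
        rw [hD]
        have h6 := abs_sub ((q - 1) * ∑ i ∈ range (M + 1), F (4 * i) j +
          (q - 1) * ∑ i ∈ range M, F (4 * i + 1) j) (F (4 * M + 1) j)
        have h7 := abs_add_le ((q - 1) * ∑ i ∈ range (M + 1), F (4 * i) j)
          ((q - 1) * ∑ i ∈ range M, F (4 * i + 1) j)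
        linarith
      have hF : F (4 * m) j = q ^ ((2 * m : ℝ) - j) * c j + q ^ ((2 * m : ℝ) - j) * D := by
        rw [(fe2b m M j hM).1, hD]
        ring
      have hexp : q ^ ((2 * m : ℝ) - j) * (Z * q) ≤ 2 * C1 * q ^ ((2 * m : ℝ) - θ * j) * (3 / 40) := by
        have hMr : (M : ℝ) = j - m - 1 := by
          rw [hM]
          push_cast
          ring
        have h8 : q ^ ((2 * m : ℝ) - j) * (Z * q) = 2 * C1 * q ^ ((2 * m : ℝ) - θ * j) *
            q ^ (-((1 - 2 * θ) * (2 * m - j)) - (1 - 4 * θ)) := by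
          have h9 : q ^ ((2 * m : ℝ) - j) * q ^ (θ * j) * q ^ ((2 - 4 * θ) * M) * q ^ (1 : ℝ) =
              q ^ ((2 * m : ℝ) - θ * j) * q ^ (-((1 - 2 * θ) * (2 * m - j)) - (1 - 4 * θ)) := by
            rw [← Real.rpow_add hq0, ← Real.rpow_add hq0, ← Real.rpow_add hq0, ← Real.rpow_add hq0,
              hMr]
            congr 1
            ring
          rw [Real.rpow_one] at h9
          rw [hZ, hQi]
          linear_combination 2 * C1 * h9
        rw [h8]
        refine mul_le_mul_of_nonneg_left (le_trans ?_ hn2) (by positivity)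
        refine Real.rpow_le_rpow_of_exponent_le hq1 ?_
        have h10 : (1 : ℝ) ≤ 2 * m - j := by
          have : ((j + 1 : ℕ) : ℝ) ≤ ((2 * m : ℕ) : ℝ) := by exact_mod_cast hj
          push_cast at this
          linarith
        have h11 : (1 - 2 * θ) * 1 ≤ (1 - 2 * θ) * (2 * m - j) :=
          mul_le_mul_of_nonneg_left h10 (by linarith)
        linarith
      rw [hF]
      refine (abs_add_le _ _).trans ?_
      rw [abs_mul _ D, abs_of_pos (Real.rpow_pos_of_pos hq0 _)]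
      have h12 : q ^ ((2 * m : ℝ) - j) * |D| ≤ 3 * (q ^ ((2 * m : ℝ) - j) * (Z * q)) := by
        calc q ^ ((2 * m : ℝ) - j) * |D| ≤ q ^ ((2 * m : ℝ) - j) * (3 * (Z * q)) :=
              mul_le_mul_of_nonneg_left hD' (Real.rpow_nonneg hq0.le _)
          _ = _ := by ring
      have h13 : 0 ≤ C1 * q ^ ((2 * m : ℝ) - θ * j) := by positivity
      linarith
  · intro j hj
    by_cases hjm : j ≤ m
    · rw [(fe2a m j hjm).2, sub_self, abs_zero]
      positivity
    · obtain ⟨M, hM⟩ : ∃ M, j = m + M + 1 := ⟨j - m - 1, by omega⟩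
      have hMm : M < m := by omega
      have e1 := sum_bd hq1 hqQ (hX j) (M := M) (f := fun i => F (4 * i) j)
        (fun i hi => hA i j (by omega) (by omega))
      have e2 := sum_bd hq1 hqQ (B := 2 * C1 * q ^ (θ * j) * q ^ (1 - θ)) (by positivity) (M := M)
        (f := fun i => F (4 * i + 1) j) (fun i hi => hB i j (by omega) (by omega))
      have e3 := hA M j hMm (by omega)
      obtain ⟨D, hD⟩ : ∃ D, D = (q - 1) * ∑ i ∈ range M, F (4 * i + 1) j +
          (q - 1) * ∑ i ∈ range M, F (4 * i) j - F (4 * M) j := ⟨_, rfl⟩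
      have hD' : |D| ≤ 2 * C1 * q ^ (θ * j) * q ^ (1 - θ) * Q ^ M +
          2 * (2 * C1 * q ^ (θ * j) * Q ^ M) := by
        rw [hD]
        have h6 := abs_sub ((q - 1) * ∑ i ∈ range M, F (4 * i + 1) j +
          (q - 1) * ∑ i ∈ range M, F (4 * i) j) (F (4 * M) j)
        have h7 := abs_add_le ((q - 1) * ∑ i ∈ range M, F (4 * i + 1) j)
          ((q - 1) * ∑ i ∈ range M, F (4 * i) j)
        linarith
      have hF : F (4 * m + 1) j - q ^ ((2 * m + 1 : ℝ) - j) * c j =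
          q ^ ((2 * m + 1 : ℝ) - j) * D := by
        rw [(fe2b m M j hM).2, hD]
        ring
      rw [hF, abs_mul, abs_of_pos (Real.rpow_pos_of_pos hq0 _)]
      obtain ⟨Y, hY⟩ : ∃ Y, Y = q ^ ((2 * m + 1 : ℝ) - θ * j - (1 - 2 * θ) * (2 * m - j)) := ⟨_, rfl⟩
      have hY0 : 0 ≤ Y := by
        rw [hY]
        positivity
      rw [← hY]
      have hMr : (M : ℝ) = j - m - 1 := by
        rw [hM]
        push_cast
        ring
      have h9 : q ^ ((2 * m + 1 : ℝ) - j) * (q ^ (θ * j) * Q ^ M) = Y * q ^ (-(2 - 4 * θ)) := by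
        rw [hY, hQi, ← Real.rpow_add hq0, ← Real.rpow_add hq0, ← Real.rpow_add hq0, hMr]
        congr 1
        ring
      have h10 : q ^ ((2 * m + 1 : ℝ) - j) * (q ^ (θ * j) * q ^ (1 - θ) * Q ^ M) =
          Y * q ^ (-(1 - 3 * θ)) := by
        rw [hY, hQi, ← Real.rpow_add hq0, ← Real.rpow_add hq0, ← Real.rpow_add hq0,
          ← Real.rpow_add hq0, hMr]
        congr 1
        ring
      have h11 : q ^ (-(2 - 4 * θ)) ≤ 3 / 40 :=
        (Real.rpow_le_rpow_of_exponent_le hq1 (by linarith)).trans hn2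
      have h12 : q ^ (-(1 - 3 * θ)) ≤ 3 / 10 :=
        (Real.rpow_le_rpow_of_exponent_le hq1 (by linarith)).trans hn1
      calc q ^ ((2 * m + 1 : ℝ) - j) * |D| ≤ q ^ ((2 * m + 1 : ℝ) - j) *
            (2 * C1 * q ^ (θ * j) * q ^ (1 - θ) * Q ^ M + 2 * (2 * C1 * q ^ (θ * j) * Q ^ M)) :=
            mul_le_mul_of_nonneg_left hD' (Real.rpow_nonneg hq0.le _)
        _ = C1 * (Y * (2 * q ^ (-(1 - 3 * θ)) + 4 * q ^ (-(2 - 4 * θ)))) := by
            linear_combination 2 * C1 * h10 + 4 * C1 * h9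
        _ ≤ C1 * (Y * 1) := by
            refine mul_le_mul_of_nonneg_left (mul_le_mul_of_nonneg_left ?_ hY0) hC
            linarith
        _ = C1 * Y := by ring

theorem TT_neg {q : ℝ} {f : ℤ → ℝ} {m : ℤ} (h : m < 0) : TT q f m = 0 := by
  unfold TT
  rw [Int.toNat_of_nonpos (by omega), range_zero, sum_empty, mul_zero]

theorem TT_nat {q : ℝ} {f : ℤ → ℝ} {m : ℤ} (M : ℕ) (h : m + 1 = M) :
    TT q f m = (q - 1) * ∑ i ∈ range M, f (i : ℤ) := by
  unfold TT
  rw [h, Int.toNat_natCast]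

section

variable {K : Type} [Field K] [Fintype K] {T : ℕ → ℕ → ℕ → ℝ}

theorem S0_neg {j : ℕ} {m : ℤ} (h : m < 0) : S0 K T j m = 0 := by
  unfold S0
  rw [if_pos h]

theorem S1_neg {j : ℕ} {m : ℤ} (h : m < 0) : S1 K T j m = 0 := by
  unfold S1
  rw [if_pos h]

theorem S0_nat (j m : ℕ) : S0 K T j (m : ℤ) = SS K T (4 * m) j := by
  unfold S0
  rw [if_neg (by omega), Int.toNat_natCast]

theorem S1_nat (j m : ℕ) : S1 K T j (m : ℤ) = SS K T (4 * m + 1) j := by
  unfold S1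
  rw [if_neg (by omega), Int.toNat_natCast]

end

end BND

open BND Finset in
/-- **BND.** -/
theorem bnd (h1 : S_fe1) (h2 : S_fe2) (h3 : S_rho) : S_bnd := by
  intro K _ _ _ T hsq hT
  have hcard : 4 ≤ Fintype.card K := by
    obtain ⟨r, hr⟩ := hsq
    have h4 : 1 < Fintype.card K := Fintype.one_lt_card
    have h5 : 2 ≤ r := by
      by_contra h
      have : r ≤ 1 := by omega
      interval_cases r <;> omega
    rw [hr]
    exact Nat.mul_le_mul h5 h5
  obtain ⟨q, hqdef⟩ : ∃ q : ℝ, q = (Fintype.card K : ℝ) := ⟨_, rfl⟩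
  have hq : 4 ≤ q := by
    rw [hqdef]
    exact_mod_cast hcard
  have hq0 : 0 < q := by linarith
  have hq1 : 1 ≤ q := by linarith
  obtain ⟨θ0, hθ0, C0, g, hg, -, hcc⟩ := h3 K T hcard hT
  simp only [← hqdef] at hg hcc
  have hC0 : 0 ≤ C0 := by
    have := (abs_nonneg _).trans (hg 0)
    simpa using this
  obtain ⟨θ, hθdef⟩ : ∃ θ, θ = min θ0 (1 / 48) := ⟨_, rfl⟩
  have hθ : 0 < θ := by
    rw [hθdef]
    exact lt_min hθ0 (by norm_num)
  have hθ' : θ ≤ 1 / 48 := by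
    rw [hθdef]
    exact min_le_right _ _
  have hθ'' : θ ≤ θ0 := by
    rw [hθdef]
    exact min_le_left _ _
  have hg' : ∀ j : ℕ, |g j| ≤ C0 * q ^ (-(θ * j)) := by
    intro j
    refine (hg j).trans (mul_le_mul_of_nonneg_left ?_ hC0)
    refine Real.rpow_le_rpow_of_exponent_le hq1 ?_
    have : (0 : ℝ) ≤ j := Nat.cast_nonneg j
    nlinarith
  have hc : ∀ j : ℕ, |cc K T j| ≤ C0 * (1 + q) * q ^ ((1 - θ) * j) := by
    intro j
    rw [hcc j, abs_mul, abs_of_pos (pow_pos hq0 j)]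
    have h4 : |(if j = 0 then 0 else g (j - 1))| ≤ C0 * q * q ^ (-(θ * j)) := by
      split_ifs with h
      · rw [abs_zero]
        positivity
      · refine (hg' (j - 1)).trans ?_
        rw [mul_assoc]
        refine mul_le_mul_of_nonneg_left ?_ hC0
        nth_rewrite 2 [← Real.rpow_one q]
        rw [← Real.rpow_add hq0]
        refine Real.rpow_le_rpow_of_exponent_le hq1 ?_
        rw [Nat.cast_sub (by omega)]
        push_cast
        linarith
    have h5 := abs_sub (g j) (if j = 0 then 0 else g (j - 1))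
    have h6 : q ^ ((1 - θ) * j) = q ^ j * q ^ (-(θ * j)) := by
      rw [← Real.rpow_natCast, ← Real.rpow_add hq0]
      congr 1
      ring
    rw [h6]
    calc q ^ j * |g j - if j = 0 then 0 else g (j - 1)|
        ≤ q ^ j * (C0 * q ^ (-(θ * j)) + C0 * q * q ^ (-(θ * j))) := by
          refine mul_le_mul_of_nonneg_left ?_ (pow_nonneg hq0.le j)
          have := hg' j
          linarith
      _ = C0 * (1 + q) * (q ^ j * q ^ (-(θ * j))) := by ring
  have hz : ∀ z : ℤ, q ^ z = q ^ (z : ℝ) := fun z => (Real.rpow_intCast q z).symm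
  have key := core (F := SS K T) hq hθ hθ' hc (fun n j hj => by
      rw [(h1 K T hsq hT n j).1 hj, abs_mul, abs_pow, abs_neg, abs_one, one_pow, one_mul])
    (fun n j hj => (h1 K T hsq hT n j).2 hj)
    (fun m j hj => by
      have h4 := h2 K T hT j m (by omega)
      rw [← hqdef, S0_nat, S1_nat, TT_neg (by omega), TT_neg (by omega)] at h4
      unfold UU at h4
      rw [TT_neg (by omega), TT_neg (by omega), S1_neg (by omega), S0_neg (by omega), hz, hz] at h4
      push_cast at h4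
      refine ⟨h4.1.trans ?_, h4.2.trans ?_⟩ <;> ring)
    (fun m M j hj => by
      have h4 := h2 K T hT j m (by omega)
      have e1 : (j : ℤ) - m - 1 = (M : ℤ) := by omega
      have e2 : (j : ℤ) - m - 2 = (M : ℤ) - 1 := by omega
      rw [← hqdef, S0_nat, S1_nat, e1, e2] at h4
      unfold UU at h4
      rw [TT_nat (M + 1) (by push_cast; ring), TT_nat (M + 1) (by push_cast; ring),
        TT_nat M (by ring), hz, hz, S0_nat, S1_nat] at h4
      simp only [S0_nat, S1_nat] at h4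
      push_cast at h4
      refine ⟨h4.1.trans ?_, h4.2.trans ?_⟩
      · rw [sum_range_succ (fun i => SS K T (4 * i + 1) j)]
        ring
      · rw [sum_range_succ (fun i => SS K T (4 * i) j)]
        ring)
  refine ⟨θ, hθ, C0 * (1 + q), fun m j hj => ?_⟩
  rw [← hqdef]
  refine ((key m).2 j hj).trans ?_
  refine mul_le_mul_of_nonneg_left ?_ (by positivity)
  refine Real.rpow_le_rpow_of_exponent_le hq1 ?_
  have h5 : (j : ℝ) ≤ 2 * m := by exact_mod_cast hj
  have h6 : 0 ≤ (1 / 2 - 3 * θ) * (2 * m - j) := mul_nonneg (by linarith) (by linarith)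
  linarith

end Pool.Agent.H6.C
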