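import Pool.Agent.H6.C.Stm
import Pool.Agent.H985.Chow.Typ

/-!
# Detection of the primes
-/

set_option autoImplicit false

namespace Pool.Agent.H6.C

open Polynomial
open scoped Classical
open Pool.Agent.H694.Typ (Mn)

noncomputable section

namespace Det

/-! ### Valuations -/

section val

variable {K : Type} [Field K]

theorem two_zero [CharP K 2] : (2 : K[X]) = 0 := by
  have h := CharP.cast_eq_zero K[X] 2
  exact_mod_cast h

theorem d_sq [CharP K 2] (A : K[X]) : derivative (A ^ 2) = 0 := by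
  rw [sq, derivative_mul]
  linear_combination (derivative A * A) * (two_zero (K := K))

theorem h2_mul (A B : K[X]) : hasseDeriv 2 (A * B) =
    A * hasseDeriv 2 B + derivative A * derivative B + hasseDeriv 2 A * B := by
  rw [hasseDeriv_mul]
  simp only [Finset.Nat.antidiagonal_succ, Finset.Nat.antidiagonal_zero, Finset.sum_cons,
    Finset.map_singleton, Finset.sum_singleton, Finset.map_cons, Function.Embedding.prodMap]
  simp [hasseDeriv_zero, hasseDeriv_one]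
  ring

theorem h2_sq [CharP K 2] (A : K[X]) : hasseDeriv 2 (A ^ 2) = derivative A ^ 2 := by
  rw [sq, h2_mul]
  linear_combination (A * hasseDeriv 2 A) * (two_zero (K := K))

theorem h2_four_mul [CharP K 2] (A B : K[X]) :
    hasseDeriv 2 (A ^ 4 * B) = A ^ 4 * hasseDeriv 2 B := by
  have e : A ^ 4 = (A ^ 2) ^ 2 := by ring
  rw [h2_mul, e, h2_sq, d_sq, d_sq]
  ring

theorem four_dvd [Fintype K] [CharP K 2] {P M : K[X]} (hP : Irreducible P)
    (hM : hasseDeriv 2 M = 0) (h : P ^ 2 ∣ M) : P ^ 4 ∣ M := by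
  obtain ⟨R, rfl⟩ := h
  rw [h2_mul, d_sq, h2_sq, zero_mul, add_zero] at hM
  have hsep : P.Separable := PerfectField.separable_of_irreducible hP
  have hc : IsCoprime (P ^ 2) (derivative P ^ 2) := IsCoprime.pow hsep
  have h1 : P ^ 2 ∣ derivative P ^ 2 * R := ⟨-hasseDeriv 2 R, by linear_combination hM⟩
  obtain ⟨S, rfl⟩ := hc.dvd_of_dvd_mul_left h1
  exact ⟨S, by ring⟩

theorem pow_dvd_iff {P N : K[X]} (hP : Irreducible P) (hPm : P.Monic) (hN0 : N ≠ 0) (k : ℕ) :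
    P ^ k ∣ N ↔ k ≤ vv P N := by
  unfold vv
  rw [pow_dvd_iff_le_emultiplicity,
    UniqueFactorizationMonoid.emultiplicity_eq_count_normalizedFactors hP hN0,
    hPm.normalize_eq_self, Nat.cast_le]

theorem vv_mod [Fintype K] [CharP K 2] {P N : K[X]} (hP : Irreducible P) (hPm : P.Monic)
    (hN0 : N ≠ 0) (hN : hasseDeriv 2 N = 0) : vv P N % 4 ≤ 1 := by
  by_contra hcon
  have hP0 : P ≠ 0 := hP.ne_zero
  obtain ⟨M, hM⟩ := (pow_dvd_iff hP hPm hN0 (4 * (vv P N / 4))).2 (by omega)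
  have h2 : hasseDeriv 2 M = 0 := by
    rw [hM, mul_comm 4, pow_mul, h2_four_mul] at hN
    rcases mul_eq_zero.1 hN with h | h
    · exact absurd h (pow_ne_zero _ (pow_ne_zero _ hP0))
    · exact h
  have h3 : P ^ 2 ∣ M := by
    have h4 := (pow_dvd_iff hP hPm hN0 (4 * (vv P N / 4) + 2)).2 (by omega)
    rw [pow_add] at h4
    have h5 : P ^ (4 * (vv P N / 4)) * P ^ 2 ∣ P ^ (4 * (vv P N / 4)) * M := by
      rw [← hM]
      exact h4
    exact (mul_dvd_mul_iff_left (pow_ne_zero _ hP0)).1 h5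
  have h6 := mul_dvd_mul_left (P ^ (4 * (vv P N / 4))) (four_dvd hP h2 h3)
  rw [← hM, ← pow_add] at h6
  have h7 := (pow_dvd_iff hP hPm hN0 _).1 h6
  omega

theorem mem_pf {P N : K[X]} (h : P ∈ pf N) : P.Monic ∧ Irreducible P ∧ 1 ≤ vv P N := by
  unfold pf at h
  rw [Multiset.mem_toFinset] at h
  have h1 := UniqueFactorizationMonoid.irreducible_of_normalized_factor P h
  have h2 := UniqueFactorizationMonoid.normalize_normalized_factor P h
  refine ⟨?_, h1, ?_⟩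
  · rw [← h2]
    exact monic_normalize h1.ne_zero
  · unfold vv
    exact Multiset.one_le_count_iff_mem.2 h

theorem prod_vv {N : K[X]} (hN : N.Monic) : ∏ P ∈ pf N, P ^ vv P N = N := by
  have h := UniqueFactorizationMonoid.prod_normalizedFactors_eq hN.ne_zero
  rw [hN.normalize_eq_self, Finset.prod_multiset_count] at h
  exact h

theorem sum_deg {N : K[X]} (hN : N.Monic) : ∑ P ∈ pf N, vv P N * P.natDegree = N.natDegree := by
  conv_rhs => rw [← prod_vv hN]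
  rw [natDegree_prod_of_monic _ _ fun P hP => (mem_pf hP).1.pow _]
  refine Finset.sum_congr rfl fun P hP => ?_
  rw [(mem_pf hP).1.natDegree_pow]

end val

/-! ### The local polynomials -/

/-- the local polynomial -/
def fP (e : ℕ → ℕ → ℝ) (k d : ℕ) : ℝ[X] :=
  ∑ l ∈ Finset.range (nuk k + 1), C (om e k l) * X ^ (l * d)

theorem fP_deg (e : ℕ → ℕ → ℝ) (k d : ℕ) : (fP e k d).natDegree ≤ nuk k * d := by
  unfold fP
  refine natDegree_sum_le_of_forall_le _ _ fun l hl => ?_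
  refine (natDegree_C_mul_X_pow_le _ _).trans ?_
  rw [Finset.mem_range] at hl
  exact Nat.mul_le_mul_right _ (by omega)

theorem fP_one {p : ℝ} {e : ℕ → ℕ → ℝ} (h : Tab p e) {k : ℕ} (hk : 1 ≤ k) (d : ℕ) :
    (fP e k d).eval 1 = 0 := by
  unfold fP
  rw [eval_finsetSum, ← h.one k hk]
  refine Finset.sum_congr rfl fun l _ => ?_
  rw [eval_mul, eval_C, eval_pow, eval_X, one_pow, mul_one]

theorem fP_der (e : ℕ → ℕ → ℝ) (k d : ℕ) : (derivative (fP e k d)).eval 1 =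
    ∑ l ∈ Finset.range (nuk k + 1), om e k l * ((l * d : ℕ) : ℝ) := by
  unfold fP
  rw [derivative_sum, eval_finsetSum]
  refine Finset.sum_congr rfl fun l _ => ?_
  rw [derivative_C_mul, derivative_X_pow, eval_mul, eval_C, eval_mul, eval_C, eval_pow, eval_X,
    one_pow, mul_one]

theorem nuk_kk {K : Type} [Field K] {P N : K[X]} (h : vv P N % 4 ≤ 1) :
    nuk (kk P N) = vv P N := by
  unfold nuk kk
  omega

theorem kk_pos {K : Type} [Field K] {P N : K[X]} (h : 1 ≤ vv P N) : 1 ≤ kk P N := by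
  unfold kk
  omega

theorem OmP_eq {K : Type} [Field K] (T : ℕ → ℕ → ℕ → ℝ) (N : K[X]) :
    OmP T N = ∏ P ∈ pf N, fP (T P.natDegree) (kk P N) P.natDegree := rfl

theorem OmP_deg {K : Type} [Field K] [Fintype K] [CharP K 2] (T : ℕ → ℕ → ℕ → ℝ) {N : K[X]}
    (hN : N.Monic) (h2 : hasseDeriv 2 N = 0) : (OmP T N).natDegree ≤ N.natDegree := by
  rw [OmP_eq, ← sum_deg hN]
  refine (natDegree_prod_le _ _).trans (Finset.sum_le_sum fun P hP => ?_)
  obtain ⟨h3, h4, h5⟩ := mem_pf hP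
  rw [← nuk_kk (vv_mod h4 h3 hN.ne_zero h2)]
  exact fP_deg _ _ _

/-- the derivative at one -/
def dd1 (p : ℝ[X]) : ℝ := (derivative p).eval 1

theorem sum_coeff {p : ℝ[X]} {n : ℕ} (hp : p.natDegree ≤ n) :
    ∑ j ∈ Finset.range (n + 1), (j : ℝ) * p.coeff j = dd1 p := by
  have h1 : (derivative p).natDegree < n + 1 :=
    lt_of_le_of_lt ((natDegree_derivative_le p).trans (Nat.sub_le _ _)) (by omega)
  unfold dd1
  rw [eval_eq_sum_range' h1, Finset.sum_range_succ']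
  have h2 : p.coeff (n + 1) = 0 := coeff_eq_zero_of_natDegree_lt (by omega)
  rw [Finset.sum_range_succ, coeff_derivative, h2]
  simp only [coeff_derivative, one_pow, mul_one, Nat.cast_zero, zero_mul, add_zero]
  refine Finset.sum_congr rfl fun j _ => ?_
  push_cast
  ring

theorem dd1_mul (p g : ℝ[X]) (hp : p.eval 1 = 0) (hg : g.eval 1 = 0) : dd1 (p * g) = 0 := by
  unfold dd1
  rw [derivative_mul, eval_add, eval_mul, eval_mul, hp, hg]
  ring

section cases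

variable {K : Type} [Field K] [Fintype K] {T : ℕ → ℕ → ℕ → ℝ}

theorem fac_one (hT : Tabs K T) {P N : K[X]} (hP : P ∈ pf N) :
    (fP (T P.natDegree) (kk P N) P.natDegree).eval 1 = 0 := by
  obtain ⟨h3, h4, h5⟩ := mem_pf hP
  exact fP_one (hT P.natDegree h4.natDegree_pos) (kk_pos h5) _

/-- two different prime factors -/
theorem dd1_two (hT : Tabs K T) {N : K[X]} (h : 1 < (pf N).card) : dd1 (OmP T N) = 0 := by
  obtain ⟨P, hP, Q, hQ, hPQ⟩ := Finset.one_lt_card.1 h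
  rw [OmP_eq, ← Finset.mul_prod_erase _ _ hP]
  refine dd1_mul _ _ (fac_one hT hP) ?_
  rw [eval_prod]
  exact Finset.prod_eq_zero (Finset.mem_erase.2 ⟨hPQ.symm, hQ⟩) (fac_one hT hQ)

theorem om10 {p : ℝ} {e : ℕ → ℕ → ℝ} (h : Tab p e) : om e 1 0 = 1 ∧ om e 1 1 = -1 := by
  unfold om
  constructor
  · rw [Finset.sum_range_succ, Finset.sum_range_one, h.e00, h.e0 1 le_rfl, add_zero]
  · rw [Finset.sum_range_succ, Finset.sum_range_one, h.e11, h.el0 1 le_rfl, zero_add]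

/-- primes -/
theorem dd1_irr (hT : Tabs K T) {N : K[X]} (hN : N.Monic) (h : Irreducible N) :
    dd1 (OmP T N) = -(N.natDegree : ℝ) := by
  have h1 : UniqueFactorizationMonoid.normalizedFactors N = {N} := by
    rw [UniqueFactorizationMonoid.normalizedFactors_irreducible h, hN.normalize_eq_self]
  have h2 : pf N = {N} := by
    unfold pf
    rw [h1, Multiset.toFinset_singleton]
  have h3 : kk N N = 1 := by
    unfold kk vv
    rw [h1, Multiset.count_singleton_self]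
  rw [OmP_eq, h2, Finset.prod_singleton, h3]
  unfold dd1
  rw [fP_der]
  have h4 : nuk 1 = 1 := rfl
  obtain ⟨h5, h6⟩ := om10 (hT N.natDegree h.natDegree_pos)
  rw [h4, Finset.sum_range_succ, Finset.sum_range_one, h6, zero_mul, Nat.cast_zero, mul_zero,
    zero_add, one_mul]
  ring

/-- the bound for the coefficients -/
theorem om_bd {p : ℝ} {e : ℕ → ℕ → ℝ} (h : Tab p e) (hp : 1 ≤ p) (b l : ℕ)
    (hl : l ≤ 4 * b + 1) : |om e (2 * b + 1) l| ≤ (7 / 2 * p) ^ b := by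
  have hG : 1 ≤ Real.sqrt (7 / 2 * p) := by
    rw [Real.one_le_sqrt]
    linarith
  have hG2 : Real.sqrt (7 / 2 * p) ^ (2 * b) = (7 / 2 * p) ^ b := by
    rw [pow_mul, Real.sq_sqrt (by linarith)]
  have hn : nuk (2 * b + 1) = 4 * b + 1 := by
    unfold nuk
    omega
  rw [← hG2]
  rcases Nat.lt_or_ge (2 * b) l with h1 | h1
  · have h2 := h.pal (2 * b + 1) l (by omega)
    have h3 : |om e (2 * b + 1) l| = |om e (2 * b + 1) (nuk (2 * b + 1) - l)| := by
      rw [h2, abs_mul, abs_pow, abs_neg, abs_one, one_pow, one_mul]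
    rw [h3]
    exact (h.bd _ _).trans (pow_le_pow_right₀ hG (by omega))
  · exact (h.bd _ _).trans (pow_le_pow_right₀ hG h1)

/-- powers of primes -/
theorem dd1_pow (hT : Tabs K T) {N P : K[X]} {b : ℕ} (h1 : pf N = {P}) (hd : 1 ≤ P.natDegree)
    (hk : vv P N = 4 * b + 1) :
    |dd1 (OmP T N)| ≤ (4 * b + 2) * (((4 * b + 1) * P.natDegree : ℕ) : ℝ) *
      (7 / 2 * (Fintype.card K : ℝ) ^ P.natDegree) ^ b := by
  have hq : (1 : ℝ) ≤ (Fintype.card K : ℝ) ^ P.natDegree := by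
    refine one_le_pow₀ ?_
    exact_mod_cast Fintype.card_pos
  have h3 : kk P N = 2 * b + 1 := by
    unfold kk
    omega
  have hn : nuk (2 * b + 1) = 4 * b + 1 := by
    unfold nuk
    omega
  rw [OmP_eq, h1, Finset.prod_singleton, h3]
  unfold dd1
  rw [fP_der, hn]
  refine (Finset.abs_sum_le_sum_abs _ _).trans ?_
  have h4 : ∀ l ∈ Finset.range (4 * b + 1 + 1),
      |om (T P.natDegree) (2 * b + 1) l * ((l * P.natDegree : ℕ) : ℝ)| ≤
      (((4 * b + 1) * P.natDegree : ℕ) : ℝ) *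
        (7 / 2 * (Fintype.card K : ℝ) ^ P.natDegree) ^ b := by
    intro l hl
    rw [Finset.mem_range] at hl
    rw [abs_mul, Nat.abs_cast, mul_comm]
    refine mul_le_mul ?_ (om_bd (hT _ hd) hq b l (by omega)) (abs_nonneg _) (Nat.cast_nonneg _)
    exact_mod_cast Nat.mul_le_mul_right _ (by omega)
  refine (Finset.sum_le_card_nsmul _ _ _ h4).trans ?_
  rw [Finset.card_range, nsmul_eq_mul]
  push_cast
  apply le_of_eq
  ring

end cases

/-! ### The assembly -/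

section fin

variable {K : Type} [Field K] [Fintype K] [CharP K 2] {T : ℕ → ℕ → ℕ → ℝ}

omit [CharP K 2] in
theorem mem_WB {n : ℕ} {N : K[X]} :
    N ∈ WB K n ↔ (N.Monic ∧ N.natDegree = n) ∧ hasseDeriv 2 N = 0 := by
  unfold WB
  rw [Finset.mem_filter, Pool.Agent.H694.Typ.mem_Mn]

theorem step1 (n : ℕ) : ∑ j ∈ Finset.range (n + 1), -((j : ℝ) * SS K T n j) =
    ∑ N ∈ WB K n, -dd1 (OmP T N) := by
  have h1 : ∀ j ∈ Finset.range (n + 1), -((j : ℝ) * SS K T n j) =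
      ∑ N ∈ WB K n, -((j : ℝ) * (OmP T N).coeff j) := by
    intro j _
    unfold SS
    rw [Finset.mul_sum, Finset.sum_neg_distrib]
  rw [Finset.sum_congr rfl h1, Finset.sum_comm]
  refine Finset.sum_congr rfl fun N hN => ?_
  obtain ⟨⟨h2, h3⟩, h4⟩ := mem_WB.1 hN
  rw [Finset.sum_neg_distrib, sum_coeff]
  rw [← h3]
  exact OmP_deg T h2 h4

/-- the error of `N` -/
def er (T : ℕ → ℕ → ℕ → ℝ) (n : ℕ) (N : K[X]) : ℝ :=
  -dd1 (OmP T N) - if Irreducible N then (n : ℝ) else 0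

theorem step2 (n : ℕ) : (∑ j ∈ Finset.range (n + 1), -((j : ℝ) * SS K T n j)) -
    (n : ℝ) * (((WB K n).filter (fun N => Irreducible N)).card : ℝ) =
    ∑ N ∈ WB K n, er T n N := by
  unfold er
  rw [step1, Finset.sum_sub_distrib]
  congr 1
  rw [Finset.card_filter, Nat.cast_sum, Finset.mul_sum]
  refine Finset.sum_congr rfl fun N _ => ?_
  split_ifs
  · rw [Nat.cast_one, mul_one]
  · rw [Nat.cast_zero, mul_zero]

/-- the bound for the exponent `4 b + 1` -/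
def bb (K : Type) [Fintype K] (n b : ℕ) : ℝ :=
  (4 * b + 2) * (n : ℝ) * (7 / 2 * (Fintype.card K : ℝ) ^ (n / (4 * b + 1))) ^ b

theorem er_cases (hT : Tabs K T) {n : ℕ} (hn : n % 2 = 1) {N : K[X]} (hN : N ∈ WB K n) :
    er T n N = 0 ∨ ∃ b : ℕ, 1 ≤ b ∧ b < n ∧ (4 * b + 1) * (n / (4 * b + 1)) = n ∧
      (∃ P ∈ Mn K (n / (4 * b + 1)), P ^ (4 * b + 1) = N) ∧ |er T n N| ≤ bb K n b := by
  obtain ⟨⟨h2, h3⟩, h4⟩ := mem_WB.1 hN
  by_cases hI : Irreducible N
  · left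
    unfold er
    rw [if_pos hI, dd1_irr hT h2 hI, h3]
    ring
  rcases Nat.lt_or_ge 1 (pf N).card with h5 | h5
  · left
    unfold er
    rw [if_neg hI, dd1_two hT h5]
    ring
  right
  have h6 : (pf N).card ≠ 0 := by
    intro h
    rw [Finset.card_eq_zero] at h
    have h7 := sum_deg h2
    rw [h, Finset.sum_empty, h3] at h7
    omega
  obtain ⟨P, hP⟩ := Finset.card_eq_one.1 (show (pf N).card = 1 by omega)
  have h7 := sum_deg h2
  have h8 := prod_vv h2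
  rw [hP, Finset.sum_singleton, h3] at h7
  rw [hP, Finset.prod_singleton] at h8
  obtain ⟨h9, h10, h11⟩ := mem_pf (show P ∈ pf N by rw [hP]; exact Finset.mem_singleton_self _)
  have h12 := vv_mod h10 h9 h2.ne_zero h4
  have h13 : vv P N % 2 = 1 := by
    by_contra h
    have : 2 ∣ n := by
      rw [← h7]
      exact Dvd.dvd.mul_right (by omega) _
    omega
  have h14 : vv P N ≠ 1 := by
    intro h
    rw [h, pow_one] at h8
    rw [h8] at h10
    exact hI h10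
  obtain ⟨b, hb⟩ : ∃ b, vv P N = 4 * b + 1 := ⟨vv P N / 4, by omega⟩
  have hd : 1 ≤ P.natDegree := h10.natDegree_pos
  rw [hb] at h7 h8
  have hdn : n / (4 * b + 1) = P.natDegree := by
    rw [← h7]
    exact Nat.mul_div_cancel_left _ (by omega)
  refine ⟨b, by omega, ?_, by rw [hdn, h7], ⟨P, ?_, h8⟩, ?_⟩
  · rw [← h7]
    nlinarith
  · rw [Pool.Agent.H694.Typ.mem_Mn, hdn]
    exact ⟨h9, rfl⟩
  · unfold er bb
    rw [if_neg hI, sub_zero, abs_neg, hdn]
    have h15 := dd1_pow hT hP hd hb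
    rw [h7] at h15
    exact h15

omit [CharP K 2] in
theorem bb_nonneg (n b : ℕ) : 0 ≤ bb K n b := by
  unfold bb
  positivity

/-- `N` is a power with the exponent `4 b + 1` -/
def QQ (n b : ℕ) (N : K[X]) : Prop :=
  (1 ≤ b ∧ (4 * b + 1) * (n / (4 * b + 1)) = n) ∧
    (∃ P ∈ Mn K (n / (4 * b + 1)), P ^ (4 * b + 1) = N)

theorem step3 (hT : Tabs K T) {n : ℕ} (hn : n % 2 = 1) :
    |∑ N ∈ WB K n, er T n N| ≤ ∑ b ∈ Finset.range n,
      if 1 ≤ b ∧ (4 * b + 1) * (n / (4 * b + 1)) = n then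
        (Fintype.card K : ℝ) ^ (n / (4 * b + 1)) * bb K n b else 0 := by
  refine (Finset.abs_sum_le_sum_abs _ _).trans ?_
  have h1 : ∀ N ∈ WB K n, |er T n N| ≤ ∑ b ∈ Finset.range n,
      if QQ n b N then bb K n b else 0 := by
    intro N hN
    have h0 : ∀ b ∈ Finset.range n, 0 ≤ if QQ n b N then bb K n b else 0 := by
      intro b _
      split_ifs
      · exact bb_nonneg n b
      · exact le_rfl
    rcases er_cases hT hn hN with h | ⟨b, h2, h3, h4, h5, h6⟩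
    · rw [h, abs_zero]
      exact Finset.sum_nonneg h0
    · refine le_trans ?_ (Finset.single_le_sum h0 (Finset.mem_range.2 h3))
      rw [if_pos ⟨⟨h2, h4⟩, h5⟩]
      exact h6
  refine (Finset.sum_le_sum h1).trans ?_
  rw [Finset.sum_comm]
  refine Finset.sum_le_sum fun b _ => ?_
  rw [Finset.sum_ite, Finset.sum_const, Finset.sum_const_zero, add_zero, nsmul_eq_mul]
  split_ifs with h
  · refine mul_le_mul_of_nonneg_right ?_ (bb_nonneg n b)
    rw [← Nat.cast_pow, ← Pool.Agent.H694.Typ.card_Mn, Nat.cast_le]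
    refine (Finset.card_le_card (t := (Mn K (n / (4 * b + 1))).image (fun P => P ^ (4 * b + 1)))
      ?_).trans Finset.card_image_le
    intro N hN
    rw [Finset.mem_filter] at hN
    rw [Finset.mem_image]
    exact hN.2.2
  · rw [Finset.filter_false_of_mem fun N _ h' => h h'.1, Finset.card_empty, Nat.cast_zero,
      zero_mul]

end fin

/-- `7 / 2 ≤ q ^ (10 / 11)` -/
theorem seven {q : ℝ} (hq : 4 ≤ q) : 7 / 2 ≤ q ^ (10 / 11 : ℝ) := by
  have h1 : (7 / 2 : ℝ) ≤ (4 : ℝ) ^ (10 / 11 : ℝ) := by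
    have h2 : (7 / 2 : ℝ) = ((7 / 2 : ℝ) ^ (11 : ℕ)) ^ ((11 : ℕ) : ℝ)⁻¹ := by
      rw [Real.pow_rpow_inv_natCast (by norm_num) (by norm_num)]
    have h3 : (4 : ℝ) ^ (10 / 11 : ℝ) = ((4 : ℝ) ^ (10 : ℕ)) ^ ((11 : ℕ) : ℝ)⁻¹ := by
      rw [← Real.rpow_natCast, ← Real.rpow_mul (by norm_num)]
      norm_num
    rw [h2, h3]
    exact Real.rpow_le_rpow (by positivity) (by norm_num) (by positivity)
  exact h1.trans (Real.rpow_le_rpow (by norm_num) hq (by norm_num))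

theorem expo {b d n : ℝ} (hb : 1 ≤ b) (hd : 1 ≤ d) (h : (4 * b + 1) * d = n) :
    d + b * (10 / 11 + d) ≤ 21 / 44 * n + 1 := by
  subst h
  nlinarith [mul_nonneg (sub_nonneg.2 hb) (sub_nonneg.2 hd)]

theorem one_b {q : ℝ} (hq : 4 ≤ q) {n b : ℕ} (hb : 1 ≤ b)
    (h : (4 * b + 1) * (n / (4 * b + 1)) = n) (hn : 1 ≤ n) :
    q ^ (n / (4 * b + 1)) * ((4 * b + 2) * (n : ℝ) * (7 / 2 * q ^ (n / (4 * b + 1))) ^ b) ≤
      (n + 1) * n * q ^ (21 / 44 * (n : ℝ) + 1) := by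
  set d := n / (4 * b + 1) with hd
  have hd1 : 1 ≤ d := by
    rcases Nat.eq_zero_or_pos d with h0 | h0
    · rw [h0, mul_zero] at h
      omega
    · exact h0
  have hq0 : 0 < q := by linarith
  have h1 : q ^ d * (7 / 2 * q ^ d) ^ b ≤ q ^ (21 / 44 * (n : ℝ) + 1) := by
    have h2 : q ^ d * (7 / 2 * q ^ d) ^ b ≤ q ^ d * (q ^ (10 / 11 : ℝ) * q ^ d) ^ b := by
      have := seven hq
      gcongr
    refine h2.trans ?_
    rw [← Real.rpow_natCast q d, ← Real.rpow_add hq0, ← Real.rpow_natCast (q ^ _) b,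
      ← Real.rpow_mul hq0.le, ← Real.rpow_add hq0]
    refine Real.rpow_le_rpow_of_exponent_le (by linarith) ?_
    have h3 : ((4 * b + 1 : ℝ)) * d = n := by exact_mod_cast h
    have := expo (by exact_mod_cast hb) (by exact_mod_cast hd1) h3
    linarith
  have h4 : (4 * b + 2 : ℝ) ≤ n + 1 := by
    have : 4 * b + 1 ≤ n := by
      calc 4 * b + 1 = (4 * b + 1) * 1 := by ring
        _ ≤ (4 * b + 1) * d := Nat.mul_le_mul_left _ hd1
        _ = n := h
    have h5 : ((4 * b + 1 : ℕ) : ℝ) ≤ n := by exact_mod_cast this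
    push_cast at h5
    linarith
  calc q ^ d * ((4 * b + 2) * (n : ℝ) * (7 / 2 * q ^ d) ^ b)
      = (4 * b + 2) * n * (q ^ d * (7 / 2 * q ^ d) ^ b) := by ring
    _ ≤ (n + 1) * n * q ^ (21 / 44 * (n : ℝ) + 1) := by
      gcongr

theorem cube {q : ℝ} (hq : 4 ≤ q) {L : ℝ} (hL : 0 ≤ L) :
    L ^ 3 ≤ 6 * 44 ^ 3 * q ^ (1 / 44 * L) := by
  have h1 := Real.pow_div_factorial_le_exp (L / 44) (by positivity) 3
  have h2 : Real.exp (L / 44) ≤ q ^ (1 / 44 * L) := by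
    rw [Real.rpow_def_of_pos (by linarith)]
    apply Real.exp_le_exp.2
    have h3 : 1 ≤ Real.log q := by
      rw [Real.le_log_iff_exp_le (by linarith)]
      have := Real.exp_one_lt_d9
      linarith
    have h4 : 0 ≤ 1 / 44 * L := by positivity
    nlinarith
  have h3 : ((3).factorial : ℝ) = 6 := by
    norm_num [Nat.factorial]
  rw [h3] at h1
  have h4 := h1.trans h2
  rw [div_pow, div_div, div_le_iff₀ (by positivity)] at h4
  linarith

theorem fin_bd {q : ℝ} (hq : 4 ≤ q) (m : ℕ) :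
    ((4 * m + 1 : ℕ) : ℝ) * ((((4 * m + 1 : ℕ) : ℝ) + 1) * ((4 * m + 1 : ℕ) : ℝ) *
      q ^ (21 / 44 * ((4 * m + 1 : ℕ) : ℝ) + 1)) ≤
      (48 * 44 ^ 3 * q) * q ^ ((1 - 1 / 44) * (2 * m + 1 : ℝ)) := by
  have hq0 : 0 < q := by linarith
  have hm : (0 : ℝ) ≤ m := Nat.cast_nonneg m
  have hL : (0 : ℝ) ≤ 2 * m + 1 := by linarith
  have h1 : q ^ (21 / 44 * ((4 * m + 1 : ℕ) : ℝ) + 1) ≤ q * q ^ (42 / 44 * (2 * m + 1 : ℝ)) := by
    have : q * q ^ (42 / 44 * (2 * m + 1 : ℝ)) = q ^ (1 + 42 / 44 * (2 * m + 1 : ℝ)) := by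
      rw [Real.rpow_add hq0, Real.rpow_one]
    rw [this]
    refine Real.rpow_le_rpow_of_exponent_le (by linarith) ?_
    push_cast
    linarith
  have h2 : ((4 * m + 1 : ℕ) : ℝ) * ((((4 * m + 1 : ℕ) : ℝ) + 1) * ((4 * m + 1 : ℕ) : ℝ)) ≤
      8 * (2 * m + 1 : ℝ) ^ 3 := by
    push_cast
    have h3 : (4 * m + 1 : ℝ) ≤ 2 * (2 * m + 1) := by linarith
    have h4 : (4 * m + 1 : ℝ) + 1 = 2 * (2 * m + 1) := by ring
    rw [h4]
    calc (4 * m + 1 : ℝ) * (2 * (2 * m + 1) * (4 * m + 1))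
        ≤ (2 * (2 * m + 1)) * (2 * (2 * m + 1) * (2 * (2 * m + 1))) := by gcongr
      _ = 8 * (2 * m + 1 : ℝ) ^ 3 := by ring
  have h5 := cube hq hL
  have h6 : q ^ ((1 - 1 / 44) * (2 * m + 1 : ℝ)) =
      q ^ (1 / 44 * (2 * m + 1 : ℝ)) * q ^ (42 / 44 * (2 * m + 1 : ℝ)) := by
    rw [← Real.rpow_add hq0]
    congr 1
    ring
  rw [h6]
  calc ((4 * m + 1 : ℕ) : ℝ) * ((((4 * m + 1 : ℕ) : ℝ) + 1) * ((4 * m + 1 : ℕ) : ℝ) *
      q ^ (21 / 44 * ((4 * m + 1 : ℕ) : ℝ) + 1))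
      = (((4 * m + 1 : ℕ) : ℝ) * ((((4 * m + 1 : ℕ) : ℝ) + 1) * ((4 * m + 1 : ℕ) : ℝ))) *
      q ^ (21 / 44 * ((4 * m + 1 : ℕ) : ℝ) + 1) := by ring
    _ ≤ (8 * (2 * m + 1 : ℝ) ^ 3) * (q * q ^ (42 / 44 * (2 * m + 1 : ℝ))) := by
      gcongr
    _ ≤ (8 * (6 * 44 ^ 3 * q ^ (1 / 44 * (2 * m + 1 : ℝ)))) *
        (q * q ^ (42 / 44 * (2 * m + 1 : ℝ))) := by
      gcongr
    _ = (48 * 44 ^ 3 * q) * (q ^ (1 / 44 * (2 * m + 1 : ℝ)) *
        q ^ (42 / 44 * (2 * m + 1 : ℝ))) := by ring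

end Det

/-- **DET.** -/
theorem det_ : S_det := by
  intro K _ _ _ T hK hT
  refine ⟨1 / 44, by norm_num, 48 * 44 ^ 3 * (Fintype.card K : ℝ), fun m => ?_⟩
  have hq : (4 : ℝ) ≤ (Fintype.card K : ℝ) := by exact_mod_cast hK
  have h0 : 4 * m + 2 = (4 * m + 1) + 1 := rfl
  rw [h0, Det.step2]
  refine (Det.step3 hT (by omega)).trans (le_trans ?_ (Det.fin_bd hq m))
  have h1 : ∀ b ∈ Finset.range (4 * m + 1),
      (if 1 ≤ b ∧ (4 * b + 1) * ((4 * m + 1) / (4 * b + 1)) = 4 * m + 1 then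
        (Fintype.card K : ℝ) ^ ((4 * m + 1) / (4 * b + 1)) * Det.bb K (4 * m + 1) b else 0) ≤
      (((4 * m + 1 : ℕ) : ℝ) + 1) * ((4 * m + 1 : ℕ) : ℝ) *
        (Fintype.card K : ℝ) ^ (21 / 44 * ((4 * m + 1 : ℕ) : ℝ) + 1) := by
    intro b _
    split_ifs with h
    · unfold Det.bb
      exact Det.one_b hq h.1 h.2 (by omega)
    · positivity
  refine (Finset.sum_le_card_nsmul _ _ _ h1).trans ?_
  rw [Finset.card_range, nsmul_eq_mul]

end

end Pool.Agent.H6.C
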