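import Pool.Agent.H6.C.Stm
import Pool.Agent.H985.Chow.Typ

/-!
# EXP: the expansion of the double series into lattices (helper389)
-/

set_option autoImplicit false
set_option linter.all false

namespace Pool.Agent.H6.C

open Polynomial
open scoped Classical
open Pool.Agent.H694.Typ (Mn PU Irn mem_Mn)

noncomputable section

namespace Exp

section Fac

variable {K : Type} [Field K]

lemma mem_pf {f P : K[X]} (hf : f ≠ 0) : P ∈ pf f ↔ Irreducible P ∧ P.Monic ∧ P ∣ f := by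
  unfold pf
  rw [Multiset.mem_toFinset]
  exact Polynomial.mem_normalizedFactors_iff hf

lemma vv_eq_zero {f P : K[X]} : vv P f = 0 ↔ P ∉ pf f := by
  unfold vv pf
  rw [Multiset.count_eq_zero, Multiset.mem_toFinset]

lemma vv_pos {f P : K[X]} : 0 < vv P f ↔ P ∈ pf f := by
  rw [Nat.pos_iff_ne_zero, Ne, vv_eq_zero, not_not]

lemma vv_mul (P : K[X]) {f g : K[X]} (hf : f ≠ 0) (hg : g ≠ 0) : vv P (f * g) = vv P f + vv P g := by
  unfold vv
  rw [UniqueFactorizationMonoid.normalizedFactors_mul hf hg, Multiset.count_add]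

lemma vv_pow (P : K[X]) (f : K[X]) (n : ℕ) : vv P (f ^ n) = n * vv P f := by
  unfold vv
  rw [UniqueFactorizationMonoid.normalizedFactors_pow, Multiset.count_nsmul]

lemma vv_one (P : K[X]) : vv P (1 : K[X]) = 0 := by
  unfold vv
  rw [UniqueFactorizationMonoid.normalizedFactors_one, Multiset.count_zero]

lemma vv_irr {Q : K[X]} (h1 : Irreducible Q) (h2 : Q.Monic) (P : K[X]) :
    vv P Q = if P = Q then 1 else 0 := by
  unfold vv
  rw [UniqueFactorizationMonoid.normalizedFactors_irreducible h1, h2.normalize_eq_self,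
    Multiset.count_singleton]

lemma monic_prod (S : Finset K[X]) (hS : ∀ P ∈ S, Irreducible P ∧ P.Monic) (v : K[X] → ℕ) :
    (∏ P ∈ S, P ^ v P).Monic :=
  monic_prod_of_monic _ _ fun P hP => (hS P hP).2.pow _

lemma vv_prod (S : Finset K[X]) (hS : ∀ P ∈ S, Irreducible P ∧ P.Monic) (v : K[X] → ℕ) (Q : K[X]) :
    vv Q (∏ P ∈ S, P ^ v P) = if Q ∈ S then v Q else 0 := by
  induction S using Finset.induction_on with
  | empty => simp [vv_one]
  | insert R S hR ih =>
    have hS' : ∀ P ∈ S, Irreducible P ∧ P.Monic := fun P hP => hS P (Finset.mem_insert_of_mem hP)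
    have hRR := hS R (Finset.mem_insert_self _ _)
    rw [Finset.prod_insert hR, vv_mul Q (hRR.2.pow _).ne_zero (monic_prod S hS' v).ne_zero, ih hS',
      vv_pow, vv_irr hRR.1 hRR.2]
    by_cases h : Q = R
    · subst h
      simp [hR]
    · simp [h, Finset.mem_insert]

lemma prod_nf {f : K[X]} (hf : f.Monic) :
    (UniqueFactorizationMonoid.normalizedFactors f).prod = f := by
  rw [UniqueFactorizationMonoid.prod_normalizedFactors_eq hf.ne_zero, hf.normalize_eq_self]

lemma eq_of_vv {f g : K[X]} (hf : f.Monic) (hg : g.Monic) (h : ∀ P, vv P f = vv P g) : f = g := by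
  have : UniqueFactorizationMonoid.normalizedFactors f =
      UniqueFactorizationMonoid.normalizedFactors g := Multiset.ext.2 h
  rw [← prod_nf hf, this, prod_nf hg]

lemma dvd_iff_vv {f g : K[X]} (hf : f ≠ 0) (hg : g ≠ 0) : f ∣ g ↔ ∀ P, vv P f ≤ vv P g := by
  rw [UniqueFactorizationMonoid.dvd_iff_normalizedFactors_le_normalizedFactors hf hg,
    Multiset.le_iff_count]
  rfl

lemma sqf_iff_vv {f : K[X]} (hf : f ≠ 0) : Squarefree f ↔ ∀ P, vv P f ≤ 1 := by
  rw [UniqueFactorizationMonoid.squarefree_iff_nodup_normalizedFactors hf,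
    Multiset.nodup_iff_count_le_one]
  rfl

/-- from dependent to total functions -/
def tot (S : Finset K[X]) (v : (P : K[X]) → P ∈ S → ℕ) (P : K[X]) : ℕ :=
  if h : P ∈ S then v P h else 0

lemma tot_mem {S : Finset K[X]} (v : (P : K[X]) → P ∈ S → ℕ) {P : K[X]} (h : P ∈ S) :
    tot S v P = v P h := by
  unfold tot
  rw [dif_pos h]

end Fac

section Four

variable {K : Type} [Field K] [CharP K 2]

lemma two0 : (2 : K[X]) = 0 := CharTwo.two_eq_zero

lemma hd2_mul (f g : K[X]) : hasseDeriv 2 (f * g) =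
    f * hasseDeriv 2 g + derivative f * derivative g + hasseDeriv 2 f * g := by
  rw [hasseDeriv_mul]
  rw [show (Finset.HasAntidiagonal.antidiagonal 2 : Finset (ℕ × ℕ)) = {(0, 2), (1, 1), (2, 0)} from rfl]
  rw [Finset.sum_insert (by decide), Finset.sum_insert (by decide), Finset.sum_singleton]
  simp only [hasseDeriv_zero', hasseDeriv_one']
  ring

lemma hd2_sq (f : K[X]) : hasseDeriv 2 (f ^ 2) = derivative f ^ 2 := by
  rw [sq, hd2_mul]
  linear_combination (f * hasseDeriv 2 f) * (two0 (K := K))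

lemma der_sq (f : K[X]) : derivative (f ^ 2) = 0 := by
  rw [sq, derivative_mul]
  linear_combination (f * derivative f) * (two0 (K := K))

lemma der_four (f : K[X]) : derivative (f ^ 4) = 0 := by
  rw [show f ^ 4 = (f ^ 2) ^ 2 by ring]
  exact der_sq _

lemma hd2_four (f : K[X]) : hasseDeriv 2 (f ^ 4) = 0 := by
  rw [show f ^ 4 = (f ^ 2) ^ 2 by ring, hd2_sq, der_sq]
  ring

lemma hd2_four_mul (f g : K[X]) : hasseDeriv 2 (f ^ 4 * g) = f ^ 4 * hasseDeriv 2 g := by
  rw [hd2_mul, hd2_four, der_four]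
  ring

/-- the exponents of `N` with `hasseDeriv 2 N = 0` -/
lemma vv_mod_four [Fintype K] {N : K[X]} (hN0 : N ≠ 0) (hN : hasseDeriv 2 N = 0) (P : K[X]) :
    vv P N % 4 ≤ 1 := by
  by_contra hlt
  have h0 : vv P N ≠ 0 := by
    intro h
    rw [h] at hlt
    omega
  have hP : P ∈ pf N := by
    by_contra h
    exact h0 (vv_eq_zero.2 h)
  obtain ⟨hirr, hmon, -⟩ := (mem_pf hN0).1 hP
  have hdvd : P ^ vv P N ∣ N := by
    rw [dvd_iff_vv (hmon.pow _).ne_zero hN0]
    intro Q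
    rw [vv_pow, vv_irr hirr hmon]
    by_cases h : Q = P
    · subst h
      simp
    · simp [h]
  obtain ⟨M, hM⟩ := hdvd
  have hM0 : M ≠ 0 := by
    rintro rfl
    rw [mul_zero] at hM
    exact hN0 hM
  have hPM : ¬ P ∣ M := by
    intro h
    have h1 : vv P P ≤ vv P M := (dvd_iff_vv hmon.ne_zero hM0).1 h P
    rw [vv_irr hirr hmon, if_pos rfl] at h1
    have h2 := congrArg (vv P) hM
    rw [vv_mul P (hmon.pow _).ne_zero hM0, vv_pow, vv_irr hirr hmon, if_pos rfl] at h2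
    omega
  have hsep : ¬ P ∣ derivative P := by
    intro h
    have h1 : P.Separable := PerfectField.separable_of_irreducible hirr
    have h2 : IsUnit P := h1.isUnit_of_dvd' dvd_rfl h
    exact hirr.not_isUnit h2
  have hprime := hirr.prime
  -- `P ^ 2 * L` with `hasseDeriv 2 (P ^ 2 * L) = 0`
  have key : ∀ L : K[X], hasseDeriv 2 (P ^ 2 * L) = 0 → P ^ 2 ∣ derivative P ^ 2 * L := by
    intro L hL
    rw [hd2_mul, hd2_sq, der_sq] at hL
    refine ⟨-hasseDeriv 2 L, ?_⟩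
    linear_combination hL
  have key2 : ∀ L : K[X], P ∣ derivative P ^ 2 * L → P ∣ L := by
    intro L hL
    rcases hprime.dvd_or_dvd hL with h | h
    · exact absurd (hprime.dvd_of_dvd_pow h) hsep
    · exact h
  have hsplit : N = (P ^ (vv P N / 4)) ^ 4 * (P ^ (vv P N % 4) * M) := by
    conv_lhs => rw [hM]
    rw [← mul_assoc, ← pow_mul, ← pow_add]
    congr 2
    omega
  rw [hsplit, hd2_four_mul] at hN
  have h1 : hasseDeriv 2 (P ^ (vv P N % 4) * M) = 0 := by
    rcases mul_eq_zero.1 hN with h | h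
    · exact absurd h (pow_ne_zero _ (pow_ne_zero _ hirr.ne_zero))
    · exact h
  have h2 : vv P N % 4 = 2 ∨ vv P N % 4 = 3 := by omega
  rcases h2 with h2 | h2
  · rw [h2] at h1
    exact hPM (key2 M ((dvd_pow_self P two_ne_zero).trans (key M h1)))
  · rw [h2, show P ^ 3 * M = P ^ 2 * (P * M) by ring] at h1
    have h3 := key _ h1
    rw [sq, show derivative P ^ 2 * (P * M) = P * (derivative P ^ 2 * M) by ring] at h3
    have h4 := (mul_dvd_mul_iff_left hirr.ne_zero).1 h3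
    exact hPM (key2 M h4)

end Four

section Omp

variable {K : Type} [Field K] [Fintype K]

lemma prod_attach_tot {β : Type} [CommMonoid β] (S : Finset K[X]) (v : (P : K[X]) → P ∈ S → ℕ)
    (g : K[X] → ℕ → β) :
    ∏ x ∈ S.attach, g x.1 (v x.1 x.2) = ∏ P ∈ S, g P (tot S v P) := by
  rw [← Finset.prod_attach S (fun P => g P (tot S v P))]
  exact Finset.prod_congr rfl (fun x _ => by rw [tot_mem v x.2])

lemma sum_attach_tot {β : Type} [AddCommMonoid β] (S : Finset K[X])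
    (v : (P : K[X]) → P ∈ S → ℕ) (g : K[X] → ℕ → β) :
    ∑ x ∈ S.attach, g x.1 (v x.1 x.2) = ∑ P ∈ S, g P (tot S v P) := by
  rw [← Finset.sum_attach S (fun P => g P (tot S v P))]
  exact Finset.sum_congr rfl (fun x _ => by rw [tot_mem v x.2])

lemma kk_zero {P N : K[X]} (h : P ∉ pf N) : kk P N = 0 := by
  unfold kk
  rw [vv_eq_zero.2 h]

lemma om_k0 {p : ℝ} {e : ℕ → ℕ → ℝ} (he : Tab p e) (k : ℕ) : om e k 0 = 1 := by
  unfold om
  rw [Finset.sum_range_succ', Finset.sum_eq_zero, zero_add, he.e00]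
  intro i _
  exact he.e0 (i + 1) (by omega)

lemma om_0l {p : ℝ} {e : ℕ → ℕ → ℝ} (he : Tab p e) (l : ℕ) (hl : 1 ≤ l) : om e 0 l = 0 := by
  unfold om
  rw [zero_add, Finset.sum_range_one, he.el0 l hl]

lemma pf_deg {P f : K[X]} (h : P ∈ pf f) : 1 ≤ P.natDegree := by
  unfold pf at h
  rw [Multiset.mem_toFinset] at h
  exact (UniqueFactorizationMonoid.irreducible_of_normalized_factor P h).natDegree_pos

lemma deg_prod (S : Finset K[X]) (hS : ∀ P ∈ S, Irreducible P ∧ P.Monic) (v : K[X] → ℕ) :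
    (∏ P ∈ S, P ^ v P).natDegree = ∑ P ∈ S, v P * P.natDegree := by
  rw [natDegree_prod_of_monic _ _ fun P hP => (hS P hP).2.pow _]
  exact Finset.sum_congr rfl fun P hP => (hS P hP).2.natDegree_pow _

/-- a polynomial whose prime factors are in `S` -/
lemma prod_vv {D : K[X]} (hD : D.Monic) (S : Finset K[X]) (hS : ∀ P ∈ S, Irreducible P ∧ P.Monic)
    (hsub : ∀ P, P ∉ S → vv P D = 0) : ∏ P ∈ S, P ^ vv P D = D := by
  refine eq_of_vv (monic_prod S hS _) hD fun P => ?_
  rw [vv_prod S hS]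
  split_ifs with h
  · rfl
  · exact (hsub P h).symm

lemma OmP_coeff (T : ℕ → ℕ → ℕ → ℝ) (hT : Tabs K T) {N : K[X]} (hN : N ≠ 0) (j : ℕ) :
    (OmP T N).coeff j = ∑ D ∈ Mn K j, ∏ P ∈ pf D, om (T P.natDegree) (kk P N) (vv P D) := by
  have hS : ∀ P ∈ pf N, Irreducible P ∧ P.Monic := fun P hP =>
    ⟨((mem_pf hN).1 hP).1, ((mem_pf hN).1 hP).2.1⟩
  unfold OmP
  rw [Finset.prod_sum, finsetSum_coeff]
  have h1 : ∀ v ∈ (pf N).pi (fun P => Finset.range (nuk (kk P N) + 1)),
     (∏ x ∈ (pf N).attach, (C (om (T x.1.natDegree) (kk x.1 N) (v x.1 x.2)) *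
        X ^ (v x.1 x.2 * x.1.natDegree) : ℝ[X])).coeff j =
     if j = ∑ P ∈ pf N, tot (pf N) v P * P.natDegree then
      ∏ P ∈ pf N, om (T P.natDegree) (kk P N) (tot (pf N) v P) else 0 := by
    intro v _
    rw [Finset.prod_mul_distrib, Finset.prod_pow_eq_pow_sum, ← map_prod, coeff_C_mul_X_pow,
      prod_attach_tot (pf N) v (fun P l => om (T P.natDegree) (kk P N) l),
      sum_attach_tot (pf N) v (fun P l => l * P.natDegree)]
  rw [Finset.sum_congr rfl h1, ← Finset.sum_filter]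
  refine Finset.sum_of_injOn (fun v => ∏ P ∈ pf N, P ^ tot (pf N) v P) ?_ ?_ ?_ ?_
  · intro v _ v' _ hvv
    funext P hP
    have h2 := congrArg (vv P) hvv
    simp only [vv_prod (pf N) hS, if_pos hP] at h2
    rw [tot_mem v hP, tot_mem v' hP] at h2
    exact h2
  · intro v hv
    rw [Finset.mem_coe, Finset.mem_filter] at hv
    rw [Finset.mem_coe, mem_Mn]
    exact ⟨monic_prod _ hS _, (deg_prod _ hS _).trans hv.2.symm⟩
  · intro D hD hDn
    by_contra hne
    apply hDn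
    rw [mem_Mn] at hD
    rw [← Ne, Finset.prod_ne_zero_iff] at hne
    have hsub : ∀ P, P ∈ pf D → P ∈ pf N := by
      intro P hP
      by_contra hPN
      apply hne P hP
      rw [kk_zero hPN]
      exact om_0l (hT _ (pf_deg hP)) _ (vv_pos.2 hP)
    have hle : ∀ P, vv P D ≤ nuk (kk P N) := by
      intro P
      by_cases hP : P ∈ pf D
      · by_contra hlt
        exact hne P hP ((hT _ (pf_deg hP)).deg _ _ (not_le.1 hlt))
      · rw [vv_eq_zero.2 hP]
        exact Nat.zero_le _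
    have htot : ∀ P, P ∈ pf N → tot (pf N) (fun P _ => vv P D) P = vv P D := fun P hP =>
      tot_mem _ hP
    have hprod : ∏ P ∈ pf N, P ^ tot (pf N) (fun P _ => vv P D) P = D := by
      rw [Finset.prod_congr rfl (fun P hP => by rw [htot P hP])]
      exact prod_vv hD.1 (pf N) hS fun P hP => vv_eq_zero.2 fun h => hP (hsub P h)
    refine ⟨fun P _ => vv P D, ?_, hprod⟩
    rw [Finset.mem_coe, Finset.mem_filter, Finset.mem_pi]
    refine ⟨fun P _ => Finset.mem_range.2 (Nat.lt_succ_of_le (hle P)), ?_⟩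
    rw [← deg_prod _ hS, hprod]
    exact hD.2.symm
  · intro v _
    have h2 : ∀ P, vv P (∏ P ∈ pf N, P ^ tot (pf N) v P) = if P ∈ pf N then tot (pf N) v P else 0 :=
      vv_prod (pf N) hS _
    have hsub : pf (∏ P ∈ pf N, P ^ tot (pf N) v P) ⊆ pf N := by
      intro P hP
      by_contra h
      have h3 := h2 P
      rw [if_neg h, vv_eq_zero] at h3
      exact h3 hP
    rw [Finset.prod_subset hsub (f := fun P => om (T P.natDegree) (kk P N)
      (vv P (∏ P ∈ pf N, P ^ tot (pf N) v P)))]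
    · exact Finset.prod_congr rfl fun P hP => by rw [h2 P, if_pos hP]
    · intro P hP hP2
      show om (T P.natDegree) (kk P N) (vv P (∏ P ∈ pf N, P ^ tot (pf N) v P)) = 1
      rw [vv_eq_zero.2 hP2]
      exact om_k0 (hT _ (pf_deg hP)) _

/-! ### The pairs -/

/-- all the pairs -/
def AP (D : K[X]) (j : ℕ) : Finset (K[X] × K[X]) :=
  (Finset.range (j + 1) ×ˢ Finset.range (j + 1)).biUnion (fun p => prs K D p.1 p.2)

lemma mem_prs {D : K[X]} {d β : ℕ} {x : K[X] × K[X]} : x ∈ prs K D d β ↔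
    (x.1.Monic ∧ x.1.natDegree = d) ∧ (x.2.Monic ∧ x.2.natDegree = β) ∧ Squarefree x.1 ∧
      x.1 * x.2 ∣ D := by
  unfold prs
  rw [Finset.mem_filter, Finset.mem_product, mem_Mn, mem_Mn]
  tauto

lemma mem_AP {D : K[X]} (hD : D.Monic) {j : ℕ} (hj : D.natDegree = j) {x : K[X] × K[X]} :
    x ∈ AP D j ↔ x.1.Monic ∧ x.2.Monic ∧ Squarefree x.1 ∧ x.1 * x.2 ∣ D := by
  unfold AP
  rw [Finset.mem_biUnion]
  constructor
  · rintro ⟨p, -, hp⟩
    rw [mem_prs] at hp
    exact ⟨hp.1.1, hp.2.1.1, hp.2.2.1, hp.2.2.2⟩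
  · rintro ⟨h1, h2, h3, h4⟩
    have h5 := natDegree_le_of_dvd h4 hD.ne_zero
    rw [h1.natDegree_mul h2, hj] at h5
    refine ⟨(x.1.natDegree, x.2.natDegree), ?_, ?_⟩
    · rw [Finset.mem_product, Finset.mem_range, Finset.mem_range]
      constructor
      · show x.1.natDegree < j + 1
        omega
      · show x.2.natDegree < j + 1
        omega
    · rw [mem_prs]
      exact ⟨⟨h1, rfl⟩, ⟨h2, rfl⟩, h3, h4⟩

lemma sum_prs (D : K[X]) (j : ℕ) (f : K[X] × K[X] → ℝ) :
    ∑ d ∈ Finset.range (j + 1), ∑ β ∈ Finset.range (j + 1), ∑ x ∈ prs K D d β, f x =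
      ∑ x ∈ AP D j, f x := by
  unfold AP
  rw [Finset.sum_biUnion, Finset.sum_product]
  intro a _ b _ hab
  show Disjoint (prs K D a.1 a.2) (prs K D b.1 b.2)
  rw [Finset.disjoint_left]
  intro x hx hx'
  rw [mem_prs] at hx hx'
  apply hab
  exact Prod.ext (hx.1.2.symm.trans hx'.1.2) (hx.2.1.2.symm.trans hx'.2.1.2)

lemma vv_sqf {P f : K[X]} (hP : Irreducible P ∧ P.Monic) (hf : f ≠ 0) (hsq : Squarefree f) :
    vv P f = if P ∣ f then 1 else 0 := by
  have h1 := (sqf_iff_vv hf).1 hsq P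
  split_ifs with h
  · have h2 : P ∈ pf f := (mem_pf hf).2 ⟨hP.1, hP.2, h⟩
    have := vv_pos.2 h2
    omega
  · exact vv_eq_zero.2 fun h2 => h ((mem_pf hf).1 h2).2.2

lemma prod_om (T : ℕ → ℕ → ℕ → ℝ) (hT : Tabs K T) {N : K[X]} (hN : N ≠ 0)
    (h4 : ∀ P, vv P N % 4 ≤ 1) {D : K[X]} (hD : D.Monic) {j : ℕ} (hj : D.natDegree = j) :
    ∏ P ∈ pf D, om (T P.natDegree) (kk P N) (vv P D) =
      ∑ d ∈ Finset.range (j + 1), ∑ β ∈ Finset.range (j + 1), ∑ x ∈ prs K D d β,
        if x.2 ^ 4 * x.1 ∣ N then HH T D x.1 x.2 else 0 := by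
  have hS : ∀ P ∈ pf D, Irreducible P ∧ P.Monic := fun P hP =>
    ⟨((mem_pf hD.ne_zero).1 hP).1, ((mem_pf hD.ne_zero).1 hP).2.1⟩
  rw [sum_prs D j (fun x => if x.2 ^ 4 * x.1 ∣ N then HH T D x.1 x.2 else 0), ← Finset.sum_filter]
  unfold om
  rw [Finset.prod_sum]
  symm
  -- the data of a pair
  have hdat : ∀ x ∈ (AP D j).filter (fun x => x.2 ^ 4 * x.1 ∣ N),
      x.1.Monic ∧ x.2.Monic ∧ Squarefree x.1 ∧ (∀ P, vv P x.1 + vv P x.2 ≤ vv P D) ∧
      (∀ P, 4 * vv P x.2 + vv P x.1 ≤ vv P N) := by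
    intro x hx
    rw [Finset.mem_filter, mem_AP hD hj] at hx
    obtain ⟨⟨h1, h2, h3, h5⟩, h6⟩ := hx
    refine ⟨h1, h2, h3, fun P => ?_, fun P => ?_⟩
    · have := (dvd_iff_vv (h1.mul h2).ne_zero hD.ne_zero).1 h5 P
      rwa [vv_mul P h1.ne_zero h2.ne_zero] at this
    · have := (dvd_iff_vv ((h2.pow 4).mul h1).ne_zero hN).1 h6 P
      rwa [vv_mul P (h2.pow 4).ne_zero h1.ne_zero, vv_pow] at this
  refine Finset.sum_of_injOn
    (fun x P _ => 2 * vv P x.2 + if P ∣ x.1 then 1 else 0) ?_ ?_ ?_ ?_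
  · intro x hx y hy hxy
    obtain ⟨a1, a2, a3, a4, -⟩ := hdat x hx
    obtain ⟨b1, b2, b3, b4, -⟩ := hdat y hy
    have hkey : ∀ P, vv P x.1 = vv P y.1 ∧ vv P x.2 = vv P y.2 := by
      intro P
      by_cases hP : P ∈ pf D
      · have h1 : 2 * vv P x.2 + (if P ∣ x.1 then 1 else 0) =
            2 * vv P y.2 + (if P ∣ y.1 then 1 else 0) := congrFun (congrFun hxy P) hP
        rw [← vv_sqf (hS P hP) a1.ne_zero a3, ← vv_sqf (hS P hP) b1.ne_zero b3] at h1
        have h2 := (sqf_iff_vv a1.ne_zero).1 a3 P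
        have h3 := (sqf_iff_vv b1.ne_zero).1 b3 P
        omega
      · have h0 := vv_eq_zero.2 hP
        have h1 := a4 P
        have h2 := b4 P
        omega
    exact Prod.ext (eq_of_vv a1 b1 fun P => (hkey P).1) (eq_of_vv a2 b2 fun P => (hkey P).2)
  · intro x hx
    obtain ⟨a1, a2, a3, a4, a5⟩ := hdat x hx
    rw [Finset.mem_coe, Finset.mem_pi]
    intro P hP
    rw [Finset.mem_range]
    show 2 * vv P x.2 + (if P ∣ x.1 then 1 else 0) < kk P N + 1
    rw [← vv_sqf (hS P hP) a1.ne_zero a3]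
    have h1 := a5 P
    have h2 := h4 P
    have h3 := (sqf_iff_vv a1.ne_zero).1 a3 P
    unfold kk
    omega
  · intro k hk hkn
    by_contra hne
    apply hkn
    rw [← Ne, Finset.prod_ne_zero_iff] at hne
    rw [Finset.mem_pi] at hk
    have hk1 : ∀ P (hP : P ∈ pf D), k P hP ≤ 2 * vv P D := by
      intro P hP
      by_contra hlt
      exact hne ⟨P, hP⟩ (Finset.mem_attach _ _) ((hT _ (pf_deg hP)).big _ _ (not_le.1 hlt))
    have hk2 : ∀ P (hP : P ∈ pf D), k P hP ≤ kk P N := fun P hP =>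
      Nat.le_of_lt_succ (Finset.mem_range.1 (hk P hP))
    set D₀ : K[X] := ∏ P ∈ pf D, P ^ (tot (pf D) k P % 2) with hD₀
    set B : K[X] := ∏ P ∈ pf D, P ^ (tot (pf D) k P / 2) with hB
    have m1 : D₀.Monic := monic_prod _ hS _
    have m2 : B.Monic := monic_prod _ hS _
    have v1 : ∀ P, vv P D₀ = if P ∈ pf D then tot (pf D) k P % 2 else 0 := vv_prod _ hS _
    have v2 : ∀ P, vv P B = if P ∈ pf D then tot (pf D) k P / 2 else 0 := vv_prod _ hS _
    have hsq : Squarefree D₀ := by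
      rw [sqf_iff_vv m1.ne_zero]
      intro P
      rw [v1 P]
      split_ifs <;> omega
    have hdvd : D₀ * B ∣ D := by
      rw [dvd_iff_vv (m1.mul m2).ne_zero hD.ne_zero]
      intro P
      rw [vv_mul P m1.ne_zero m2.ne_zero, v1 P, v2 P]
      split_ifs with hP
      · have h1 := hk1 P hP
        rw [← tot_mem k hP] at h1
        omega
      · omega
    have hdvd2 : B ^ 4 * D₀ ∣ N := by
      rw [dvd_iff_vv ((m2.pow 4).mul m1).ne_zero hN]
      intro P
      rw [vv_mul P (m2.pow 4).ne_zero m1.ne_zero, vv_pow, v1 P, v2 P]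
      split_ifs with hP
      · have h1 := hk2 P hP
        rw [← tot_mem k hP] at h1
        have h2 := h4 P
        unfold kk at h1
        omega
      · omega
    refine ⟨(D₀, B), ?_, ?_⟩
    · rw [Finset.mem_coe, Finset.mem_filter, mem_AP hD hj]
      exact ⟨⟨m1, m2, hsq, hdvd⟩, hdvd2⟩
    · funext P hP
      show 2 * vv P B + (if P ∣ D₀ then 1 else 0) = k P hP
      rw [← vv_sqf (hS P hP) m1.ne_zero hsq, v1 P, v2 P, if_pos hP, if_pos hP, tot_mem k hP]
      omega
  · intro x _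
    unfold HH
    exact (Finset.prod_attach (pf D) (fun P => T P.natDegree (vv P D)
      (2 * vv P x.2 + if P ∣ x.1 then 1 else 0))).symm

end Omp

section Cnt

variable {K : Type} [Field K] [Fintype K] [CharP K 2]

lemma cnt {B D₀ : K[X]} (hB : B.Monic) (hD₀ : D₀.Monic) (n : ℕ) :
    ((WB K n).filter (fun N => B ^ 4 * D₀ ∣ N)).card =
      if 4 * B.natDegree ≤ n then
        ((WB K (n - 4 * B.natDegree)).filter (fun N => D₀ ∣ N)).card else 0 := by
  have hB4 : (B ^ 4).Monic := hB.pow 4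
  have hdeg4 : (B ^ 4).natDegree = 4 * B.natDegree := hB.natDegree_pow 4
  split_ifs with h
  · symm
    refine Finset.card_bij (fun f _ => B ^ 4 * f) ?_ ?_ ?_
    · intro f hf
      unfold WB at hf ⊢
      rw [Finset.mem_filter, Finset.mem_filter, mem_Mn] at hf ⊢
      obtain ⟨⟨⟨h1, h2⟩, h3⟩, h5⟩ := hf
      refine ⟨⟨⟨hB4.mul h1, ?_⟩, ?_⟩, mul_dvd_mul_left _ h5⟩
      · rw [hB4.natDegree_mul h1, hdeg4, h2]
        omega
      · rw [hd2_four_mul, h3, mul_zero]
    · intro f _ f' _ hff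
      exact mul_left_cancel₀ hB4.ne_zero hff
    · intro N hN
      unfold WB at hN
      rw [Finset.mem_filter, Finset.mem_filter, mem_Mn] at hN
      obtain ⟨⟨⟨h1, h2⟩, h3⟩, h5⟩ := hN
      obtain ⟨f, hf⟩ := h5
      have e1 : N = B ^ 4 * (D₀ * f) := by rw [hf]; ring
      have m1 : (D₀ * f).Monic := by
        rw [e1] at h1
        exact hB4.of_mul_monic_left h1
      refine ⟨D₀ * f, ?_, e1.symm⟩
      unfold WB
      rw [Finset.mem_filter, Finset.mem_filter, mem_Mn]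
      refine ⟨⟨⟨m1, ?_⟩, ?_⟩, dvd_mul_right _ _⟩
      · rw [e1, hB4.natDegree_mul m1, hdeg4] at h2
        omega
      · rw [e1, hd2_four_mul] at h3
        rcases mul_eq_zero.1 h3 with h6 | h6
        · exact absurd h6 hB4.ne_zero
        · exact h6
  · rw [Finset.card_eq_zero, Finset.filter_eq_empty_iff]
    intro N hN hdvd
    unfold WB at hN
    rw [Finset.mem_filter, mem_Mn] at hN
    have h1 := natDegree_le_of_dvd hdvd hN.1.1.ne_zero
    rw [hB4.natDegree_mul hD₀, hdeg4, hN.1.2] at h1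
    omega

end Cnt

end Exp

open Exp in
theorem exp_ : S_exp := by
  intro K _ _ _ T hT n j
  have h1 : ∀ N ∈ WB K n, (OmP T N).coeff j = ∑ D ∈ Mn K j, ∑ d ∈ Finset.range (j + 1),
      ∑ β ∈ Finset.range (j + 1), ∑ x ∈ prs K D d β,
        if x.2 ^ 4 * x.1 ∣ N then HH T D x.1 x.2 else 0 := by
    intro N hN
    unfold WB at hN
    rw [Finset.mem_filter, mem_Mn] at hN
    rw [OmP_coeff T hT hN.1.1.ne_zero j]
    refine Finset.sum_congr rfl fun D hD => ?_
    rw [mem_Mn] at hD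
    exact prod_om T hT hN.1.1.ne_zero (vv_mod_four hN.1.1.ne_zero hN.2) hD.1 hD.2
  unfold SS
  rw [Finset.sum_congr rfl h1, Finset.sum_comm]
  refine Finset.sum_congr rfl fun D _ => ?_
  rw [Finset.sum_comm]
  refine Finset.sum_congr rfl fun d _ => ?_
  rw [Finset.sum_comm]
  refine Finset.sum_congr rfl fun β _ => ?_
  rw [Finset.sum_comm]
  refine Finset.sum_congr rfl fun x hx => ?_
  rw [mem_prs] at hx
  rw [← Finset.sum_filter, Finset.sum_const, nsmul_eq_mul, mul_comm, cnt hx.2.1.1 hx.1.1 n,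
    hx.2.1.2]
  congr 1
  split_ifs with h
  · rfl
  · exact Nat.cast_zero

end

end Pool.Agent.H6.C
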