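import Mathlib
import Pool.Agent.H6.W.Stm

/-!
# Wilson primes of `F_q[t]`, `q` a power of four (helper6): statements of the parts

`K` is a finite field of characteristic two.  A monic irreducible polynomial `P` of degree `n` is a
Wilson prime (`P ^ 2` divides `1 + ∏ a`, `a ≠ 0` of degree `< n`) iff `hasseDeriv 2 P = 0`, that is
`P = F ^ 4 + X G ^ 4`.  We count the primes in the set `WB K n` of the monic `N` of degree `n` with
`hasseDeriv 2 N = 0`.  If `q` is a power of four the Moebius function of the squarefree members is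
`(-1) ^ n`.  The double series `∑ N, ∑ D, H(D, N)` with suitable local weights has two exact
functional equations.
-/

set_option autoImplicit false

namespace Pool.Agent.H6.C

open Polynomial
open scoped Classical
open Pool.Agent.H985.Chow (mob)
open Pool.Agent.H694.Typ (Mn PU Irn)
open Pool.Agent.H6.W (Wn)
open Pool.Agent.H290.CT (V)

noncomputable section

/-- The monic `N` of degree `n` with `hasseDeriv 2 N = 0` (exponents `0, 1` modulo four). -/
def WB (K : Type) [Field K] [Fintype K] (n : ℕ) : Finset K[X] :=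
  (Mn K n).filter (fun N => hasseDeriv 2 N = 0)

/-- The theorem. -/
def S_main : Prop :=
  ∀ (K : Type) [Field K] [Fintype K] [CharP K 2], IsSquare (Fintype.card K) →
    (∃ θ : ℝ, 0 < θ ∧ ∃ C : ℝ, ∀ m : ℕ,
      |((4 * m + 1 : ℕ) : ℝ) * (Wn K (4 * m + 1) : ℝ) - 2 * (Fintype.card K : ℝ) ^ (2 * m + 1)| ≤
        C * (Fintype.card K : ℝ) ^ ((1 - θ) * (2 * m + 1))) ∧
    (∀ n : ℕ, n % 4 ≠ 1 → Wn K n = 0)

/-- **WIL.**  The criterion in characteristic two. -/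
def S_wil : Prop :=
  ∀ (K : Type) [Field K] [Fintype K] [CharP K 2] (n : ℕ) (P : K[X]), P.Monic →
    P.natDegree = n → Irreducible P →
    (P ^ 2 ∣ 1 + ∏ a ∈ (V K n).filter (fun a => a ≠ 0), a ↔ hasseDeriv 2 P = 0)

/-- **PAR.**  The parity law. -/
def S_par : Prop :=
  ∀ (K : Type) [Field K] [Fintype K] [CharP K 2], IsSquare (Fintype.card K) →
    ∀ (n : ℕ) (N : K[X]), N ∈ WB K n → Squarefree N → mob N = (-1) ^ n

/-! ### The local weights -/

/-- The coefficient of `y ^ l` of the weight polynomial of the state `k`. -/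
def om (e : ℕ → ℕ → ℝ) (k l : ℕ) : ℝ := ∑ i ∈ Finset.range (k + 1), e l i

/-- The valuation of `N` in the state `k`: `0, 1, 4, 5, 8, 9, ...`. -/
def nuk (k : ℕ) : ℕ := 4 * (k / 2) + k % 2

/-- The local weights for a prime with `p` residues. -/
structure Tab (p : ℝ) (e : ℕ → ℕ → ℝ) : Prop where
  e00 : e 0 0 = 1
  e0 : ∀ k, 1 ≤ k → e 0 k = 0
  el0 : ∀ l, 1 ≤ l → e l 0 = 0
  e11 : e 1 1 = -1
  el1 : ∀ l, 2 ≤ l → e l 1 = 0
  e22 : e 2 2 = 0
  big : ∀ l k, 2 * l < k → e l k = 0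
  dual : ∀ l k, k ≤ 2 * l → e l k = p ^ ((k : ℤ) - l) * e l (2 * l - k)
  deg : ∀ k l, nuk k < l → om e k l = 0
  pal : ∀ k l, l ≤ nuk k → om e k (nuk k - l) = (-1) ^ k * om e k l
  one : ∀ k, 1 ≤ k → ∑ l ∈ Finset.range (nuk k + 1), om e k l = 0
  bd : ∀ k l, |om e k l| ≤ Real.sqrt (7 / 2 * p) ^ l

/-- **LOC.**  The local weights exist. -/
def S_loc : Prop := ∀ p : ℝ, 4 ≤ p → ∃ e : ℕ → ℕ → ℝ, Tab p e

/-- **LSUM.** -/
def S_lsum : Prop := ∀ (p : ℝ) (e : ℕ → ℕ → ℝ), 4 ≤ p → Tab p e →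
  HasSum (fun l : ℕ => om e (2 * l) l * p ^ (-(l : ℤ))) (1 - 1 / p)

/-- Tables for all degrees. -/
def Tabs (K : Type) [Field K] [Fintype K] (T : ℕ → ℕ → ℕ → ℝ) : Prop :=
  ∀ d : ℕ, 1 ≤ d → Tab ((Fintype.card K : ℝ) ^ d) (T d)

/-! ### The lattices -/

/-- The number of the multiples of `D` in `WB K (4 m)`. -/
def a0 {K : Type} [Field K] [Fintype K] (D : K[X]) (m : ℤ) : ℝ :=
  if m < 0 then 0 else (((WB K (4 * m.toNat)).filter (fun N => D ∣ N)).card : ℝ)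

/-- The number of the multiples of `D` in `WB K (4 m + 1)`. -/
def a1 {K : Type} [Field K] [Fintype K] (D : K[X]) (m : ℤ) : ℝ :=
  if m < 0 then 0 else (((WB K (4 * m.toNat + 1)).filter (fun N => D ∣ N)).card : ℝ)

/-- **LAT2.** -/
def S_lat2 : Prop :=
  ∀ (K : Type) [Field K] [Fintype K] [CharP K 2] (D : K[X]), D.Monic → Squarefree D →
    ∃ a b : ℕ, a + b = D.natDegree ∧ ∀ m : ℕ,
      ((WB K (4 * m)).filter (fun N => D ∣ N)).card =
        (if a ≤ m then Fintype.card K ^ ((m - a) + (m - b)) else 0) ∧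
      ((WB K (4 * m + 1)).filter (fun N => D ∣ N)).card =
        (if b ≤ m then Fintype.card K ^ ((m - b) + (m + 1 - a)) else 0)

/-- `(q - 1) (f 0 + ... + f m)`. -/
def TT (q : ℝ) (f : ℤ → ℝ) (m : ℤ) : ℝ := (q - 1) * ∑ i ∈ Finset.range (m + 1).toNat, f (i : ℤ)

/-- `(q - 1) (f 0 + ... + f m) - q f m`. -/
def UU (q : ℝ) (f : ℤ → ℝ) (m : ℤ) : ℝ := TT q f m - q * f m

/-- **FEL.**  The functional equation of the lattices. -/
def S_fel : Prop :=
  ∀ (K : Type) [Field K] [Fintype K] [CharP K 2] (D : K[X]), D.Monic → Squarefree D →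
    ∀ m : ℤ,
      a0 D m = (Fintype.card K : ℝ) ^ (2 * m - D.natDegree) *
        (1 + TT (Fintype.card K) (a0 D) (D.natDegree - m - 1) +
          UU (Fintype.card K) (a1 D) (D.natDegree - m - 1)) ∧
      a1 D m = (Fintype.card K : ℝ) ^ (2 * m + 1 - D.natDegree) *
        (1 + TT (Fintype.card K) (a1 D) (D.natDegree - m - 2) +
          UU (Fintype.card K) (a0 D) (D.natDegree - m - 1))

/-! ### The double series -/

/-- The monic irreducible factors. -/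
def pf {K : Type} [Field K] (f : K[X]) : Finset K[X] :=
  (UniqueFactorizationMonoid.normalizedFactors f).toFinset

/-- The exponent of `P` in `f`. -/
def vv {K : Type} [Field K] (P f : K[X]) : ℕ :=
  (UniqueFactorizationMonoid.normalizedFactors f).count P

/-- The state of `P` in `N`. -/
def kk {K : Type} [Field K] (P N : K[X]) : ℕ := 2 * (vv P N / 4) + vv P N % 4

/-- The weight polynomial of `N`. -/
def OmP {K : Type} [Field K] (T : ℕ → ℕ → ℕ → ℝ) (N : K[X]) : ℝ[X] :=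
  ∏ P ∈ pf N, ∑ l ∈ Finset.range (nuk (kk P N) + 1),
    C (om (T P.natDegree) (kk P N) l) * X ^ (l * P.natDegree)

/-- The coefficients of the double series. -/
def SS (K : Type) [Field K] [Fintype K] (T : ℕ → ℕ → ℕ → ℝ) (n j : ℕ) : ℝ :=
  ∑ N ∈ WB K n, (OmP T N).coeff j

/-- `SS` for the degrees `4 m`. -/
def S0 (K : Type) [Field K] [Fintype K] (T : ℕ → ℕ → ℕ → ℝ) (j : ℕ) (m : ℤ) : ℝ :=
  if m < 0 then 0 else SS K T (4 * m.toNat) j

/-- `SS` for the degrees `4 m + 1`. -/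
def S1 (K : Type) [Field K] [Fintype K] (T : ℕ → ℕ → ℕ → ℝ) (j : ℕ) (m : ℤ) : ℝ :=
  if m < 0 then 0 else SS K T (4 * m.toNat + 1) j

/-- The main term. -/
def cc (K : Type) [Field K] [Fintype K] (T : ℕ → ℕ → ℕ → ℝ) (j : ℕ) : ℝ :=
  ∑ D ∈ Mn K j, ∏ P ∈ pf D, om (T P.natDegree) (2 * vv P D) (vv P D)

/-- The weight of the lattice `(D₀, B)`. -/
def HH {K : Type} [Field K] (T : ℕ → ℕ → ℕ → ℝ) (D D₀ B : K[X]) : ℝ :=
  ∏ P ∈ pf D, T P.natDegree (vv P D) (2 * vv P B + if P ∣ D₀ then 1 else 0)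

/-- The pairs of the monic `D₀`, `B` with `D₀` squarefree and `D₀ B ∣ D`, `deg D₀ = d`,
`deg B = β`. -/
def prs (K : Type) [Field K] [Fintype K] (D : K[X]) (d β : ℕ) : Finset (K[X] × K[X]) :=
  ((Mn K d) ×ˢ (Mn K β)).filter (fun x => Squarefree x.1 ∧ x.1 * x.2 ∣ D)

/-- **EXP.**  The expansion into lattices. -/
def S_exp : Prop :=
  ∀ (K : Type) [Field K] [Fintype K] [CharP K 2] (T : ℕ → ℕ → ℕ → ℝ), Tabs K T →
    ∀ n j : ℕ, SS K T n j = ∑ D ∈ Mn K j, ∑ d ∈ Finset.range (j + 1), ∑ β ∈ Finset.range (j + 1),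
      ∑ x ∈ prs K D d β, HH T D x.1 x.2 *
        (if 4 * β ≤ n then (((WB K (n - 4 * β)).filter (fun N => x.1 ∣ N)).card : ℝ) else 0)

/-- **FE2.**  The functional equation from the lattices. -/
def S_fe2 : Prop :=
  ∀ (K : Type) [Field K] [Fintype K] [CharP K 2] (T : ℕ → ℕ → ℕ → ℝ), Tabs K T →
    ∀ (j : ℕ) (m : ℤ), 0 ≤ m →
      S0 K T j m = (Fintype.card K : ℝ) ^ (2 * m - j) *
        (cc K T j + TT (Fintype.card K) (S0 K T j) (j - m - 1) +
          UU (Fintype.card K) (S1 K T j) (j - m - 1)) ∧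
      S1 K T j m = (Fintype.card K : ℝ) ^ (2 * m + 1 - j) *
        (cc K T j + TT (Fintype.card K) (S1 K T j) (j - m - 2) +
          UU (Fintype.card K) (S0 K T j) (j - m - 1))

/-- **FE1.**  The functional equation from the complementary divisors. -/
def S_fe1 : Prop :=
  ∀ (K : Type) [Field K] [Fintype K] [CharP K 2] (T : ℕ → ℕ → ℕ → ℝ),
    IsSquare (Fintype.card K) → Tabs K T →
    ∀ n j : ℕ, (j ≤ n → SS K T n j = (-1) ^ n * SS K T n (n - j)) ∧ (n < j → SS K T n j = 0)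

/-- **RHO.**  The main term. -/
def S_rho : Prop :=
  ∀ (K : Type) [Field K] [Fintype K] (T : ℕ → ℕ → ℕ → ℝ), 4 ≤ Fintype.card K → Tabs K T →
    ∃ θ : ℝ, 0 < θ ∧ ∃ C : ℝ, ∃ g : ℕ → ℝ,
      (∀ j : ℕ, |g j| ≤ C * (Fintype.card K : ℝ) ^ (-(θ * j))) ∧ HasSum g 1 ∧
      ∀ j : ℕ, cc K T j = (Fintype.card K : ℝ) ^ j * (g j - if j = 0 then 0 else g (j - 1))

/-- **BND.**  The bound, from the two functional equations. -/
def S_bnd : Prop :=
  ∀ (K : Type) [Field K] [Fintype K] [CharP K 2] (T : ℕ → ℕ → ℕ → ℝ),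
    IsSquare (Fintype.card K) → Tabs K T →
    ∃ θ : ℝ, 0 < θ ∧ ∃ C : ℝ, ∀ m j : ℕ, j ≤ 2 * m →
      |SS K T (4 * m + 1) j - (Fintype.card K : ℝ) ^ ((2 * m + 1 : ℝ) - j) * cc K T j| ≤
        C * (Fintype.card K : ℝ) ^ ((2 * m + 1 : ℝ) - 2 * θ * m - (2 * m - j) / 2)

/-- **DET.**  The detection of the primes. -/
def S_det : Prop :=
  ∀ (K : Type) [Field K] [Fintype K] [CharP K 2] (T : ℕ → ℕ → ℕ → ℝ), 4 ≤ Fintype.card K →
    Tabs K T →
    ∃ θ : ℝ, 0 < θ ∧ ∃ C : ℝ, ∀ m : ℕ,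
      |(∑ j ∈ Finset.range (4 * m + 2), -((j : ℝ) * SS K T (4 * m + 1) j)) -
        ((4 * m + 1 : ℕ) : ℝ) * (((WB K (4 * m + 1)).filter (fun N => Irreducible N)).card : ℝ)| ≤
        C * (Fintype.card K : ℝ) ^ ((1 - θ) * (2 * m + 1))

/-- **FIN.**  The assembly. -/
def S_fin : Prop :=
  S_wil → S_par → S_loc → S_rho → S_fe1 → S_bnd → S_det → S_main

end

end Pool.Agent.H6.C
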