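import Mathlib
import Pool.Agent.H6.C.Stm

/-!
# WILSON-2, part FE1 (helper280 for helper6): the functional equation from the complementary divisors
-/

set_option autoImplicit false

namespace Pool.Agent.H6.C

open Polynomial
open scoped Classical
open Pool.Agent.H985.Chow (mob)
open Pool.Agent.H694.Typ (Mn mem_Mn)

namespace Fe1

/-! ### Hasse derivatives in characteristic two -/

section hasse

variable {K : Type} [Field K]

theorem hd2_mul (f g : K[X]) : hasseDeriv 2 (f * g) =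
    f * hasseDeriv 2 g + derivative f * derivative g + hasseDeriv 2 f * g := by
  rw [hasseDeriv_mul]
  have h : Finset.HasAntidiagonal.antidiagonal (2 : ℕ) = {((0 : ℕ), (2 : ℕ)), (1, 1), (2, 0)} := by
    decide
  rw [h, Finset.sum_insert (by decide), Finset.sum_insert (by decide), Finset.sum_singleton,
    hasseDeriv_zero', hasseDeriv_zero', hasseDeriv_one', hasseDeriv_one']
  ring

variable [CharP K 2]

theorem two_zero : (2 : K[X]) = 0 := by
  have h : ((2 : ℕ) : K[X]) = 0 := CharP.cast_eq_zero K[X] 2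
  exact_mod_cast h

theorem d_sq (A : K[X]) : derivative (A ^ 2) = 0 := by
  rw [derivative_pow]
  have : (C ((2 : ℕ) : K) : K[X]) = 0 := by
    rw [CharP.cast_eq_zero K 2, C_0]
  rw [this]
  ring

theorem hd2_sq (A : K[X]) : hasseDeriv 2 (A ^ 2) = derivative A ^ 2 := by
  rw [pow_two, hd2_mul]
  have := two_zero (K := K)
  linear_combination (A * hasseDeriv 2 A) * this

theorem d_four (A : K[X]) : derivative (A ^ 4) = 0 := by
  have : A ^ 4 = (A ^ 2) ^ 2 := by ring
  rw [this, d_sq]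

theorem hd2_four (A : K[X]) : hasseDeriv 2 (A ^ 4) = 0 := by
  have : A ^ 4 = (A ^ 2) ^ 2 := by ring
  rw [this, hd2_sq, d_sq]
  ring

theorem hd2_four_mul (A M : K[X]) : hasseDeriv 2 (A ^ 4 * M) = A ^ 4 * hasseDeriv 2 M := by
  rw [hd2_mul, d_four, hd2_four]
  ring

theorem hd2_cancel {A M : K[X]} (hA : A ≠ 0) (h : hasseDeriv 2 (A ^ 4 * M) = 0) :
    hasseDeriv 2 M = 0 := by
  rw [hd2_four_mul] at h
  exact (mul_eq_zero.mp h).resolve_left (pow_ne_zero 4 hA)

omit [CharP K 2] in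
theorem not_dvd_deriv [Finite K] {P : K[X]} (hP : Irreducible P) : ¬ P ∣ derivative P := by
  intro h
  have h1 : P.Separable := PerfectField.separable_of_irreducible hP
  exact hP.not_isUnit (IsCoprime.isUnit_of_dvd h1 h)

theorem hd2_two [Finite K] {P M : K[X]} (hP : Irreducible P) (hM : ¬ P ∣ M) :
    hasseDeriv 2 (P ^ 2 * M) ≠ 0 := by
  intro h
  rw [hd2_mul, d_sq, hd2_sq] at h
  have h1 : P ∣ derivative P ^ 2 * M := by
    refine ⟨-(P * hasseDeriv 2 M), ?_⟩
    linear_combination h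
  rcases hP.prime.dvd_or_dvd h1 with h2 | h2
  · exact not_dvd_deriv hP (hP.prime.dvd_of_dvd_pow h2)
  · exact hM h2

theorem hd2_three [Finite K] {P M : K[X]} (hP : Irreducible P) (hM : ¬ P ∣ M) :
    hasseDeriv 2 (P ^ 3 * M) ≠ 0 := by
  intro h
  have e : P ^ 3 * M = P ^ 2 * (P * M) := by ring
  rw [e, hd2_mul, d_sq, hd2_sq] at h
  have h1 : P ∣ derivative P ^ 2 * M := by
    refine ⟨-(hasseDeriv 2 (P * M)), ?_⟩
    apply mul_left_cancel₀ hP.ne_zero
    linear_combination h
  rcases hP.prime.dvd_or_dvd h1 with h2 | h2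
  · exact not_dvd_deriv hP (hP.prime.dvd_of_dvd_pow h2)
  · exact hM h2

/-- the exponents are `0` or `1` modulo four -/
theorem exp_mod [Finite K] {P M : K[X]} (hP : Irreducible P) (hM : ¬ P ∣ M) (v : ℕ)
    (h : hasseDeriv 2 (P ^ v * M) = 0) : v % 4 ≤ 1 := by
  have e : P ^ v * M = (P ^ (v / 4)) ^ 4 * (P ^ (v % 4) * M) := by
    rw [← pow_mul, ← mul_assoc, ← pow_add]
    congr 2
    omega
  rw [e] at h
  have h1 := hd2_cancel (pow_ne_zero _ hP.ne_zero) h
  have h4 : v % 4 < 4 := Nat.mod_lt _ (by norm_num)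
  by_contra h2
  have h3 : v % 4 = 2 ∨ v % 4 = 3 := by omega
  rcases h3 with h3 | h3
  · rw [h3] at h1
    exact hd2_two hP hM h1
  · rw [h3] at h1
    exact hd2_three hP hM h1

end hasse

/-! ### Factorisation -/

section fact

variable {K : Type} [Field K]

theorem pf_spec {N P : K[X]} (h : P ∈ pf N) : P.Monic ∧ Irreducible P := by
  unfold pf at h
  rw [Multiset.mem_toFinset] at h
  have h1 := UniqueFactorizationMonoid.irreducible_of_normalized_factor P h
  refine ⟨?_, h1⟩
  rw [← UniqueFactorizationMonoid.normalize_normalized_factor P h]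
  exact monic_normalize h1.ne_zero

theorem prod_pf {N : K[X]} (hN : N.Monic) : ∏ P ∈ pf N, P ^ vv P N = N := by
  have h1 := UniqueFactorizationMonoid.prod_normalizedFactors_eq hN.ne_zero
  rw [hN.normalize_eq_self, Finset.prod_multiset_count] at h1
  exact h1

theorem dvd_irr {P Q : K[X]} (hP : P.Monic ∧ Irreducible P) (hQ : Q.Monic ∧ Irreducible Q)
    (h : P ∣ Q) : P = Q := by
  have h1 : Associated P Q := hP.2.associated_of_dvd hQ.2 h
  exact eq_of_monic_of_associated hP.1 hQ.1 h1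

theorem cop_irr {P Q : K[X]} (hP : P.Monic ∧ Irreducible P) (hQ : Q.Monic ∧ Irreducible Q)
    (h : P ≠ Q) : IsCoprime P Q := by
  rw [hP.2.coprime_iff_not_dvd]
  exact fun h' => h (dvd_irr hP hQ h')

theorem mob_mul_cop {F G : K[X]} (h : IsCoprime F G) (hF : Squarefree F) (hG : Squarefree G) :
    Squarefree (F * G) ∧ mob (F * G) = mob F * mob G := by
  have hFG : Squarefree (F * G) := squarefree_mul_iff.2 ⟨h.isRelPrime, hF, hG⟩
  refine ⟨hFG, ?_⟩
  unfold mob
  rw [if_pos hF, if_pos hG, if_pos hFG, ← pow_add]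
  congr 1
  rw [Multiset.card_eq_card_of_rel (UniqueFactorizationMonoid.factors_mul hF.ne_zero hG.ne_zero),
    Multiset.card_add]

theorem prod_irr (S : Finset K[X]) (hS : ∀ P ∈ S, P.Monic ∧ Irreducible P) :
    Squarefree (∏ P ∈ S, P) ∧ mob (∏ P ∈ S, P) = (-1) ^ S.card := by
  induction S using Finset.induction_on with
  | empty =>
    rw [Finset.prod_empty, Finset.card_empty, pow_zero]
    refine ⟨squarefree_one, ?_⟩
    unfold mob
    rw [if_pos squarefree_one, UniqueFactorizationMonoid.factors_one, Multiset.card_zero, pow_zero]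
  | insert P S hPS ih =>
    have hP := hS P (Finset.mem_insert_self P S)
    have ih' := ih (fun Q hQ => hS Q (Finset.mem_insert_of_mem hQ))
    rw [Finset.prod_insert hPS, Finset.card_insert_of_notMem hPS]
    have hc : IsCoprime P (∏ Q ∈ S, Q) := by
      apply IsCoprime.prod_right
      intro Q hQ
      exact cop_irr hP (hS Q (Finset.mem_insert_of_mem hQ)) (fun h => hPS (h ▸ hQ))
    have h1 := mob_mul_cop hc hP.2.squarefree ih'.1
    refine ⟨h1.1, ?_⟩
    rw [h1.2, ih'.2]
    have h2 : mob P = -1 := by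
      unfold mob
      rw [if_pos hP.2.squarefree, UniqueFactorizationMonoid.card_factors_of_irreducible hP.2,
        pow_one]
    rw [h2, pow_succ]
    ring

theorem vv_mod [Finite K] [CharP K 2] {N : K[X]} (hN : N.Monic) (hD : hasseDeriv 2 N = 0) {P : K[X]}
    (hP : P ∈ pf N) : vv P N % 4 ≤ 1 := by
  have h1 : P ^ vv P N * ∏ Q ∈ (pf N).erase P, Q ^ vv Q N = N := by
    rw [Finset.mul_prod_erase (pf N) (fun Q => Q ^ vv Q N) hP]
    exact prod_pf hN
  have hP' := pf_spec hP
  apply exp_mod hP'.2 (M := ∏ Q ∈ (pf N).erase P, Q ^ vv Q N)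
  · intro h
    rw [Prime.dvd_finsetProd_iff hP'.2.prime] at h
    obtain ⟨Q, hQ, hPQ⟩ := h
    rw [Finset.mem_erase] at hQ
    exact hQ.1 (dvd_irr hP' (pf_spec hQ.2) (hP'.2.prime.dvd_of_dvd_pow hPQ)).symm
  · rw [h1]
    exact hD

theorem nuk_kk {P N : K[X]} (h : vv P N % 4 ≤ 1) : nuk (kk P N) = vv P N := by
  unfold nuk kk
  omega

theorem deg_sum {N : K[X]} (hN : N.Monic) :
    ∑ P ∈ pf N, vv P N * P.natDegree = N.natDegree := by
  have h1 := congrArg natDegree (prod_pf hN)
  rw [natDegree_prod_of_monic _ _ (fun P hP => (pf_spec hP).1.pow _)] at h1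
  rw [← h1]
  apply Finset.sum_congr rfl
  intro P hP
  rw [(pf_spec hP).1.natDegree_pow]

/-- the sign -/
theorem sign (hpar : S_par) (K : Type) [Field K] [Fintype K] [CharP K 2]
    (hsq : IsSquare (Fintype.card K)) {n : ℕ} {N : K[X]} (hN : N ∈ WB K n) :
    ∏ P ∈ pf N, (-1 : ℝ) ^ kk P N = (-1) ^ n := by
  unfold WB at hN
  rw [Finset.mem_filter, mem_Mn] at hN
  obtain ⟨⟨hNm, hNd⟩, hND⟩ := hN
  have hv : ∀ P ∈ pf N, vv P N % 4 ≤ 1 := fun P hP => vv_mod hNm hND hP
  set S := (pf N).filter (fun P => vv P N % 4 = 1) with hSdef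
  have hS : ∀ P ∈ S, P.Monic ∧ Irreducible P := fun P hP => pf_spec (Finset.mem_filter.mp hP).1
  have hprod := prod_irr S hS
  have hsplit : (∏ P ∈ pf N, P ^ (vv P N / 4)) ^ 4 * ∏ P ∈ S, P = N := by
    rw [hSdef, Finset.prod_filter, ← Finset.prod_pow, ← Finset.prod_mul_distrib]
    refine Eq.trans ?_ (prod_pf hNm)
    apply Finset.prod_congr rfl
    intro P hP
    have h1 := hv P hP
    split_ifs with h
    · rw [← pow_mul, ← pow_succ]
      congr 1
      omega
    · rw [mul_one, ← pow_mul]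
      congr 1
      omega
  have hBm : (∏ P ∈ pf N, P ^ (vv P N / 4)).Monic :=
    monic_prod_of_monic _ _ (fun P hP => (pf_spec hP).1.pow _)
  have hSm : (∏ P ∈ S, P).Monic := monic_prod_of_monic _ _ (fun P hP => (hS P hP).1)
  have hSD : hasseDeriv 2 (∏ P ∈ S, P) = 0 := by
    apply hd2_cancel hBm.ne_zero
    rw [hsplit]
    exact hND
  have hmem : (∏ P ∈ S, P) ∈ WB K (∏ P ∈ S, P).natDegree := by
    unfold WB
    rw [Finset.mem_filter, mem_Mn]
    exact ⟨⟨hSm, rfl⟩, hSD⟩
  have h1 := hpar K hsq _ _ hmem hprod.1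
  rw [hprod.2] at h1
  have hdeg : n = 4 * (∏ P ∈ pf N, P ^ (vv P N / 4)).natDegree + (∏ P ∈ S, P).natDegree := by
    rw [← hNd]
    conv_lhs => rw [← hsplit]
    rw [(hBm.pow 4).natDegree_mul hSm, hBm.natDegree_pow]
  have h2 : ∏ P ∈ pf N, (-1 : ℝ) ^ kk P N = (-1) ^ S.card := by
    have h3 : ∀ P ∈ pf N, (-1 : ℝ) ^ kk P N = if vv P N % 4 = 1 then -1 else 1 := by
      intro P hP
      have h4 := hv P hP
      split_ifs with h
      · have : kk P N = 2 * (vv P N / 4) + 1 := by
          unfold kk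
          omega
        rw [this, pow_succ, pow_mul]
        norm_num
      · have : kk P N = 2 * (vv P N / 4) := by
          unfold kk
          omega
        rw [this, pow_mul]
        norm_num
    rw [Finset.prod_congr rfl h3, ← Finset.prod_filter, Finset.prod_const]
  have h5 : ((-1 : ℝ)) ^ S.card = (-1) ^ (∏ P ∈ S, P).natDegree := by exact_mod_cast h1
  rw [h2, h5, hdeg, pow_add, pow_mul]
  norm_num

end fact

/-! ### Palindromes -/

/-- the local weight polynomial -/
noncomputable def fP (e : ℕ → ℕ → ℝ) (k d : ℕ) : ℝ[X] :=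
  ∑ l ∈ Finset.range (nuk k + 1), C (om e k l) * X ^ (l * d)

theorem fP_deg (e : ℕ → ℕ → ℝ) (k d : ℕ) : (fP e k d).natDegree ≤ nuk k * d := by
  unfold fP
  apply natDegree_sum_le_of_forall_le
  intro l hl
  rw [Finset.mem_range] at hl
  refine (natDegree_C_mul_X_pow_le _ _).trans ?_
  exact Nat.mul_le_mul_right d (by omega)

theorem reflect_sum (D : ℕ) (s : Finset ℕ) (g : ℕ → ℝ[X]) :
    reflect D (∑ l ∈ s, g l) = ∑ l ∈ s, reflect D (g l) := by
  induction s using Finset.induction_on with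
  | empty => rw [Finset.sum_empty, Finset.sum_empty, reflect_zero]
  | insert a s ha ih => rw [Finset.sum_insert ha, Finset.sum_insert ha, reflect_add, ih]

theorem fP_refl {p : ℝ} {e : ℕ → ℕ → ℝ} (hT : Tab p e) (k d : ℕ) :
    reflect (nuk k * d) (fP e k d) = C ((-1 : ℝ) ^ k) * fP e k d := by
  unfold fP
  rw [reflect_sum, Finset.mul_sum, ← Finset.sum_flip (fun l => C ((-1 : ℝ) ^ k) *
    (C (om e k l) * X ^ (l * d)))]
  apply Finset.sum_congr rfl
  intro l hl
  rw [Finset.mem_range] at hl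
  rw [reflect_C_mul_X_pow, revAt_le (Nat.mul_le_mul_right d (by omega)), hT.pal k l (by omega),
    ← mul_assoc, ← C_mul, ← mul_assoc, ← pow_add, Nat.sub_mul]
  congr 2
  have : (-1 : ℝ) ^ (k + k) = 1 := by
    rw [← two_mul, pow_mul]
    norm_num
  rw [this, one_mul]

theorem prod_refl {ι : Type} (S : Finset ι) (f : ι → ℝ[X]) (D : ι → ℕ) (ε : ι → ℝ)
    (hD : ∀ i ∈ S, (f i).natDegree ≤ D i) (hr : ∀ i ∈ S, reflect (D i) (f i) = C (ε i) * f i) :
    (∏ i ∈ S, f i).natDegree ≤ ∑ i ∈ S, D i ∧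
      reflect (∑ i ∈ S, D i) (∏ i ∈ S, f i) = C (∏ i ∈ S, ε i) * ∏ i ∈ S, f i := by
  induction S using Finset.induction_on with
  | empty =>
    rw [Finset.sum_empty, Finset.prod_empty, Finset.prod_empty]
    refine ⟨by rw [natDegree_one], ?_⟩
    have h1 := reflect_C_mul_X_pow (R := ℝ) 0 0 (c := 1)
    rw [revAt_le (le_refl 0), C_1, one_mul, pow_zero] at h1
    rw [C_1, one_mul]
    exact h1
  | insert a S ha ih =>
    obtain ⟨ih1, ih2⟩ := ih (fun i hi => hD i (Finset.mem_insert_of_mem hi))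
      (fun i hi => hr i (Finset.mem_insert_of_mem hi))
    have h1 := hD a (Finset.mem_insert_self a S)
    have h2 := hr a (Finset.mem_insert_self a S)
    rw [Finset.sum_insert ha, Finset.prod_insert ha, Finset.prod_insert ha]
    refine ⟨natDegree_mul_le.trans (add_le_add h1 ih1), ?_⟩
    rw [reflect_mul _ _ h1 ih1, h2, ih2, C_mul]
    ring

theorem OmP_refl (hpar : S_par) (K : Type) [Field K] [Fintype K] [CharP K 2]
    (T : ℕ → ℕ → ℕ → ℝ) (hsq : IsSquare (Fintype.card K)) (hT : Tabs K T) {n : ℕ} {N : K[X]}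
    (hN : N ∈ WB K n) :
    (OmP T N).natDegree ≤ n ∧ reflect n (OmP T N) = C ((-1 : ℝ) ^ n) * OmP T N := by
  have hN' := hN
  unfold WB at hN'
  rw [Finset.mem_filter, mem_Mn] at hN'
  obtain ⟨⟨hNm, hNd⟩, hND⟩ := hN'
  have h1 := prod_refl (pf N) (fun P => fP (T P.natDegree) (kk P N) P.natDegree)
    (fun P => nuk (kk P N) * P.natDegree) (fun P => (-1) ^ kk P N) (fun P _ => fP_deg _ _ _)
    (fun P hP => fP_refl (hT P.natDegree (pf_spec hP).2.natDegree_pos) _ _)
  have h2 : ∑ P ∈ pf N, nuk (kk P N) * P.natDegree = n := by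
    rw [← hNd, ← deg_sum hNm]
    apply Finset.sum_congr rfl
    intro P hP
    rw [nuk_kk (vv_mod hNm hND hP)]
  rw [h2, sign hpar K hsq hN] at h1
  exact h1

end Fe1

theorem fe1 (hpar : S_par) : S_fe1 := by
  intro K _ _ _ T hsq hT n j
  constructor
  · intro hj
    unfold SS
    rw [Finset.mul_sum]
    apply Finset.sum_congr rfl
    intro N hN
    obtain ⟨-, h2⟩ := Fe1.OmP_refl hpar K T hsq hT hN
    have h3 := congrArg (fun f : ℝ[X] => f.coeff (n - j)) h2
    simp only [coeff_reflect, coeff_C_mul] at h3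
    rw [revAt_le (Nat.sub_le n j), Nat.sub_sub_self hj] at h3
    exact h3
  · intro hj
    unfold SS
    apply Finset.sum_eq_zero
    intro N hN
    obtain ⟨h1, -⟩ := Fe1.OmP_refl hpar K T hsq hT hN
    exact coeff_eq_zero_of_natDegree_lt (lt_of_le_of_lt h1 hj)

end Pool.Agent.H6.C
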