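import Pool.Agent.H6.C.Stm

/-!
# Wilson primes, part FE2 (helper152 for helper6): the functional equation of the double series
# from the functional equation of the lattices
-/

set_option autoImplicit false

namespace Pool.Agent.H6.C

open Polynomial
open scoped Classical
open Pool.Agent.H694.Typ (Mn mem_Mn)
open UniqueFactorizationMonoid

noncomputable section

namespace Fe2

section fac

variable {K : Type} [Field K]

theorem vv_mul {f g : K[X]} (hf : f ≠ 0) (hg : g ≠ 0) (P : K[X]) :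
    vv P (f * g) = vv P f + vv P g := by
  unfold vv
  rw [normalizedFactors_mul hf hg, Multiset.count_add]

theorem irr_of_pf {D P : K[X]} (h : P ∈ pf D) : Irreducible P :=
  irreducible_of_normalized_factor P (Multiset.mem_toFinset.1 h)

theorem norm_of_pf {D P : K[X]} (h : P ∈ pf D) : normalize P = P :=
  normalize_normalized_factor P (Multiset.mem_toFinset.1 h)

theorem monic_of_pf {D P : K[X]} (h : P ∈ pf D) : P.Monic := by
  rw [← norm_of_pf h]
  exact monic_normalize (irr_of_pf h).ne_zero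

theorem pf_sub {D f : K[X]} (hD : D ≠ 0) (hf : f ≠ 0) (h : f ∣ D) : pf f ⊆ pf D :=
  Multiset.toFinset_subset.2
    (Multiset.subset_of_le ((dvd_iff_normalizedFactors_le_normalizedFactors hf hD).1 h))

theorem prod_vv {D f : K[X]} (hD : D ≠ 0) (hf : f.Monic) (h : f ∣ D) :
    ∏ P ∈ pf D, P ^ (vv P f) = f := by
  have h1 : ∏ P ∈ pf f, P ^ (vv P f) = f := by
    unfold pf vv
    rw [← Finset.prod_multiset_count, prod_normalizedFactors_eq hf.ne_zero, hf.normalize_eq_self]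
  rw [← Finset.prod_subset (pf_sub hD hf.ne_zero h) (fun P _ hP => ?_), h1]
  have h2 : vv P f = 0 := by
    unfold vv
    rw [Multiset.count_eq_zero]
    exact fun h3 => hP (Multiset.mem_toFinset.2 h3)
  rw [h2, pow_zero]

theorem deg_vv {D f : K[X]} (hD : D ≠ 0) (hf : f.Monic) (h : f ∣ D) :
    ∑ P ∈ pf D, P.natDegree * vv P f = f.natDegree := by
  have h1 := congrArg natDegree (prod_vv hD hf h)
  rw [natDegree_prod_of_monic _ _ (fun P hP => (monic_of_pf hP).pow _)] at h1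
  rw [← h1]
  refine Finset.sum_congr rfl fun P hP => ?_
  rw [natDegree_pow, mul_comm]

theorem nf_prod {D : K[X]} (e : K[X] → ℕ) :
    normalizedFactors (∏ Q ∈ pf D, Q ^ (e Q)) = ∑ Q ∈ pf D, Multiset.replicate (e Q) Q := by
  have h1 : ∏ Q ∈ pf D, Q ^ (e Q) = (∑ Q ∈ pf D, Multiset.replicate (e Q) Q).prod := by
    rw [Multiset.prod_sum]
    refine Finset.prod_congr rfl fun Q _ => ?_
    rw [Multiset.prod_replicate]
  have hmem : ∀ a ∈ ∑ Q ∈ pf D, Multiset.replicate (e Q) Q, a ∈ pf D := by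
    intro a ha
    rw [Multiset.mem_sum] at ha
    obtain ⟨Q, hQ, h2⟩ := ha
    rw [Multiset.eq_of_mem_replicate h2]
    exact hQ
  rw [h1, normalizedFactors_prod_eq _ (fun a ha => irr_of_pf (hmem a ha))]
  have h3 : Multiset.map normalize (∑ Q ∈ pf D, Multiset.replicate (e Q) Q) =
      Multiset.map id (∑ Q ∈ pf D, Multiset.replicate (e Q) Q) :=
    Multiset.map_congr rfl fun a ha => norm_of_pf (hmem a ha)
  rw [h3, Multiset.map_id]

theorem count_prod {D : K[X]} (e : K[X] → ℕ) (P : K[X]) :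
    vv P (∏ Q ∈ pf D, Q ^ (e Q)) = if P ∈ pf D then e P else 0 := by
  unfold vv
  rw [nf_prod, Multiset.count_sum']
  have h1 : ∀ Q ∈ pf D, Multiset.count P (Multiset.replicate (e Q) Q) =
      if P = Q then e Q else 0 := by
    intro Q _
    rw [Multiset.count_replicate]
    by_cases h : P = Q
    · rw [if_pos h, if_pos h.symm]
    · rw [if_neg h, if_neg (Ne.symm h)]
  rw [Finset.sum_congr rfl h1, Finset.sum_ite_eq]

theorem vv_prod {D : K[X]} (e : K[X] → ℕ) {P : K[X]} (hP : P ∈ pf D) :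
    vv P (∏ Q ∈ pf D, Q ^ (e Q)) = e P := by
  rw [count_prod, if_pos hP]

theorem monic_prod {D : K[X]} (e : K[X] → ℕ) : (∏ Q ∈ pf D, Q ^ (e Q)).Monic :=
  monic_prod_of_monic _ _ fun _ hQ => (monic_of_pf hQ).pow _

theorem sqf_prod {D : K[X]} (e : K[X] → ℕ) (he : ∀ Q ∈ pf D, e Q ≤ 1) :
    Squarefree (∏ Q ∈ pf D, Q ^ (e Q)) := by
  rw [squarefree_iff_nodup_normalizedFactors (monic_prod e).ne_zero, Multiset.nodup_iff_count_le_one]
  intro P
  have h := count_prod (D := D) e P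
  unfold vv at h
  rw [h]
  split_ifs with h1
  · exact he P h1
  · exact Nat.zero_le _

theorem vv_sqf {D D₀ P : K[X]} (h0 : D₀ ≠ 0) (hs : Squarefree D₀) (hP : P ∈ pf D) :
    vv P D₀ = if P ∣ D₀ then 1 else 0 := by
  unfold vv
  by_cases h : P ∣ D₀
  · rw [if_pos h]
    obtain ⟨Q, hQ, hPQ⟩ := exists_mem_normalizedFactors_of_dvd h0 (irr_of_pf hP) h
    have e : P = Q := by
      rw [← norm_of_pf hP, ← normalize_normalized_factor Q hQ]
      exact normalize_eq_normalize_iff_associated.2 hPQ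
    rw [e]
    exact Multiset.count_eq_one_of_mem ((squarefree_iff_nodup_normalizedFactors h0).1 hs) hQ
  · rw [if_neg h, Multiset.count_eq_zero]
    exact fun h1 => h (dvd_of_mem_normalizedFactors h1)

end fac

/-! ### all pairs -/

section pairs

variable {K : Type} [Field K] [Fintype K]

/-- all pairs for `D` -/
def AP (D : K[X]) (j : ℕ) : Finset (K[X] × K[X]) :=
  ((Finset.range (j + 1)) ×ˢ (Finset.range (j + 1))).biUnion (fun y => prs K D y.1 y.2)

theorem mem_prs {D : K[X]} {d β : ℕ} {x : K[X] × K[X]} : x ∈ prs K D d β ↔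
    ((x.1.Monic ∧ x.1.natDegree = d) ∧ (x.2.Monic ∧ x.2.natDegree = β)) ∧
      Squarefree x.1 ∧ x.1 * x.2 ∣ D := by
  unfold prs
  rw [Finset.mem_filter, Finset.mem_product, mem_Mn, mem_Mn]

theorem mem_AP {D : K[X]} {j : ℕ} (hD : D ∈ Mn K j) {x : K[X] × K[X]} : x ∈ AP D j ↔
    x.1.Monic ∧ x.2.Monic ∧ Squarefree x.1 ∧ x.1 * x.2 ∣ D := by
  rw [mem_Mn] at hD
  unfold AP
  rw [Finset.mem_biUnion]
  constructor
  · rintro ⟨y, -, hx⟩
    rw [mem_prs] at hx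
    exact ⟨hx.1.1.1, hx.1.2.1, hx.2⟩
  · rintro ⟨h1, h2, h3, h4⟩
    have h5 := natDegree_le_of_dvd h4 hD.1.ne_zero
    rw [h1.natDegree_mul h2, hD.2] at h5
    refine ⟨(x.1.natDegree, x.2.natDegree), ?_, mem_prs.2 ⟨⟨⟨h1, rfl⟩, h2, rfl⟩, h3, h4⟩⟩
    rw [Finset.mem_product, Finset.mem_range, Finset.mem_range]
    exact ⟨by show x.1.natDegree < j + 1; omega, by show x.2.natDegree < j + 1; omega⟩

theorem sum_AP {D : K[X]} (j : ℕ) (G : ℕ → ℕ → K[X] × K[X] → ℝ) :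
    ∑ d ∈ Finset.range (j + 1), ∑ β ∈ Finset.range (j + 1), ∑ x ∈ prs K D d β, G d β x =
      ∑ x ∈ AP D j, G x.1.natDegree x.2.natDegree x := by
  unfold AP
  rw [Finset.sum_biUnion, Finset.sum_product]
  · refine Finset.sum_congr rfl fun d _ => Finset.sum_congr rfl fun β _ =>
      Finset.sum_congr rfl fun x hx => ?_
    rw [mem_prs] at hx
    rw [hx.1.1.2, hx.1.2.2]
  · intro y _ y' _ hne
    rw [Function.onFun, Finset.disjoint_left]
    intro x hx hx'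
    rw [mem_prs] at hx hx'
    apply hne
    exact Prod.ext (hx.1.1.2.symm.trans hx'.1.1.2) (hx.1.2.2.symm.trans hx'.1.2.2)

/-- all triples -/
def YY (K : Type) [Field K] [Fintype K] (j : ℕ) : Finset (Σ _ : K[X], K[X] × K[X]) :=
  (Mn K j).sigma (fun D => AP D j)

theorem mem_YY {j : ℕ} {y : Σ _ : K[X], K[X] × K[X]} : y ∈ YY K j ↔
    (y.1.Monic ∧ y.1.natDegree = j) ∧ y.2.1.Monic ∧ y.2.2.Monic ∧ Squarefree y.2.1 ∧
      y.2.1 * y.2.2 ∣ y.1 := by
  unfold YY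
  rw [Finset.mem_sigma]
  constructor
  · rintro ⟨h1, h2⟩
    exact ⟨mem_Mn.1 h1, (mem_AP h1).1 h2⟩
  · rintro ⟨h1, h2⟩
    exact ⟨mem_Mn.2 h1, (mem_AP (mem_Mn.2 h1)).2 h2⟩

/-- the involution -/
def sg (y : Σ _ : K[X], K[X] × K[X]) : Σ _ : K[X], K[X] × K[X] :=
  ⟨y.1, (y.2.1, y.1 / (y.2.1 * y.2.2))⟩

theorem sg_spec {j : ℕ} {y : Σ _ : K[X], K[X] × K[X]} (hy : y ∈ YY K j) :
    sg y ∈ YY K j ∧ y.1 = y.2.1 * y.2.2 * (sg y).2.2 ∧ sg (sg y) = y := by
  obtain ⟨D, D₀, B⟩ := y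
  rw [mem_YY] at hy
  obtain ⟨⟨h1, h2⟩, h3, h4, h5, c, hc⟩ := hy
  simp only at h1 h2 h3 h4 h5 hc
  have hne : D₀ * B ≠ 0 := (h3.mul h4).ne_zero
  have e1 : D / (D₀ * B) = c := by
    rw [hc, mul_div_cancel_left₀ c hne]
  have hcm : c.Monic := (h3.mul h4).of_mul_monic_left (hc ▸ h1)
  have hne2 : D₀ * c ≠ 0 := (h3.mul hcm).ne_zero
  have e2 : D / (D₀ * c) = B := by
    have : D = D₀ * c * B := by rw [hc]; ring
    rw [this, mul_div_cancel_left₀ B hne2]
  have e3 : sg (⟨D, (D₀, B)⟩ : Σ _ : K[X], K[X] × K[X]) = ⟨D, (D₀, c)⟩ := by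
    unfold sg
    rw [e1]
  rw [e3]
  refine ⟨?_, hc, ?_⟩
  · rw [mem_YY]
    refine ⟨⟨h1, h2⟩, h3, hcm, h5, B, ?_⟩
    show D = D₀ * c * B
    rw [hc]
    ring
  · unfold sg
    show (⟨D, (D₀, D / (D₀ * c))⟩ : Σ _ : K[X], K[X] × K[X]) = ⟨D, (D₀, B)⟩
    rw [e2]

theorem sum_sg (j : ℕ) (f : (Σ _ : K[X], K[X] × K[X]) → ℝ) :
    ∑ y ∈ YY K j, f (sg y) = ∑ y ∈ YY K j, f y :=
  Finset.sum_nbij' sg sg (fun _ hy => (sg_spec hy).1) (fun _ hy => (sg_spec hy).1)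
    (fun _ hy => (sg_spec hy).2.2) (fun _ hy => (sg_spec hy).2.2) (fun _ _ => rfl)

end pairs

/-! ### duality of the weights -/

theorem prod_zpow_sum {ι : Type} (q : ℝ) (hq : q ≠ 0) (s : Finset ι) (n : ι → ℤ) :
    ∏ i ∈ s, q ^ (n i) = q ^ (∑ i ∈ s, n i) := by
  induction s using Finset.induction_on with
  | empty => simp
  | insert a s ha ih => rw [Finset.prod_insert ha, Finset.sum_insert ha, zpow_add₀ hq, ih]

theorem HH_dual (K : Type) [Field K] [Fintype K] (T : ℕ → ℕ → ℕ → ℝ) (hT : Tabs K T) (j : ℕ)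
    (y : Σ _ : K[X], K[X] × K[X]) (hy : y ∈ YY K j) :
    HH T y.1 y.2.1 y.2.2 = (Fintype.card K : ℝ) ^ ((2 * (y.2.2.natDegree : ℤ) + y.2.1.natDegree - j)) *
      HH T (sg y).1 (sg y).2.1 (sg y).2.2 := by
  obtain ⟨hs1, hs2, -⟩ := sg_spec hy
  obtain ⟨B', hB'⟩ : ∃ B', B' = (sg y).2.2 := ⟨_, rfl⟩
  have e1 : (sg y).1 = y.1 := rfl
  have e2 : (sg y).2.1 = y.2.1 := rfl
  rw [mem_YY, ← hB', e1, e2] at hs1
  rw [mem_YY] at hy
  rw [← hB'] at hs2 ⊢
  rw [e1, e2]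
  obtain ⟨D, D₀, B⟩ := y
  simp only at hy hs1 hs2 ⊢
  obtain ⟨⟨h1, h2⟩, h3, h4, h5, h6⟩ := hy
  have h7 : B'.Monic := hs1.2.2.1
  have hq : (Fintype.card K : ℝ) ≠ 0 := by
    have := Fintype.card_pos (α := K)
    positivity
  have hv : ∀ P, vv P D = vv P D₀ + vv P B + vv P B' := by
    intro P
    rw [hs2, vv_mul (h3.mul h4).ne_zero h7.ne_zero, vv_mul h3.ne_zero h4.ne_zero]
  have hD₀ : D₀ ∣ D := (dvd_mul_right _ _).trans h6
  have hB : B ∣ D := (dvd_mul_left _ _).trans h6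
  have hexp : (∑ P ∈ pf D, ((P.natDegree : ℤ) *
      (((2 * vv P B + if P ∣ D₀ then 1 else 0 : ℕ) : ℤ) - (vv P D : ℤ)))) =
      2 * (B.natDegree : ℤ) + D₀.natDegree - j := by
    have f1 : ((∑ P ∈ pf D, P.natDegree * vv P B : ℕ) : ℤ) = B.natDegree := by
      exact_mod_cast deg_vv h1.ne_zero h4 hB
    have f2 : ((∑ P ∈ pf D, P.natDegree * vv P D₀ : ℕ) : ℤ) = D₀.natDegree := by
      exact_mod_cast deg_vv h1.ne_zero h3 hD₀
    have f3 : ((∑ P ∈ pf D, P.natDegree * vv P D : ℕ) : ℤ) = j := by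
      rw [← h2]
      exact_mod_cast deg_vv h1.ne_zero h1 dvd_rfl
    rw [← f1, ← f2, ← f3]
    push_cast
    rw [Finset.mul_sum, ← Finset.sum_add_distrib, ← Finset.sum_sub_distrib]
    refine Finset.sum_congr rfl fun P hP => ?_
    rw [vv_sqf h3.ne_zero h5 hP]
    push_cast
    ring
  rw [← hexp, ← prod_zpow_sum _ hq]
  unfold HH
  rw [← Finset.prod_mul_distrib]
  refine Finset.prod_congr rfl fun P hP => ?_
  have hdeg : 1 ≤ P.natDegree := (irr_of_pf hP).natDegree_pos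
  have hT' := hT P.natDegree hdeg
  have hδ := vv_sqf (D := D) h3.ne_zero h5 hP
  have hvP := hv P
  rw [hδ] at hvP
  obtain ⟨δ, hδe⟩ : ∃ δ : ℕ, δ = if P ∣ D₀ then 1 else 0 := ⟨_, rfl⟩
  rw [← hδe] at hvP ⊢
  have h8 := hT'.dual (vv P D) (2 * vv P B + δ) (by omega)
  rw [h8]
  have h9 : 2 * vv P D - (2 * vv P B + δ) = 2 * vv P B' + δ := by omega
  rw [h9]
  congr 1
  rw [← zpow_natCast (Fintype.card K : ℝ) P.natDegree, ← zpow_mul]

/-! ### the main term -/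

theorem sum_HH (K : Type) [Field K] [Fintype K] (T : ℕ → ℕ → ℕ → ℝ) (j : ℕ) (D : K[X])
    (hD : D ∈ Mn K j) :
    ∑ x ∈ AP D j, HH T D x.1 x.2 = ∏ P ∈ pf D, om (T P.natDegree) (2 * vv P D) (vv P D) := by
  have hDm := (mem_Mn.1 hD).1
  unfold om
  rw [Finset.prod_sum]
  obtain ⟨ext, hext⟩ : ∃ ext : (∀ a ∈ pf D, ℕ) → K[X] → ℕ,
      ext = fun p P => if h : P ∈ pf D then p P h else 0 := ⟨_, rfl⟩
  have hextv : ∀ (p : ∀ a ∈ pf D, ℕ) (P : K[X]) (h : P ∈ pf D), ext p P = p P h := by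
    intro p P h
    rw [hext]
    show (if h : P ∈ pf D then p P h else 0) = p P h
    rw [dif_pos h]
  refine Finset.sum_bij' (fun x _ => fun P _ => 2 * vv P x.2 + if P ∣ x.1 then 1 else 0)
    (fun p _ => (∏ P ∈ pf D, P ^ (ext p P % 2), ∏ P ∈ pf D, P ^ (ext p P / 2))) ?_ ?_ ?_ ?_ ?_
  · intro x hx
    rw [mem_AP hD] at hx
    obtain ⟨h1, h2, h3, c, hc⟩ := hx
    rw [Finset.mem_pi]
    intro P hP
    rw [Finset.mem_range]
    have hc0 : c ≠ 0 := by
      rintro rfl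
      rw [mul_zero] at hc
      exact hDm.ne_zero hc
    have e1 : vv P D = vv P x.1 + vv P x.2 + vv P c := by
      rw [hc, vv_mul (h1.mul h2).ne_zero hc0, vv_mul h1.ne_zero h2.ne_zero]
    rw [vv_sqf h1.ne_zero h3 hP] at e1
    split_ifs at e1 ⊢ <;> omega
  · intro p hp
    rw [Finset.mem_pi] at hp
    rw [mem_AP hD]
    refine ⟨monic_prod _, monic_prod _, sqf_prod _ (fun Q _ => by omega), ?_⟩
    show (∏ P ∈ pf D, P ^ (ext p P % 2)) * (∏ P ∈ pf D, P ^ (ext p P / 2)) ∣ D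
    rw [← Finset.prod_mul_distrib]
    have e1 : D = ∏ P ∈ pf D, P ^ (vv P D) := (prod_vv hDm.ne_zero hDm dvd_rfl).symm
    have e2 : ∏ P ∈ pf D, P ^ (ext p P % 2) * P ^ (ext p P / 2) ∣ ∏ P ∈ pf D, P ^ (vv P D) := by
      refine Finset.prod_dvd_prod_of_dvd _ _ fun P hP => ?_
      rw [← pow_add]
      refine pow_dvd_pow _ ?_
      have h1 := hp P hP
      rw [Finset.mem_range] at h1
      rw [hextv p P hP]
      omega
    rwa [← e1] at e2
  · intro x hx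
    rw [mem_AP hD] at hx
    obtain ⟨h1, h2, h3, h4⟩ := hx
    have hd1 : x.1 ∣ D := (dvd_mul_right _ _).trans h4
    have hd2 : x.2 ∣ D := (dvd_mul_left _ _).trans h4
    refine Prod.ext ?_ ?_
    · show ∏ P ∈ pf D, P ^ (ext _ P % 2) = x.1
      refine Eq.trans (Finset.prod_congr rfl fun P hP => ?_) (prod_vv hDm.ne_zero h1 hd1)
      rw [hextv _ P hP, vv_sqf h1.ne_zero h3 hP]
      congr 1
      split_ifs <;> omega
    · show ∏ P ∈ pf D, P ^ (ext _ P / 2) = x.2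
      refine Eq.trans (Finset.prod_congr rfl fun P hP => ?_) (prod_vv hDm.ne_zero h2 hd2)
      rw [hextv _ P hP]
      congr 1
      split_ifs <;> omega
  · intro p hp
    funext P hP
    show 2 * vv P (∏ P ∈ pf D, P ^ (ext p P / 2)) +
      (if P ∣ ∏ P ∈ pf D, P ^ (ext p P % 2) then 1 else 0) = p P hP
    rw [vv_prod _ hP]
    have hm : (∏ P ∈ pf D, P ^ (ext p P % 2)).Monic := monic_prod _
    have hs : Squarefree (∏ P ∈ pf D, P ^ (ext p P % 2)) := sqf_prod _ (fun Q _ => by omega)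
    rw [← vv_sqf hm.ne_zero hs hP, vv_prod _ hP, ← hextv p P hP]
    omega
  · intro x hx
    unfold HH
    rw [← Finset.prod_attach]

theorem sum_YY (K : Type) [Field K] [Fintype K] (T : ℕ → ℕ → ℕ → ℝ) (j : ℕ) :
    ∑ y ∈ YY K j, HH T y.1 y.2.1 y.2.2 = cc K T j := by
  unfold YY cc
  rw [Finset.sum_sigma]
  exact Finset.sum_congr rfl fun D hD => sum_HH K T j D hD

/-! ### the expansions -/

theorem S0_eq (hexp : S_exp) (K : Type) [Field K] [Fintype K] [CharP K 2] (T : ℕ → ℕ → ℕ → ℝ)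
    (hT : Tabs K T) (j : ℕ) (m : ℤ) : S0 K T j m =
      ∑ y ∈ YY K j, HH T y.1 y.2.1 y.2.2 * a0 y.2.1 (m - y.2.2.natDegree) := by
  unfold YY
  rw [Finset.sum_sigma]
  unfold S0
  by_cases hm : m < 0
  · rw [if_pos hm]
    symm
    refine Finset.sum_eq_zero fun D _ => Finset.sum_eq_zero fun x _ => ?_
    unfold a0
    rw [if_pos (by omega), mul_zero]
  · rw [if_neg hm, hexp K T hT]
    refine Finset.sum_congr rfl fun D _ => ?_
    rw [sum_AP j (fun _ β x => HH T D x.1 x.2 * (if 4 * β ≤ 4 * m.toNat then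
      (((WB K (4 * m.toNat - 4 * β)).filter (fun N => x.1 ∣ N)).card : ℝ) else 0))]
    refine Finset.sum_congr rfl fun x _ => ?_
    show HH T D x.1 x.2 * (if 4 * x.2.natDegree ≤ 4 * m.toNat then
      (((WB K (4 * m.toNat - 4 * x.2.natDegree)).filter (fun N => x.1 ∣ N)).card : ℝ) else 0) =
      HH T D x.1 x.2 * a0 x.1 (m - x.2.natDegree)
    congr 1
    unfold a0
    by_cases h : m - (x.2.natDegree : ℤ) < 0
    · rw [if_pos h, if_neg (by omega)]
    · have e : 4 * m.toNat - 4 * x.2.natDegree = 4 * (m - (x.2.natDegree : ℤ)).toNat := by omega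
      rw [if_neg h, if_pos (by omega), e]

theorem S1_eq (hexp : S_exp) (K : Type) [Field K] [Fintype K] [CharP K 2] (T : ℕ → ℕ → ℕ → ℝ)
    (hT : Tabs K T) (j : ℕ) (m : ℤ) : S1 K T j m =
      ∑ y ∈ YY K j, HH T y.1 y.2.1 y.2.2 * a1 y.2.1 (m - y.2.2.natDegree) := by
  unfold YY
  rw [Finset.sum_sigma]
  unfold S1
  by_cases hm : m < 0
  · rw [if_pos hm]
    symm
    refine Finset.sum_eq_zero fun D _ => Finset.sum_eq_zero fun x _ => ?_
    unfold a1
    rw [if_pos (by omega), mul_zero]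
  · rw [if_neg hm, hexp K T hT]
    refine Finset.sum_congr rfl fun D _ => ?_
    rw [sum_AP j (fun _ β x => HH T D x.1 x.2 * (if 4 * β ≤ 4 * m.toNat + 1 then
      (((WB K (4 * m.toNat + 1 - 4 * β)).filter (fun N => x.1 ∣ N)).card : ℝ) else 0))]
    refine Finset.sum_congr rfl fun x _ => ?_
    show HH T D x.1 x.2 * (if 4 * x.2.natDegree ≤ 4 * m.toNat + 1 then
      (((WB K (4 * m.toNat + 1 - 4 * x.2.natDegree)).filter (fun N => x.1 ∣ N)).card : ℝ) else 0) =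
      HH T D x.1 x.2 * a1 x.1 (m - x.2.natDegree)
    congr 1
    unfold a1
    by_cases h : m - (x.2.natDegree : ℤ) < 0
    · rw [if_pos h, if_neg (by omega)]
    · have e : 4 * m.toNat + 1 - 4 * x.2.natDegree = 4 * (m - (x.2.natDegree : ℤ)).toNat + 1 := by
        omega
      rw [if_neg h, if_pos (by omega), e]

/-! ### linearity -/

theorem shift (f : ℤ → ℝ) (hf : ∀ i, i < 0 → f i = 0) (b : ℕ) (M : ℤ) :
    ∑ i ∈ Finset.range (M + 1).toNat, f ((i : ℤ) - b) =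
      ∑ i ∈ Finset.range (M - b + 1).toNat, f (i : ℤ) := by
  by_cases h : M + 1 ≤ b
  · have e : (M - b + 1).toNat = 0 := by omega
    rw [e, Finset.range_zero, Finset.sum_empty]
    refine Finset.sum_eq_zero fun i hi => hf _ ?_
    rw [Finset.mem_range] at hi
    omega
  · have e : (M + 1).toNat = b + (M - b + 1).toNat := by omega
    rw [e, Finset.sum_range_add]
    have h1 : ∑ i ∈ Finset.range b, f ((i : ℤ) - b) = 0 := by
      refine Finset.sum_eq_zero fun i hi => hf _ ?_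
      rw [Finset.mem_range] at hi
      omega
    rw [h1, zero_add]
    refine Finset.sum_congr rfl fun i _ => ?_
    congr 1
    push_cast
    ring

theorem TT_lin {ι : Type} (q : ℝ) (s : Finset ι) (w : ι → ℝ) (f : ι → ℤ → ℝ) (b : ι → ℕ)
    (hf : ∀ x ∈ s, ∀ i, i < 0 → f x i = 0) (F : ℤ → ℝ)
    (hF : ∀ i, F i = ∑ x ∈ s, w x * f x (i - b x)) (M : ℤ) :
    TT q F M = ∑ x ∈ s, w x * TT q (f x) (M - b x) := by
  unfold TT
  have h1 : ∑ i ∈ Finset.range (M + 1).toNat, F (i : ℤ) =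
      ∑ x ∈ s, w x * ∑ i ∈ Finset.range (M - b x + 1).toNat, f x (i : ℤ) := by
    have h0 : ∑ i ∈ Finset.range (M + 1).toNat, F (i : ℤ) =
        ∑ i ∈ Finset.range (M + 1).toNat, ∑ x ∈ s, w x * f x ((i : ℤ) - b x) :=
      Finset.sum_congr rfl fun i _ => hF (i : ℤ)
    rw [h0, Finset.sum_comm]
    refine Finset.sum_congr rfl fun x hx => ?_
    rw [← Finset.mul_sum, shift (f x) (hf x hx)]
  rw [h1, Finset.mul_sum]
  refine Finset.sum_congr rfl fun x _ => ?_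
  ring

theorem UU_lin {ι : Type} (q : ℝ) (s : Finset ι) (w : ι → ℝ) (f : ι → ℤ → ℝ) (b : ι → ℕ)
    (hf : ∀ x ∈ s, ∀ i, i < 0 → f x i = 0) (F : ℤ → ℝ)
    (hF : ∀ i, F i = ∑ x ∈ s, w x * f x (i - b x)) (M : ℤ) :
    UU q F M = ∑ x ∈ s, w x * UU q (f x) (M - b x) := by
  unfold UU
  rw [TT_lin q s w f b hf F hF M, hF M, Finset.mul_sum, ← Finset.sum_sub_distrib]
  refine Finset.sum_congr rfl fun x _ => ?_
  ring

theorem a0_neg {K : Type} [Field K] [Fintype K] (D : K[X]) (i : ℤ) (hi : i < 0) : a0 D i = 0 := by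
  unfold a0
  rw [if_pos hi]

theorem a1_neg {K : Type} [Field K] [Fintype K] (D : K[X]) (i : ℤ) (hi : i < 0) : a1 D i = 0 := by
  unfold a1
  rw [if_pos hi]

end Fe2

open Fe2

theorem fe2 (hexp : S_exp) (hfel : S_fel) : S_fe2 := by
  intro K _ _ _ T hT j m _
  obtain ⟨q, hq⟩ : ∃ q : ℝ, q = (Fintype.card K : ℝ) := ⟨_, rfl⟩
  have hq0 : q ≠ 0 := by
    rw [hq]
    have := Fintype.card_pos (α := K)
    positivity
  have hdual : ∀ y ∈ YY K j, HH T y.1 y.2.1 y.2.2 =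
      q ^ ((2 * (y.2.2.natDegree : ℤ) + y.2.1.natDegree - j)) *
      HH T (sg y).1 (sg y).2.1 (sg y).2.2 := by
    intro y hy
    rw [hq]
    exact HH_dual K T hT j y hy
  have hdeg : ∀ y ∈ YY K j, (y.2.1.natDegree : ℤ) + y.2.2.natDegree + (sg y).2.2.natDegree = j := by
    intro y hy
    obtain ⟨h1, h2, -⟩ := sg_spec hy
    have h3 := mem_YY.1 hy
    have h4 := mem_YY.1 h1
    have h5 := h3.1.2
    rw [h2, (h3.2.1.mul h3.2.2.1).natDegree_mul h4.2.2.1, h3.2.1.natDegree_mul h3.2.2.1] at h5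
    exact_mod_cast h5
  have hT0 : ∀ M : ℤ, TT q (S0 K T j) M = ∑ y ∈ YY K j, HH T y.1 y.2.1 y.2.2 *
      TT q (a0 y.2.1) (M - y.2.2.natDegree) := fun M =>
    TT_lin q (YY K j) (fun y => HH T y.1 y.2.1 y.2.2) (fun y => a0 y.2.1)
      (fun y => y.2.2.natDegree) (fun y _ i hi => a0_neg _ i hi) _ (S0_eq hexp K T hT j) M
  have hT1 : ∀ M : ℤ, TT q (S1 K T j) M = ∑ y ∈ YY K j, HH T y.1 y.2.1 y.2.2 *
      TT q (a1 y.2.1) (M - y.2.2.natDegree) := fun M =>
    TT_lin q (YY K j) (fun y => HH T y.1 y.2.1 y.2.2) (fun y => a1 y.2.1)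
      (fun y => y.2.2.natDegree) (fun y _ i hi => a1_neg _ i hi) _ (S1_eq hexp K T hT j) M
  have hU0 : ∀ M : ℤ, UU q (S0 K T j) M = ∑ y ∈ YY K j, HH T y.1 y.2.1 y.2.2 *
      UU q (a0 y.2.1) (M - y.2.2.natDegree) := fun M =>
    UU_lin q (YY K j) (fun y => HH T y.1 y.2.1 y.2.2) (fun y => a0 y.2.1)
      (fun y => y.2.2.natDegree) (fun y _ i hi => a0_neg _ i hi) _ (S0_eq hexp K T hT j) M
  have hU1 : ∀ M : ℤ, UU q (S1 K T j) M = ∑ y ∈ YY K j, HH T y.1 y.2.1 y.2.2 *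
      UU q (a1 y.2.1) (M - y.2.2.natDegree) := fun M =>
    UU_lin q (YY K j) (fun y => HH T y.1 y.2.1 y.2.2) (fun y => a1 y.2.1)
      (fun y => y.2.2.natDegree) (fun y _ i hi => a1_neg _ i hi) _ (S1_eq hexp K T hT j) M
  have hcc := sum_YY K T j
  rw [← hq]
  constructor
  · rw [hT0, hU1, ← hcc, ← Finset.sum_add_distrib, ← Finset.sum_add_distrib, S0_eq hexp K T hT j m,
      ← sum_sg j (fun y => HH T y.1 y.2.1 y.2.2 +
        HH T y.1 y.2.1 y.2.2 * TT q (a0 y.2.1) (j - m - 1 - y.2.2.natDegree) +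
        HH T y.1 y.2.1 y.2.2 * UU q (a1 y.2.1) (j - m - 1 - y.2.2.natDegree)), Finset.mul_sum]
    refine Finset.sum_congr rfl fun y hy => ?_
    have h1 := (hfel K y.2.1 (mem_YY.1 hy).2.1 (mem_YY.1 hy).2.2.2.1 (m - y.2.2.natDegree)).1
    rw [← hq] at h1
    have h2 := hdeg y hy
    have e1 : (y.2.1.natDegree : ℤ) - (m - y.2.2.natDegree) - 1 =
        j - m - 1 - (sg y).2.2.natDegree := by omega
    rw [e1] at h1
    have e3 : (sg y).2.1 = y.2.1 := rfl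
    rw [h1, hdual y hy, e3]
    have e2 : q ^ (2 * m - (j : ℤ)) = q ^ ((2 * (y.2.2.natDegree : ℤ) + y.2.1.natDegree - j)) *
        q ^ (2 * (m - (y.2.2.natDegree : ℤ)) - y.2.1.natDegree) := by
      rw [← zpow_add₀ hq0]
      congr 1
      ring
    rw [e2]
    ring
  · rw [hT1, hU0, ← hcc, ← Finset.sum_add_distrib, ← Finset.sum_add_distrib, S1_eq hexp K T hT j m,
      ← sum_sg j (fun y => HH T y.1 y.2.1 y.2.2 +
        HH T y.1 y.2.1 y.2.2 * TT q (a1 y.2.1) (j - m - 2 - y.2.2.natDegree) +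
        HH T y.1 y.2.1 y.2.2 * UU q (a0 y.2.1) (j - m - 1 - y.2.2.natDegree)), Finset.mul_sum]
    refine Finset.sum_congr rfl fun y hy => ?_
    have h1 := (hfel K y.2.1 (mem_YY.1 hy).2.1 (mem_YY.1 hy).2.2.2.1 (m - y.2.2.natDegree)).2
    rw [← hq] at h1
    have h2 := hdeg y hy
    have e1 : (y.2.1.natDegree : ℤ) - (m - y.2.2.natDegree) - 1 =
        j - m - 1 - (sg y).2.2.natDegree := by omega
    have e1' : (y.2.1.natDegree : ℤ) - (m - y.2.2.natDegree) - 2 =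
        j - m - 2 - (sg y).2.2.natDegree := by omega
    rw [e1, e1'] at h1
    have e3 : (sg y).2.1 = y.2.1 := rfl
    rw [h1, hdual y hy, e3]
    have e2 : q ^ (2 * m + 1 - (j : ℤ)) = q ^ ((2 * (y.2.2.natDegree : ℤ) + y.2.1.natDegree - j)) *
        q ^ (2 * (m - (y.2.2.natDegree : ℤ)) + 1 - y.2.1.natDegree) := by
      rw [← zpow_add₀ hq0]
      congr 1
      ring
    rw [e2]
    ring

end

end Pool.Agent.H6.C
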