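import Pool.Agent.H6.C.Stm

/-!
# The functional equation of the lattices (`S_fel`)
-/

set_option autoImplicit false

namespace Pool.Agent.H6.C

open Polynomial
open scoped Classical

noncomputable section

namespace Fel

/-- `q ^ ((y - a) + max 0 (y - b))` for `a ≤ y`, and zero otherwise -/
def ff (q : ℝ) (a b y : ℤ) : ℝ :=
  if a ≤ y then (if b ≤ y then q ^ (2 * y - a - b) else q ^ (y - a)) else 0

lemma ff_shift (q : ℝ) (a b y : ℤ) : ff q (a - 1) (b - 1) y = ff q a b (y + 1) := by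
  unfold ff
  have e1 : a - 1 ≤ y ↔ a ≤ y + 1 := by omega
  have e2 : b - 1 ≤ y ↔ b ≤ y + 1 := by omega
  have e3 : 2 * y - (a - 1) - (b - 1) = 2 * (y + 1) - a - b := by ring
  have e4 : y - (a - 1) = y + 1 - a := by ring
  simp only [e1, e2, e3, e4]

lemma ff_neg {q : ℝ} {a b y : ℤ} (h : y < a) : ff q a b y = 0 := by
  unfold ff
  rw [if_neg (by omega)]

lemma ff_big {q : ℝ} {a b y : ℤ} (h : a ≤ y) (h' : b ≤ y) : ff q a b y = q ^ (2 * y - a - b) := by
  unfold ff
  rw [if_pos h, if_pos h']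

lemma ff_mid {q : ℝ} {a b y : ℤ} (h : a ≤ y) (h' : y ≤ b) : ff q a b y = q ^ (y - a) := by
  unfold ff
  rw [if_pos h]
  split_ifs with h1
  · have : y = b := by omega
    subst this
    congr 1
    ring
  · rfl

/-- the difference of the functional equation -/
lemma step {q : ℝ} (hq : q ≠ 0) (a b x : ℤ) :
    q ^ (2 * x + 2 - a - b) * ff q a b (a + b - 1 - x) - q ^ (2 * x - a - b) * ff q a b (a + b - x) =
      (q - 1) * ff q a b x - ff q b (a - 1) x + q * ff q b (a - 1) (x - 1) := by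
  rcases lt_or_ge x a with h1 | h1
  · rcases lt_or_ge x b with h2 | h2
    · -- all the terms on the right vanish
      rw [ff_neg h1, ff_neg h2, ff_neg (by omega : x - 1 < b), ff_big (by omega) (by omega),
        ff_big (by omega) (by omega), ← zpow_add₀ hq, ← zpow_add₀ hq]
      have e1 : 2 * x + 2 - a - b + (2 * (a + b - 1 - x) - a - b) = 0 := by ring
      have e2 : 2 * x - a - b + (2 * (a + b - x) - a - b) = 0 := by ring
      rw [e1, e2]
      ring
    · -- `b ≤ x < a`
      rw [ff_neg h1, ff_neg (by omega : a + b - 1 - x < a), ff_mid h2 (by omega : x ≤ a - 1)]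
      rcases h2.eq_or_lt with h3 | h3
      · subst h3
        rw [ff_neg (by omega : b - 1 < b), ff_big (by omega) (by omega), ← zpow_add₀ hq]
        have e1 : 2 * b - a - b + (2 * (a + b - b) - a - b) = 0 := by ring
        rw [e1, sub_self, zpow_zero]
        ring
      · rw [ff_mid (by omega : b ≤ x - 1) (by omega : x - 1 ≤ a - 1),
          ff_neg (by omega : a + b - x < a)]
        have e1 : x - b = 1 + (x - 1 - b) := by ring
        rw [e1, zpow_add₀ hq, zpow_one]
        ring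
  · rcases lt_or_ge x b with h2 | h2
    · -- `a ≤ x < b`
      rw [ff_neg h2, ff_neg (by omega : x - 1 < b), ff_mid h1 h2.le,
        ff_mid (by omega : a ≤ a + b - 1 - x) (by omega), ff_mid (by omega : a ≤ a + b - x) (by omega),
        ← zpow_add₀ hq, ← zpow_add₀ hq]
      have e1 : 2 * x + 2 - a - b + (a + b - 1 - x - a) = 1 + (x - a) := by ring
      have e2 : 2 * x - a - b + (a + b - x - a) = x - a := by ring
      rw [e1, e2, zpow_add₀ hq, zpow_one]
      ring
    · rw [ff_neg (by omega : a + b - 1 - x < a), ff_big h1 h2, ff_big h2 (by omega : a - 1 ≤ x)]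
      rcases h2.eq_or_lt with h3 | h3
      · subst h3
        rw [ff_neg (by omega : b - 1 < b), ff_mid (by omega : a ≤ a + b - b) (by omega)]
        have e1 : 2 * b - b - (a - 1) = 1 + (2 * b - a - b) := by ring
        have e2 : a + b - b - a = 0 := by ring
        rw [e1, e2, zpow_add₀ hq, zpow_one, zpow_zero]
        ring
      · rw [ff_big (by omega : b ≤ x - 1) (by omega : a - 1 ≤ x - 1),
          ff_neg (by omega : a + b - x < a)]
        have e1 : 2 * x - b - (a - 1) = 1 + (2 * x - a - b) := by ring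
        have e2 : 2 * x - a - b = 1 + (2 * (x - 1) - b - (a - 1)) := by ring
        rw [e1, zpow_add₀ hq, zpow_one, e2, zpow_add₀ hq, zpow_one]
        ring

/-- the second form -/
lemma step' {q : ℝ} (hq : q ≠ 0) (a b x : ℤ) :
    q ^ (2 * x + 1 - a - b) * ff q b (a - 1) (a + b - 1 - x) -
      q ^ (2 * x - 1 - a - b) * ff q b (a - 1) (a + b - x) =
      (q - 1) * ff q b (a - 1) (x - 1) - ff q a b x + q * ff q a b (x - 1) := by
  have h := step hq b (a - 1) (x - 1)
  rw [ff_shift, ff_shift] at h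
  have e1 : 2 * (x - 1) + 2 - b - (a - 1) = 2 * x + 1 - a - b := by ring
  have e2 : b + (a - 1) - 1 - (x - 1) = a + b - 1 - x := by ring
  have e3 : 2 * (x - 1) - b - (a - 1) = 2 * x - 1 - a - b := by ring
  have e4 : b + (a - 1) - (x - 1) = a + b - x := by ring
  have e5 : x - 1 + 1 = x := by ring
  have e6 : x - 1 - 1 + 1 = x - 1 := by ring
  rw [e1, e2, e3, e4, e5, e6] at h
  exact h

/-- the first functional equation, for `M = k - 1` -/
lemma sum1 {q : ℝ} (hq : q ≠ 0) (a b : ℕ) (k : ℕ) :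
    1 + (q - 1) * ∑ i ∈ Finset.range k, ff q a b (i : ℤ) +
      ((q - 1) * ∑ i ∈ Finset.range k, ff q b (a - 1) (i : ℤ) - q * ff q b (a - 1) ((k : ℤ) - 1)) =
      q ^ (2 * (k : ℤ) - a - b) * ff q a b ((a : ℤ) + b - k) := by
  induction k with
  | zero =>
    rw [Finset.sum_range_zero, Finset.sum_range_zero, ff_neg (by push_cast; omega),
      ff_big (by push_cast; omega) (by push_cast; omega), ← zpow_add₀ hq]
    have e1 : 2 * ((0 : ℕ) : ℤ) - a - b + (2 * ((a : ℤ) + b - ((0 : ℕ) : ℤ)) - a - b) = 0 := by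
      push_cast
      ring
    rw [e1, zpow_zero]
    ring
  | succ k ih =>
    have h := step hq a b k
    rw [Finset.sum_range_succ, Finset.sum_range_succ]
    have e1 : (((k + 1 : ℕ) : ℤ) - 1) = k := by push_cast; ring
    have e2 : 2 * ((k + 1 : ℕ) : ℤ) - a - b = 2 * (k : ℤ) + 2 - a - b := by push_cast; ring
    have e3 : (a : ℤ) + b - ((k + 1 : ℕ) : ℤ) = a + b - 1 - k := by push_cast; ring
    rw [e1, e2, e3]
    linarith

/-- the second functional equation, for `M = k - 1` -/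
lemma sum2 {q : ℝ} (hq : q ≠ 0) (a b : ℕ) (k : ℕ) :
    1 + (q - 1) * ∑ i ∈ Finset.range (k - 1), ff q b (a - 1) (i : ℤ) +
      ((q - 1) * ∑ i ∈ Finset.range k, ff q a b (i : ℤ) - q * ff q a b ((k : ℤ) - 1)) =
      q ^ (2 * (k : ℤ) - 1 - a - b) * ff q b (a - 1) ((a : ℤ) + b - k) := by
  induction k with
  | zero =>
    rw [Nat.zero_sub, Finset.sum_range_zero, Finset.sum_range_zero, ff_neg (by push_cast; omega),
      ff_big (by push_cast; omega) (by push_cast; omega), ← zpow_add₀ hq]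
    have e1 : 2 * ((0 : ℕ) : ℤ) - 1 - a - b +
        (2 * ((a : ℤ) + b - ((0 : ℕ) : ℤ)) - b - ((a : ℤ) - 1)) = 0 := by
      push_cast
      ring
    rw [e1, zpow_zero]
    ring
  | succ k ih =>
    have h := step' hq a b k
    have e0 : ∑ i ∈ Finset.range (k + 1 - 1), ff q b (a - 1) (i : ℤ) =
        ∑ i ∈ Finset.range (k - 1), ff q b (a - 1) (i : ℤ) + ff q b (a - 1) ((k : ℤ) - 1) := by
      rcases Nat.eq_zero_or_pos k with h0 | h0
      · subst h0
        rw [ff_neg (by push_cast; omega)]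
        simp
      · obtain ⟨l, rfl⟩ : ∃ l, k = l + 1 := ⟨k - 1, by omega⟩
        have e9 : (((l + 1 : ℕ) : ℤ) - 1) = l := by push_cast; ring
        rw [Nat.add_sub_cancel, Nat.add_sub_cancel, Finset.sum_range_succ, e9]
    rw [e0, Finset.sum_range_succ]
    have e1 : (((k + 1 : ℕ) : ℤ) - 1) = k := by push_cast; ring
    have e2 : 2 * ((k + 1 : ℕ) : ℤ) - 1 - a - b = 2 * (k : ℤ) + 1 - a - b := by push_cast; ring
    have e3 : (a : ℤ) + b - ((k + 1 : ℕ) : ℤ) = a + b - 1 - k := by push_cast; ring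
    rw [e1, e2, e3]
    linarith

/-- the first functional equation -/
lemma eq1 {q : ℝ} (hq : q ≠ 0) (a b : ℕ) (M : ℤ) :
    1 + TT q (ff q a b) M + UU q (ff q b (a - 1)) M =
      q ^ (2 * M + 2 - a - b) * ff q a b ((a : ℤ) + b - 1 - M) := by
  unfold UU TT
  rcases lt_or_ge M (-1) with h | h
  · have h1 : (M + 1).toNat = 0 := by omega
    rw [h1, Finset.sum_range_zero, Finset.sum_range_zero, ff_neg (by omega),
      ff_big (by omega) (by omega), ← zpow_add₀ hq]
    have e1 : 2 * M + 2 - (a : ℤ) - b + (2 * ((a : ℤ) + b - 1 - M) - a - b) = 0 := by ring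
    rw [e1, zpow_zero]
    ring
  · obtain ⟨k, hk⟩ : ∃ k : ℕ, M = (k : ℤ) - 1 := ⟨(M + 1).toNat, by omega⟩
    subst hk
    have h1 : ((k : ℤ) - 1 + 1).toNat = k := by omega
    have h2 := sum1 hq a b k
    rw [h1]
    have e2 : 2 * ((k : ℤ) - 1) + 2 - a - b = 2 * (k : ℤ) - a - b := by ring
    have e3 : (a : ℤ) + b - 1 - ((k : ℤ) - 1) = a + b - k := by ring
    rw [e2, e3]
    exact h2

/-- the second functional equation -/
lemma eq2 {q : ℝ} (hq : q ≠ 0) (a b : ℕ) (M : ℤ) :
    1 + TT q (ff q b (a - 1)) (M - 1) + UU q (ff q a b) M =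
      q ^ (2 * M + 1 - a - b) * ff q b (a - 1) ((a : ℤ) + b - 1 - M) := by
  unfold UU TT
  rcases lt_or_ge M (-1) with h | h
  · have h1 : (M + 1).toNat = 0 := by omega
    have h2 : (M - 1 + 1).toNat = 0 := by omega
    rw [h1, h2, Finset.sum_range_zero, Finset.sum_range_zero, ff_neg (by omega),
      ff_big (by omega) (by omega), ← zpow_add₀ hq]
    have e1 : 2 * M + 1 - (a : ℤ) - b + (2 * ((a : ℤ) + b - 1 - M) - b - ((a : ℤ) - 1)) = 0 := by
      ring
    rw [e1, zpow_zero]
    ring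
  · obtain ⟨k, hk⟩ : ∃ k : ℕ, M = (k : ℤ) - 1 := ⟨(M + 1).toNat, by omega⟩
    subst hk
    have h1 : ((k : ℤ) - 1 + 1).toNat = k := by omega
    have h3 : ((k : ℤ) - 1 - 1 + 1).toNat = k - 1 := by omega
    have h2 := sum2 hq a b k
    rw [h1, h3]
    have e2 : 2 * ((k : ℤ) - 1) + 1 - a - b = 2 * (k : ℤ) - 1 - a - b := by ring
    have e3 : (a : ℤ) + b - 1 - ((k : ℤ) - 1) = a + b - k := by ring
    rw [e2, e3]
    exact h2

end Fel

open Fel

/-- **FEL.** -/
theorem fel (hlat2 : S_lat2) : S_fel := by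
  intro K _ _ _ D hD hsq m
  obtain ⟨a, b, hab, h⟩ := hlat2 K D hD hsq
  obtain ⟨q, hqd⟩ : ∃ q : ℝ, q = (Fintype.card K : ℝ) := ⟨_, rfl⟩
  have hq : q ≠ 0 := by
    rw [hqd]
    exact_mod_cast Fintype.card_ne_zero
  have h0 : a0 D = ff q a b := by
    funext y
    unfold a0 ff
    split_ifs with h1 h2 h3 h3
    · exfalso; omega
    · exfalso; omega
    · rfl
    · obtain ⟨M, rfl⟩ : ∃ M : ℕ, y = M := ⟨y.toNat, by omega⟩
      rw [Int.toNat_natCast, (h M).1, if_pos (by omega), hqd]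
      push_cast
      rw [← zpow_natCast]
      congr 1
      omega
    · obtain ⟨M, rfl⟩ : ∃ M : ℕ, y = M := ⟨y.toNat, by omega⟩
      rw [Int.toNat_natCast, (h M).1, if_pos (by omega), hqd]
      push_cast
      rw [← zpow_natCast]
      congr 1
      omega
    · obtain ⟨M, rfl⟩ : ∃ M : ℕ, y = M := ⟨y.toNat, by omega⟩
      rw [Int.toNat_natCast, (h M).1, if_neg (by omega), Nat.cast_zero]
  have h1 : a1 D = ff q b (a - 1) := by
    funext y
    unfold a1 ff
    split_ifs with h1 h2 h3 h3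
    · exfalso; omega
    · exfalso; omega
    · rfl
    · obtain ⟨M, rfl⟩ : ∃ M : ℕ, y = M := ⟨y.toNat, by omega⟩
      rw [Int.toNat_natCast, (h M).2, if_pos (by omega), hqd]
      push_cast
      rw [← zpow_natCast]
      congr 1
      omega
    · obtain ⟨M, rfl⟩ : ∃ M : ℕ, y = M := ⟨y.toNat, by omega⟩
      rw [Int.toNat_natCast, (h M).2, if_pos (by omega), hqd]
      push_cast
      rw [← zpow_natCast]
      congr 1
      omega
    · obtain ⟨M, rfl⟩ : ∃ M : ℕ, y = M := ⟨y.toNat, by omega⟩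
      rw [Int.toNat_natCast, (h M).2, if_neg (by omega), Nat.cast_zero]
  have hd : (D.natDegree : ℤ) = (a : ℤ) + b := by omega
  rw [h0, h1, ← hqd, hd]
  constructor
  · rw [eq1 hq, ← mul_assoc, ← zpow_add₀ hq]
    have e1 : 2 * m - ((a : ℤ) + b) + (2 * ((a : ℤ) + b - m - 1) + 2 - a - b) = 0 := by ring
    have e2 : (a : ℤ) + b - 1 - ((a : ℤ) + b - m - 1) = m := by ring
    rw [e1, e2, zpow_zero, one_mul]
  · have e0 : (a : ℤ) + b - m - 2 = ((a : ℤ) + b - m - 1) - 1 := by ring
    rw [e0, eq2 hq, ← mul_assoc, ← zpow_add₀ hq]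
    have e1 : 2 * m + 1 - ((a : ℤ) + b) + (2 * ((a : ℤ) + b - m - 1) + 1 - a - b) = 0 := by ring
    have e2 : (a : ℤ) + b - 1 - ((a : ℤ) + b - m - 1) = m := by ring
    rw [e1, e2, zpow_zero, one_mul]

end

end Pool.Agent.H6.C
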