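import Pool.Agent.H6.C.Stm

/-!
# Project WILSON-2: final assembly
-/

set_option autoImplicit false

namespace Pool.Agent.H6.C

open Polynomial
open scoped Classical
open Pool.Agent.H985.Chow (mob)
open Pool.Agent.H694.Typ (Mn PU Irn)
open Pool.Agent.H6.W (Wn)
open Pool.Agent.H290.CT (V)

noncomputable section

namespace FinA

theorem refl_sum (f : ℕ → ℝ) (m : ℕ) (h : ∀ j, j ≤ 4 * m + 1 → f j = - f (4 * m + 1 - j)) :
    ∑ j ∈ Finset.range (4 * m + 2), -((j : ℝ) * f j) =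
      ∑ j ∈ Finset.range (2 * m + 1), (4 * (m : ℝ) + 1 - 2 * j) * f j := by
  have e : 4 * m + 2 = (2 * m + 1) + (2 * m + 1) := by ring
  rw [e, Finset.sum_range_add, ← Finset.sum_range_reflect (fun x => -(((2 * m + 1 + x : ℕ) : ℝ) *
    f (2 * m + 1 + x))) (2 * m + 1), ← Finset.sum_add_distrib]
  refine Finset.sum_congr rfl fun j hj => ?_
  have hj' : j < 2 * m + 1 := Finset.mem_range.1 hj
  have e2 : 2 * m + 1 + (2 * m + 1 - 1 - j) = 4 * m + 1 - j := by omega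
  have h1 := h j (by omega)
  rw [e2, Nat.cast_sub (by omega)]
  have h2 : f (4 * m + 1 - j) = - f j := by linarith
  rw [h2]
  push_cast
  ring

theorem geo_sum (N : ℕ) : ∑ i ∈ Finset.range N, (2 * (i : ℝ) + 1) * (1 / 2) ^ i ≤ 6 := by
  have h : ∀ N : ℕ, ∑ i ∈ Finset.range N, (2 * (i : ℝ) + 1) * (1 / 2) ^ i =
      6 - (4 * (N : ℝ) + 6) * (1 / 2) ^ N := by
    intro N
    induction N with
    | zero => norm_num
    | succ N ih =>
      rw [Finset.sum_range_succ, ih, pow_succ]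
      push_cast
      ring
  rw [h]
  have : 0 ≤ (4 * (N : ℝ) + 6) * (1 / 2) ^ N := by positivity
  linarith

theorem abel (g : ℕ → ℝ) (a : ℝ) (J : ℕ) :
    ∑ j ∈ Finset.range (J + 1), (a - 2 * j) * (g j - if j = 0 then 0 else g (j - 1)) =
      (a - 2 * J) * g J + 2 * ∑ j ∈ Finset.range J, g j := by
  induction J with
  | zero => simp
  | succ J ih =>
    rw [Finset.sum_range_succ, ih, Finset.sum_range_succ _ J, if_neg (Nat.succ_ne_zero J),
      Nat.add_sub_cancel]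
    push_cast
    ring

theorem rpow_half {Q : ℝ} (hQ : 4 ≤ Q) (i : ℕ) : Q ^ (-((i : ℝ) / 2)) ≤ (1 / 2) ^ i := by
  have h1 : Q ^ (-((i : ℝ) / 2)) ≤ (4 : ℝ) ^ (-((i : ℝ) / 2)) :=
    Real.rpow_le_rpow_of_nonpos (by norm_num) hQ (by
      have : (0 : ℝ) ≤ (i : ℝ) / 2 := by positivity
      linarith)
  have h2 : (4 : ℝ) ^ (-((i : ℝ) / 2)) = (1 / 2) ^ i := by
    have e : (4 : ℝ) = (2 : ℝ) ^ (2 : ℝ) := by norm_num
    rw [e, ← Real.rpow_mul (by norm_num)]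
    have e2 : (2 : ℝ) * (-((i : ℝ) / 2)) = -(i : ℝ) := by ring
    rw [e2, Real.rpow_neg (by norm_num), Real.rpow_natCast, one_div, inv_pow]
  rw [h2] at h1
  exact h1

/-- the error sum -/
theorem err {Q : ℝ} (hQ : 4 ≤ Q) (B A : ℕ → ℝ) (C E : ℝ) (m : ℕ)
    (h : ∀ j, j ≤ 2 * m → |A j - B j| ≤ C * Q ^ (E - (2 * (m : ℝ) - j) / 2)) :
    |∑ j ∈ Finset.range (2 * m + 1), (4 * (m : ℝ) + 1 - 2 * j) * A j -
      ∑ j ∈ Finset.range (2 * m + 1), (4 * (m : ℝ) + 1 - 2 * j) * B j| ≤ 6 * |C| * Q ^ E := by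
  have hQ0 : 0 < Q := by linarith
  rw [← Finset.sum_sub_distrib]
  refine (Finset.abs_sum_le_sum_abs _ _).trans ?_
  have h1 : ∀ j ∈ Finset.range (2 * m + 1),
      |(4 * (m : ℝ) + 1 - 2 * j) * A j - (4 * (m : ℝ) + 1 - 2 * j) * B j| ≤
        |C| * Q ^ E * ((2 * ((2 * m + 1 - 1 - j : ℕ) : ℝ) + 1) * (1 / 2) ^ (2 * m + 1 - 1 - j)) := by
    intro j hj
    have hj' : j < 2 * m + 1 := Finset.mem_range.1 hj
    have hj2 : j ≤ 2 * m := by omega
    have ec : ((2 * m + 1 - 1 - j : ℕ) : ℝ) = 2 * (m : ℝ) - j := by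
      have e : 2 * m + 1 - 1 - j = 2 * m - j := by omega
      rw [e, Nat.cast_sub hj2]
      push_cast
      ring
    have hnn : (0 : ℝ) ≤ 2 * (m : ℝ) - j := by
      rw [← ec]
      exact Nat.cast_nonneg _
    rw [← mul_sub, abs_mul, abs_of_nonneg (by linarith : (0 : ℝ) ≤ 4 * (m : ℝ) + 1 - 2 * j)]
    have h2 := rpow_half hQ (2 * m + 1 - 1 - j)
    rw [ec] at h2 ⊢
    have h3 : Q ^ (E - (2 * (m : ℝ) - j) / 2) = Q ^ E * Q ^ (-((2 * (m : ℝ) - j) / 2)) := by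
      rw [← Real.rpow_add hQ0]
      congr 1
    have h4 : |A j - B j| ≤ |C| * (Q ^ E * (1 / 2) ^ (2 * m + 1 - 1 - j)) := by
      refine (h j hj2).trans ?_
      rw [h3]
      exact mul_le_mul (le_abs_self C)
        (mul_le_mul_of_nonneg_left h2 (Real.rpow_nonneg hQ0.le _))
        (mul_nonneg (Real.rpow_nonneg hQ0.le _) (Real.rpow_nonneg hQ0.le _)) (abs_nonneg C)
    calc (4 * (m : ℝ) + 1 - 2 * j) * |A j - B j|
        ≤ (4 * (m : ℝ) + 1 - 2 * j) * (|C| * (Q ^ E * (1 / 2) ^ (2 * m + 1 - 1 - j))) :=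
          mul_le_mul_of_nonneg_left h4 (by linarith)
      _ = _ := by ring
  refine (Finset.sum_le_sum h1).trans ?_
  rw [← Finset.mul_sum, Finset.sum_range_reflect (fun i : ℕ => (2 * (i : ℝ) + 1) * (1 / 2) ^ i)
    (2 * m + 1)]
  have h5 := geo_sum (2 * m + 1)
  have h6 : 0 ≤ |C| * Q ^ E := mul_nonneg (abs_nonneg C) (Real.rpow_nonneg hQ0.le _)
  calc |C| * Q ^ E * ∑ i ∈ Finset.range (2 * m + 1), (2 * (i : ℝ) + 1) * (1 / 2) ^ i
      ≤ |C| * Q ^ E * 6 := mul_le_mul_of_nonneg_left h5 h6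
    _ = _ := by ring

/-- the main term -/
theorem main_term {Q : ℝ} (hQ : 4 ≤ Q) (c g : ℕ → ℝ) (C θ : ℝ) (hθ : 0 < θ)
    (hg : ∀ j : ℕ, |g j| ≤ C * Q ^ (-(θ * j))) (hs : HasSum g 1)
    (hc : ∀ j : ℕ, c j = Q ^ j * (g j - if j = 0 then 0 else g (j - 1))) (m : ℕ) :
    |∑ j ∈ Finset.range (2 * m + 1), (4 * (m : ℝ) + 1 - 2 * j) *
      (Q ^ ((2 * (m : ℝ) + 1) - j) * c j) - 2 * Q ^ (2 * m + 1)| ≤
      |C| * (1 + 2 / (1 - Q ^ (-θ))) * Q ^ θ * Q ^ ((1 - θ) * (2 * m + 1)) := by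
  have hQ0 : 0 < Q := by linarith
  have hQ1 : 1 < Q := by linarith
  have hx0 : 0 < Q ^ (-θ) := Real.rpow_pos_of_pos hQ0 _
  have hx1 : Q ^ (-θ) < 1 := Real.rpow_lt_one_of_one_lt_of_neg hQ1 (by linarith)
  have hg' : ∀ j : ℕ, ‖g j‖ ≤ |C| * (Q ^ (-θ)) ^ j := by
    intro j
    rw [Real.norm_eq_abs]
    refine (hg j).trans ?_
    have e : Q ^ (-(θ * j)) = (Q ^ (-θ)) ^ j := by
      rw [← Real.rpow_natCast, ← Real.rpow_mul hQ0.le]
      congr 1
      ring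
    rw [e]
    exact mul_le_mul_of_nonneg_right (le_abs_self C) (pow_nonneg hx0.le _)
  have h1 := norm_sub_le_of_geometric_bound_of_hasSum hx1 hg' hs (2 * m)
  rw [Real.norm_eq_abs] at h1
  have h2 := hg' (2 * m)
  rw [Real.norm_eq_abs] at h2
  have h3 : ∑ j ∈ Finset.range (2 * m + 1), (4 * (m : ℝ) + 1 - 2 * j) *
      (Q ^ ((2 * (m : ℝ) + 1) - j) * c j) =
      Q ^ (2 * m + 1) * (g (2 * m) + 2 * ∑ j ∈ Finset.range (2 * m), g j) := by
    have h4 := abel g (4 * (m : ℝ) + 1) (2 * m)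
    have e : (4 * (m : ℝ) + 1 - 2 * ((2 * m : ℕ) : ℝ)) * g (2 * m) = g (2 * m) := by
      push_cast
      ring
    rw [e] at h4
    rw [← h4, Finset.mul_sum]
    refine Finset.sum_congr rfl fun j _ => ?_
    rw [hc j, Real.rpow_sub hQ0, Real.rpow_natCast]
    have e2 : Q ^ (2 * (m : ℝ) + 1) = Q ^ (2 * m + 1) := by
      rw [← Real.rpow_natCast]
      push_cast
      rfl
    rw [e2]
    have hj : Q ^ j ≠ 0 := pow_ne_zero _ hQ0.ne'
    field_simp
  rw [h3]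
  have e4 : Q ^ (2 * m + 1) * (g (2 * m) + 2 * ∑ j ∈ Finset.range (2 * m), g j) -
      2 * Q ^ (2 * m + 1) =
      Q ^ (2 * m + 1) * (g (2 * m) + 2 * (∑ j ∈ Finset.range (2 * m), g j - 1)) := by ring
  rw [e4, abs_mul, abs_of_pos (pow_pos hQ0 _)]
  have h5 : |g (2 * m) + 2 * (∑ j ∈ Finset.range (2 * m), g j - 1)| ≤
      |C| * (1 + 2 / (1 - Q ^ (-θ))) * (Q ^ (-θ)) ^ (2 * m) := by
    refine (abs_add_le _ _).trans ?_
    rw [abs_mul, abs_of_pos (by norm_num : (0 : ℝ) < 2)]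
    refine (add_le_add h2 (mul_le_mul_of_nonneg_left h1 (by norm_num))).trans (le_of_eq ?_)
    ring
  have h6 : Q ^ (2 * m + 1) * (Q ^ (-θ)) ^ (2 * m) = Q ^ θ * Q ^ ((1 - θ) * (2 * m + 1)) := by
    rw [← Real.rpow_natCast, ← Real.rpow_natCast, ← Real.rpow_mul hQ0.le, ← Real.rpow_add hQ0,
      ← Real.rpow_add hQ0]
    congr 1
    push_cast
    ring
  calc Q ^ (2 * m + 1) * |g (2 * m) + 2 * (∑ j ∈ Finset.range (2 * m), g j - 1)|
      ≤ Q ^ (2 * m + 1) * (|C| * (1 + 2 / (1 - Q ^ (-θ))) * (Q ^ (-θ)) ^ (2 * m)) :=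
        mul_le_mul_of_nonneg_left h5 (pow_pos hQ0 _).le
    _ = |C| * (1 + 2 / (1 - Q ^ (-θ))) * (Q ^ (2 * m + 1) * (Q ^ (-θ)) ^ (2 * m)) := by ring
    _ = _ := by rw [h6]; ring

theorem Wn_eq (hw : S_wil) (K : Type) [Field K] [Fintype K] [CharP K 2] (n : ℕ) :
    Wn K n = ((WB K n).filter (fun N => Irreducible N)).card := by
  unfold Wn WB
  rw [Finset.filter_filter]
  congr 1
  refine Finset.filter_congr fun P hP => ?_
  rw [Pool.Agent.H694.Typ.mem_Mn] at hP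
  constructor
  · rintro ⟨h1, h2⟩
    exact ⟨(hw K n P hP.1 hP.2 h1).1 h2, h1⟩
  · rintro ⟨h1, h2⟩
    exact ⟨h2, (hw K n P hP.1 hP.2 h2).2 h1⟩

theorem mob_irr {K : Type} [Field K] {N : K[X]} (h : Irreducible N) : mob N = -1 := by
  unfold mob
  rw [if_pos h.squarefree]
  obtain ⟨p, _, hp⟩ := prime_factors_irreducible h
    ⟨fun b hb => UniqueFactorizationMonoid.prime_of_factor b hb,
      UniqueFactorizationMonoid.factors_prod h.ne_zero⟩
  rw [hp, Multiset.card_singleton, pow_one]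

theorem choose_odd {n : ℕ} (h : n % 4 = 2 ∨ n % 4 = 3) : n.choose 2 % 2 = 1 := by
  rw [Nat.choose_two_right]
  obtain ⟨a, ha⟩ : ∃ a, n = 4 * a + n % 4 := ⟨n / 4, (Nat.div_add_mod n 4).symm⟩
  rcases h with h | h
  · rw [h] at ha
    have e : n * (n - 1) / 2 = (2 * a + 1) * (4 * a + 1) := by
      rw [ha]
      have e1 : (4 * a + 2) * (4 * a + 2 - 1) = 2 * ((2 * a + 1) * (4 * a + 1)) := by
        have e2 : 4 * a + 2 - 1 = 4 * a + 1 := by omega
        rw [e2]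
        ring
      rw [e1, Nat.mul_div_cancel_left _ (by norm_num)]
    rw [e, Nat.mul_mod]
    have h1 : (2 * a + 1) % 2 = 1 := by omega
    have h2 : (4 * a + 1) % 2 = 1 := by omega
    rw [h1, h2]
  · rw [h] at ha
    have e : n * (n - 1) / 2 = (4 * a + 3) * (2 * a + 1) := by
      rw [ha]
      have e1 : (4 * a + 3) * (4 * a + 3 - 1) = 2 * ((4 * a + 3) * (2 * a + 1)) := by
        have e2 : 4 * a + 3 - 1 = 4 * a + 2 := by omega
        rw [e2]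
        ring
      rw [e1, Nat.mul_div_cancel_left _ (by norm_num)]
    rw [e, Nat.mul_mod]
    have h1 : (2 * a + 1) % 2 = 1 := by omega
    have h2 : (4 * a + 3) % 2 = 1 := by omega
    rw [h1, h2]

theorem WB_empty {K : Type} [Field K] [Fintype K] [CharP K 2] {n : ℕ}
    (h : n % 4 = 2 ∨ n % 4 = 3) (N : K[X]) (hN : N ∈ WB K n) : False := by
  unfold WB at hN
  rw [Finset.mem_filter, Pool.Agent.H694.Typ.mem_Mn] at hN
  obtain ⟨⟨h1, h2⟩, h3⟩ := hN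
  have h4 := congrArg (fun f : K[X] => f.coeff (n - 2)) h3
  simp only [hasseDeriv_coeff, coeff_zero] at h4
  have hn : n - 2 + 2 = n := by omega
  rw [hn] at h4
  have h5 : N.coeff n = 1 := by
    rw [← h2]
    exact h1
  rw [h5, mul_one] at h4
  have h6 := (CharP.cast_eq_zero_iff K 2 (n.choose 2)).1 h4
  have h7 := choose_odd h
  omega

end FinA

open FinA in
theorem fin : S_fin := by
  intro hw hp hl hr hf hb hd K _ _ _ hsq
  have hq4 : 4 ≤ Fintype.card K := by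
    obtain ⟨r, hr⟩ := hsq
    have h1 : 1 < Fintype.card K := Fintype.one_lt_card
    have h2 : 2 ≤ r := by
      by_contra hc
      have h3 : r ≤ 1 := by omega
      have h4 : r * r ≤ 1 * 1 := Nat.mul_le_mul h3 h3
      omega
    have h5 : 2 * 2 ≤ r * r := Nat.mul_le_mul h2 h2
    omega
  have hQ : (4 : ℝ) ≤ (Fintype.card K : ℝ) := by exact_mod_cast hq4
  have hT : ∃ T : ℕ → ℕ → ℕ → ℝ, Tabs K T := by
    have h1 : ∀ d : ℕ, ∃ e : ℕ → ℕ → ℝ, 1 ≤ d → Tab ((Fintype.card K : ℝ) ^ d) e := by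
      intro d
      by_cases h : 1 ≤ d
      · obtain ⟨e, he⟩ := hl ((Fintype.card K : ℝ) ^ d)
          (hQ.trans (le_self_pow₀ (by linarith) (by omega)))
        exact ⟨e, fun _ => he⟩
      · exact ⟨fun _ _ => 0, fun h' => absurd h' h⟩
    choose T hT using h1
    exact ⟨T, hT⟩
  obtain ⟨T, hT⟩ := hT
  refine ⟨?_, ?_⟩
  · obtain ⟨θb, hθb, Cb, hbb⟩ := hb K T hsq hT
    obtain ⟨θr, hθr, Cr, g, hg1, hg2, hg3⟩ := hr K T hq4 hT
    obtain ⟨θd, hθd, Cd, hdd⟩ := hd K T hq4 hT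
    have hQ0 : (0 : ℝ) < (Fintype.card K : ℝ) := by linarith
    have hQ1 : (1 : ℝ) ≤ (Fintype.card K : ℝ) := by linarith
    refine ⟨min θb (min θr θd), lt_min hθb (lt_min hθr hθd), |Cd| +
      6 * |Cb| * (Fintype.card K : ℝ) ^ θb +
      |Cr| * (1 + 2 / (1 - (Fintype.card K : ℝ) ^ (-θr))) * (Fintype.card K : ℝ) ^ θr,
      fun m => ?_⟩
    set Q : ℝ := (Fintype.card K : ℝ) with hQdef
    set θ := min θb (min θr θd) with hθ
    have hmono : ∀ θ' : ℝ, θ ≤ θ' →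
        Q ^ ((1 - θ') * (2 * (m : ℝ) + 1)) ≤ Q ^ ((1 - θ) * (2 * (m : ℝ) + 1)) := by
      intro θ' h
      refine Real.rpow_le_rpow_of_exponent_le hQ1 (mul_le_mul_of_nonneg_right (by linarith) ?_)
      positivity
    have hb1 : θ ≤ θb := min_le_left _ _
    have hr1 : θ ≤ θr := (min_le_right _ _).trans (min_le_left _ _)
    have hd1 : θ ≤ θd := (min_le_right _ _).trans (min_le_right _ _)
    have hX : 0 ≤ Q ^ ((1 - θ) * (2 * (m : ℝ) + 1)) := Real.rpow_nonneg hQ0.le _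
    have s1 := refl_sum (SS K T (4 * m + 1)) m (fun j hj => by
      have h := (hf K T hsq hT (4 * m + 1) j).1 hj
      rw [h, Odd.neg_one_pow ⟨2 * m, by ring⟩]
      ring)
    have s2 := err hQ (fun j => Q ^ ((2 * (m : ℝ) + 1) - j) * cc K T j) (SS K T (4 * m + 1)) Cb
      ((2 * (m : ℝ) + 1) - 2 * θb * m) m (fun j hj => hbb m j hj)
    have s3 := main_term hQ (cc K T) g Cr θr hθr hg1 hg2 hg3 m
    have s4 := hdd m
    rw [← Wn_eq hw K (4 * m + 1), s1] at s4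
    have e1 : Q ^ ((2 * (m : ℝ) + 1) - 2 * θb * m) =
        Q ^ θb * Q ^ ((1 - θb) * (2 * (m : ℝ) + 1)) := by
      rw [← Real.rpow_add hQ0]
      congr 1
      ring
    rw [e1] at s2
    have t4 : Cd * Q ^ ((1 - θd) * (2 * (m : ℝ) + 1)) ≤
        |Cd| * Q ^ ((1 - θ) * (2 * (m : ℝ) + 1)) :=
      mul_le_mul (le_abs_self Cd) (hmono θd hd1) (Real.rpow_nonneg hQ0.le _) (abs_nonneg Cd)
    have t2 : 6 * |Cb| * (Q ^ θb * Q ^ ((1 - θb) * (2 * (m : ℝ) + 1))) ≤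
        6 * |Cb| * Q ^ θb * Q ^ ((1 - θ) * (2 * (m : ℝ) + 1)) := by
      rw [← mul_assoc]
      exact mul_le_mul_of_nonneg_left (hmono θb hb1) (mul_nonneg (by positivity)
        (Real.rpow_nonneg hQ0.le _))
    have hx1 : Q ^ (-θr) < 1 := Real.rpow_lt_one_of_one_lt_of_neg (by linarith) (by linarith)
    have t3 : |Cr| * (1 + 2 / (1 - Q ^ (-θr))) * Q ^ θr * Q ^ ((1 - θr) * (2 * (m : ℝ) + 1)) ≤
        |Cr| * (1 + 2 / (1 - Q ^ (-θr))) * Q ^ θr * Q ^ ((1 - θ) * (2 * (m : ℝ) + 1)) := by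
      refine mul_le_mul_of_nonneg_left (hmono θr hr1) ?_
      refine mul_nonneg (mul_nonneg (abs_nonneg _) ?_) (Real.rpow_nonneg hQ0.le _)
      have : 0 ≤ 2 / (1 - Q ^ (-θr)) := div_nonneg (by norm_num) (by linarith)
      linarith
    rw [abs_le] at s2 s3 s4
    rw [abs_le, add_mul, add_mul]
    constructor
    · linarith [s2.1, s2.2, s3.1, s3.2, s4.1, s4.2]
    · linarith [s2.1, s2.2, s3.1, s3.2, s4.1, s4.2]
  · intro n hn
    rw [Wn_eq hw K n, Finset.card_eq_zero, Finset.filter_eq_empty_iff]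
    intro N hN hirr
    by_cases h : n % 4 = 2 ∨ n % 4 = 3
    · exact WB_empty h N hN
    · have h0 : n % 4 = 0 := by omega
      have h1 := hp K hsq n N hN hirr.squarefree
      rw [mob_irr hirr, Even.neg_one_pow ⟨n / 2, by omega⟩] at h1
      norm_num at h1

end

end Pool.Agent.H6.C
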