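import Pool.Agent.H6.C.Stm

/-!
# WILSON-2 LAT2 (helper102): multiples of `D` among the `F ^ 4 + X G ^ 4`
-/

set_option autoImplicit false
set_option linter.unusedSectionVars false

namespace Pool.Agent.H6.C

open Polynomial
open scoped Classical
open Pool.Agent.H694.Typ (Mn mem_Mn card_Mn card_dvd)
open Pool.Agent.H290.CT (V mem_V card_V)

noncomputable section

namespace Lat2

variable {K : Type} [Field K] [Fintype K] [CharP K 2]

theorem twoK : (2 : K) = 0 := by
  have : ((2 : ℕ) : K) = 0 := CharP.cast_eq_zero K 2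
  exact_mod_cast this

theorem two : (2 : K[X]) = 0 := by
  have h : (2 : K[X]) = C (2 : K) := (map_ofNat (C : K →+* K[X]) 2).symm
  rw [h, twoK, C_0]

theorem p4_add (a b : K[X]) : (a + b) ^ 4 = a ^ 4 + b ^ 4 := by
  linear_combination (2 * a ^ 3 * b + 3 * a ^ 2 * b ^ 2 + 2 * a * b ^ 3) * (two (K := K))

theorem p4_sub (a b : K[X]) : (a - b) ^ 4 = a ^ 4 - b ^ 4 := by
  linear_combination (-2 * a ^ 3 * b + 3 * a ^ 2 * b ^ 2 - 2 * a * b ^ 3 + b ^ 4) *
    (two (K := K))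

theorem der_sq (a : K[X]) : derivative (a ^ 2) = 0 := by
  rw [derivative_pow]
  have h : C ((2 : ℕ) : K) = 0 := by
    rw [CharP.cast_eq_zero K 2, C_0]
  rw [h, zero_mul, zero_mul]

theorem hd_mul (f g : K[X]) : hasseDeriv 2 (f * g) =
    f * hasseDeriv 2 g + derivative f * derivative g + hasseDeriv 2 f * g := by
  rw [hasseDeriv_mul]
  simp only [Finset.Nat.antidiagonal_succ, Finset.Nat.antidiagonal_zero, Finset.map_singleton,
    Finset.sum_cons, Finset.sum_singleton, Finset.map_cons, hasseDeriv_zero',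
    hasseDeriv_one, Function.Embedding.prodMap, Function.Embedding.coeFn_mk, Prod.map,
    Function.Embedding.refl_apply]
  have e1 : (hasseDeriv 1 : K[X] →ₗ[K] K[X]) g = derivative g := by rw [hasseDeriv_one]
  linear_combination (derivative f) * e1

theorem hd_p4 (a : K[X]) : hasseDeriv 2 (a ^ 4) = 0 := by
  have h : a ^ 4 = a ^ 2 * a ^ 2 := by ring
  rw [h, hd_mul, der_sq]
  linear_combination (a ^ 2 * hasseDeriv 2 (a ^ 2)) * (two (K := K))

theorem der_p4 (a : K[X]) : derivative (a ^ 4) = 0 := by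
  have h : a ^ 4 = (a ^ 2) ^ 2 := by ring
  rw [h, der_sq]

theorem hd4 (a M : K[X]) : hasseDeriv 2 (a ^ 4 * M) = a ^ 4 * hasseDeriv 2 M := by
  rw [hd_mul, hd_p4, der_p4]
  ring

theorem p4K_inj {x y : K} (h : x ^ 4 = y ^ 4) : x = y := by
  have h1 : (x - y) ^ 4 = 0 := by
    linear_combination h + (-2 * x ^ 3 * y + 3 * x ^ 2 * y ^ 2 - 2 * x * y ^ 3 + y ^ 4) *
      (twoK (K := K))
  exact sub_eq_zero.1 (pow_eq_zero_iff (by norm_num) |>.1 h1)

theorem exists_p4 (r : K) : ∃ s : K, s ^ 4 = r := by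
  have h : Function.Injective fun x : K => x ^ 4 := fun x y h => p4K_inj h
  exact Finite.surjective_of_injective h r

theorem deg_mod {N : K[X]} (h0 : N ≠ 0) (h : hasseDeriv 2 N = 0) :
    N.natDegree % 4 = 0 ∨ N.natDegree % 4 = 1 := by
  by_contra hcon
  obtain ⟨t, ht⟩ : ∃ t, N.natDegree = 4 * t + 2 ∨ N.natDegree = 4 * t + 3 :=
    ⟨N.natDegree / 4, by omega⟩
  have h1 := congrArg (fun p : K[X] => p.coeff (N.natDegree - 2)) h
  simp only [hasseDeriv_coeff, coeff_zero] at h1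
  have e : N.natDegree - 2 + 2 = N.natDegree := by omega
  rw [e, coeff_natDegree] at h1
  have h2 : ∃ s : ℕ, N.natDegree.choose 2 = 2 * s + 1 := by
    rw [Nat.choose_two_right]
    rcases ht with ht | ht
    · refine ⟨4 * t ^ 2 + 3 * t, ?_⟩
      rw [ht]
      have e2 : (4 * t + 2) * (4 * t + 2 - 1) = (2 * (4 * t ^ 2 + 3 * t) + 1) * 2 := by
        have e3 : 4 * t + 2 - 1 = 4 * t + 1 := by omega
        rw [e3]
        ring
      rw [e2]
      exact Nat.mul_div_cancel _ (by norm_num)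
    · refine ⟨4 * t ^ 2 + 5 * t + 1, ?_⟩
      rw [ht]
      have e2 : (4 * t + 3) * (4 * t + 3 - 1) = (2 * (4 * t ^ 2 + 5 * t + 1) + 1) * 2 := by
        have e3 : 4 * t + 3 - 1 = 4 * t + 2 := by omega
        rw [e3]
        ring
      rw [e2]
      exact Nat.mul_div_cancel _ (by norm_num)
  obtain ⟨s, hs⟩ := h2
  rw [hs] at h1
  push_cast at h1
  have h3 : N.leadingCoeff = 0 := by
    linear_combination h1 - (s : K) * N.leadingCoeff * (twoK (K := K))
  exact h0 (leadingCoeff_eq_zero.1 h3)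

/-- minimal elements of a class -/
theorem exists_min (D : K[X]) (hD : D.Monic) (i : ℕ) (hi : i < 2) :
    ∃ F : K[X], F.Monic ∧ F.natDegree % 4 = i ∧ D ∣ F ∧ hasseDeriv 2 F = 0 ∧
      ∀ M : K[X], M ≠ 0 → D ∣ M → hasseDeriv 2 M = 0 →
        M.natDegree % 4 = i → F.natDegree ≤ M.natDegree := by
  have hex : ∃ d : ℕ, ∃ F : K[X], F.Monic ∧ F.natDegree = d ∧ d % 4 = i ∧ D ∣ F ∧
      hasseDeriv 2 F = 0 := by
    refine ⟨4 * D.natDegree + i, D ^ 4 * X ^ i, (hD.pow 4).mul (monic_X_pow i), ?_, by omega, ?_,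
      ?_⟩
    · rw [(hD.pow 4).natDegree_mul (monic_X_pow i), hD.natDegree_pow, natDegree_X_pow]
    · exact Dvd.dvd.mul_right (dvd_pow_self D (by norm_num)) _
    · rw [hd4]
      interval_cases i
      · rw [pow_zero, hasseDeriv_apply_one 2 (by norm_num), mul_zero]
      · rw [pow_one, hasseDeriv_X 2 (by norm_num), mul_zero]
  obtain ⟨F, hF1, hF2, hF3, hF4, hF5⟩ := Nat.find_spec hex
  refine ⟨F, hF1, by rw [hF2]; exact hF3, hF4, hF5, fun M hM hM1 hM2 hM3 => ?_⟩
  rw [hF2]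
  refine Nat.find_min' hex ⟨C M.leadingCoeff⁻¹ * M, ?_, ?_, hM3, ?_, ?_⟩
  · rw [mul_comm]
    exact monic_mul_leadingCoeff_inv hM
  · exact natDegree_C_mul (inv_ne_zero (leadingCoeff_ne_zero.2 hM))
  · exact Dvd.dvd.mul_left hM1 _
  · rw [← smul_eq_C_mul, map_smul, hM2, smul_zero]

/-- one step of the reduction -/
theorem step {D F M : K[X]} (hF : F.Monic)
    (hFM : F.natDegree ≤ M.natDegree) (hmod : M.natDegree % 4 = F.natDegree % 4) (hM : M ≠ 0)
    (hDF : D ∣ F) (h1 : hasseDeriv 2 F = 0) (hDM : D ∣ M) (h2 : hasseDeriv 2 M = 0) :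
    ∃ a : K[X], (M - a ^ 4 * F).degree < M.degree ∧ D ∣ M - a ^ 4 * F ∧
      hasseDeriv 2 (M - a ^ 4 * F) = 0 := by
  obtain ⟨s, hs⟩ := exists_p4 M.leadingCoeff
  obtain ⟨j, hj⟩ : ∃ j, M.natDegree = 4 * j + F.natDegree :=
    ⟨(M.natDegree - F.natDegree) / 4, by omega⟩
  have e1 : (C s * X ^ j) ^ 4 * F = C M.leadingCoeff * (X ^ (4 * j) * F) := by
    rw [← hs, C_pow]; ring
  have hm : (X ^ (4 * j) * F).Monic := (monic_X_pow _).mul hF
  have hd : (X ^ (4 * j) * F).natDegree = M.natDegree := by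
    rw [(monic_X_pow (4 * j)).natDegree_mul hF, natDegree_X_pow, hj]
  refine ⟨C s * X ^ j, ?_, dvd_sub hDM (Dvd.dvd.mul_left hDF _), ?_⟩
  · rw [e1]
    have hlc0 : M.leadingCoeff ≠ 0 := leadingCoeff_ne_zero.2 hM
    refine degree_sub_lt_left ?_ hM ?_
    · rw [degree_C_mul hlc0, degree_eq_natDegree hM, degree_eq_natDegree hm.ne_zero, hd]
    · rw [leadingCoeff_mul, leadingCoeff_C, hm.leadingCoeff, mul_one]
  · rw [map_sub, h2, hd4, h1, mul_zero, sub_zero]

theorem span {D F G : K[X]} (hF : F.Monic) (hG : G.Monic)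
    (hF3 : F.natDegree % 4 = 0) (hG3 : G.natDegree % 4 = 1)
    (hDF : D ∣ F) (hDG : D ∣ G)
    (hF2 : hasseDeriv 2 F = 0) (hG2 : hasseDeriv 2 G = 0)
    (hFm : ∀ M : K[X], M ≠ 0 → D ∣ M → hasseDeriv 2 M = 0 →
        M.natDegree % 4 = 0 → F.natDegree ≤ M.natDegree)
    (hGm : ∀ M : K[X], M ≠ 0 → D ∣ M → hasseDeriv 2 M = 0 →
        M.natDegree % 4 = 1 → G.natDegree ≤ M.natDegree)
    (n : ℕ) : ∀ M : K[X], M.degree < n → D ∣ M → hasseDeriv 2 M = 0 →
      ∃ a b : K[X], M = a ^ 4 * F + b ^ 4 * G := by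
  induction n with
  | zero =>
    intro M hM _ _
    have h0 : M = 0 := by
      rw [← degree_eq_bot]
      exact Nat.WithBot.lt_zero_iff.1 (by simpa using hM)
    exact ⟨0, 0, by rw [h0]; ring⟩
  | succ n ih =>
    intro M hM hDM h2
    by_cases h0 : M = 0
    · exact ⟨0, 0, by rw [h0]; ring⟩
    have hdn : ∀ E : K[X], E.degree < M.degree → E.degree < n := by
      intro E hE
      rw [degree_eq_natDegree h0] at hE hM
      have h3 : M.natDegree ≤ n := by
        have : M.natDegree < n + 1 := by exact_mod_cast hM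
        omega
      exact lt_of_lt_of_le hE (by exact_mod_cast h3)
    rcases deg_mod h0 h2 with h4 | h4
    · obtain ⟨a, ha1, ha2, ha3⟩ := step hF (hFm M h0 hDM h2 h4) (by omega) h0 hDF hF2 hDM h2
      obtain ⟨a', b', he⟩ := ih _ (hdn _ ha1) ha2 ha3
      refine ⟨a' + a, b', ?_⟩
      rw [p4_add]
      linear_combination he
    · obtain ⟨a, ha1, ha2, ha3⟩ := step hG (hGm M h0 hDM h2 h4) (by omega) h0 hDG hG2 hDM h2
      obtain ⟨a', b', he⟩ := ih _ (hdn _ ha1) ha2 ha3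
      refine ⟨a', b' + a, ?_⟩
      rw [p4_add]
      linear_combination he

theorem nd {a p : K[X]} (hp : p.Monic) (ha : a ≠ 0) :
    (a ^ 4 * p).natDegree = 4 * a.natDegree + p.natDegree := by
  rw [natDegree_mul (pow_ne_zero 4 ha) hp.ne_zero, natDegree_pow]

theorem inj {p q a b a' b' : K[X]} (hp : p.Monic) (hq : q.Monic)
    (hne : p.natDegree % 4 ≠ q.natDegree % 4)
    (h : a ^ 4 * p + b ^ 4 * q = a' ^ 4 * p + b' ^ 4 * q) : a = a' ∧ b = b' := by
  have h1 : (a - a') ^ 4 * p = (b' - b) ^ 4 * q := by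
    rw [p4_sub, p4_sub]
    linear_combination h
  by_cases ha : a - a' = 0
  · rw [ha, zero_pow (by norm_num), zero_mul] at h1
    have h2 : (b' - b) ^ 4 = 0 := by
      rcases mul_eq_zero.mp h1.symm with h2 | h2
      · exact h2
      · exact absurd h2 hq.ne_zero
    have h3 : b' - b = 0 := (pow_eq_zero_iff (by norm_num)).mp h2
    exact ⟨sub_eq_zero.mp ha, (sub_eq_zero.mp h3).symm⟩
  · exfalso
    have hb : b' - b ≠ 0 := by
      intro hb
      rw [hb, zero_pow (by norm_num), zero_mul] at h1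
      exact mul_ne_zero (pow_ne_zero 4 ha) hp.ne_zero h1
    have h2 := congrArg natDegree h1
    rw [nd hp ha, nd hq hb] at h2
    omega

theorem key {p q : K[X]} (hp : p.Monic) (hq : q.Monic) (m : ℕ) (hpm : p.natDegree % 4 = m % 4)
    (hqm : q.natDegree % 4 ≠ m % 4) (a b : K[X]) :
    ((a ^ 4 * p + b ^ 4 * q).Monic ∧ (a ^ 4 * p + b ^ 4 * q).natDegree = m) ↔
      (a.Monic ∧ 4 * a.natDegree + p.natDegree = m ∧ b ∈ V K ((m - q.natDegree + 3) / 4)) := by
  have hdeg : b ∈ V K ((m - q.natDegree + 3) / 4) ↔ (b ^ 4 * q).degree < (m : ℕ) := by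
    rw [mem_V]
    by_cases hb : b = 0
    · rw [hb, zero_pow (by norm_num), zero_mul, degree_zero]
      exact ⟨fun _ => WithBot.bot_lt_coe _, fun _ => WithBot.bot_lt_coe _⟩
    · rw [degree_eq_natDegree hb, degree_eq_natDegree (mul_ne_zero (pow_ne_zero 4 hb) hq.ne_zero),
        nd hq hb, Nat.cast_lt, Nat.cast_lt]
      omega
  constructor
  · rintro ⟨hS, hm⟩
    have hb : b ∈ V K ((m - q.natDegree + 3) / 4) := by
      rw [hdeg]
      by_cases hb : b = 0
      · rw [hb, zero_pow (by norm_num), zero_mul, degree_zero]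
        exact WithBot.bot_lt_coe _
      · rw [degree_eq_natDegree (mul_ne_zero (pow_ne_zero 4 hb) hq.ne_zero), nd hq hb,
          Nat.cast_lt]
        by_contra hcon
        rw [not_lt] at hcon
        by_cases ha : a = 0
        · rw [ha, zero_pow (by norm_num), zero_mul, zero_add, nd hq hb] at hm
          omega
        · have hα := nd hp ha
          have hβ := nd hq hb
          rcases lt_trichotomy (a ^ 4 * p).natDegree (b ^ 4 * q).natDegree with h | h | h
          · rw [natDegree_add_eq_right_of_natDegree_lt h] at hm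
            omega
          · omega
          · rw [natDegree_add_eq_left_of_natDegree_lt h] at hm
            omega
    have hb' := hdeg.mp hb
    have hSd : (a ^ 4 * p + b ^ 4 * q).degree = (m : ℕ) := by
      rw [degree_eq_natDegree hS.ne_zero, hm]
    have h1 : a ^ 4 * p = (a ^ 4 * p + b ^ 4 * q) - b ^ 4 * q := by ring
    have h2 : (a ^ 4 * p).Monic := by
      rw [h1]
      exact hS.sub_of_left (by rw [hSd]; exact hb')
    have h3 : a ≠ 0 := by
      intro h0
      rw [h0, zero_pow (by norm_num), zero_mul] at h2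
      exact h2.ne_zero rfl
    have h4 : (a ^ 4 * p).degree = (m : ℕ) := by
      rw [h1, degree_sub_eq_left_of_degree_lt (by rw [hSd]; exact hb'), hSd]
    have h5 := natDegree_eq_of_degree_eq_some h4
    rw [nd hp h3] at h5
    refine ⟨?_, h5, hb⟩
    have h6 : (a ^ 4 * p).leadingCoeff = 1 := h2
    rw [leadingCoeff_mul, leadingCoeff_pow, hp.leadingCoeff, mul_one] at h6
    refine p4K_inj (y := (1 : K)) ?_
    rw [one_pow]
    exact h6
  · rintro ⟨ha, hm, hb⟩
    have hb' := hdeg.mp hb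
    have h1 : (a ^ 4 * p).Monic := (ha.pow 4).mul hp
    have h2 : (a ^ 4 * p).degree = (m : ℕ) := by
      rw [degree_eq_natDegree h1.ne_zero, nd hp ha.ne_zero, hm]
    refine ⟨h1.add_of_left (by rw [h2]; exact hb'), ?_⟩
    apply natDegree_eq_of_degree_eq_some
    rw [degree_add_eq_left_of_degree_lt (by rw [h2]; exact hb'), h2]

theorem bij {p q E : K[X]} (hp : p.Monic) (hq : q.Monic)
    (hne : p.natDegree % 4 ≠ q.natDegree % 4) (hpH : hasseDeriv 2 p = 0)
    (hqH : hasseDeriv 2 q = 0) (hpE : E ∣ p) (hqE : E ∣ q)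
    (hspan : ∀ M : K[X], E ∣ M → hasseDeriv 2 M = 0 → ∃ a b, M = a ^ 4 * p + b ^ 4 * q)
    (n α : ℕ) (hn : n = 4 * α + p.natDegree) (Q : K[X] → Prop) :
    ((WB K n).filter (fun N => E ∣ N ∧ Q N)).card =
      ((Mn K α ×ˢ V K ((n - q.natDegree + 3) / 4)).filter
        (fun z => Q (z.1 ^ 4 * p + z.2 ^ 4 * q))).card := by
  symm
  refine Finset.card_bij (fun z _ => z.1 ^ 4 * p + z.2 ^ 4 * q) ?_ ?_ ?_
  · rintro ⟨a, b⟩ h
    rw [Finset.mem_filter, Finset.mem_product, mem_Mn] at h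
    obtain ⟨⟨⟨ha, hα⟩, hb⟩, hQ⟩ := h
    change a.Monic at ha
    change a.natDegree = α at hα
    have hk := (key hp hq n (by omega) (by omega) a b).mpr ⟨ha, by omega, hb⟩
    rw [Finset.mem_filter]
    unfold WB
    rw [Finset.mem_filter, mem_Mn]
    refine ⟨⟨hk, ?_⟩, dvd_add (Dvd.dvd.mul_left hpE _) (Dvd.dvd.mul_left hqE _), hQ⟩
    change hasseDeriv 2 (a ^ 4 * p + b ^ 4 * q) = 0
    rw [map_add, hd4, hd4, hpH, hqH, mul_zero, mul_zero, add_zero]
  · rintro ⟨a, b⟩ _ ⟨a', b'⟩ _ h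
    obtain ⟨h1, h2⟩ := inj hp hq hne h
    exact Prod.ext h1 h2
  · intro N hN
    rw [Finset.mem_filter] at hN
    obtain ⟨hN1, hN2, hN3⟩ := hN
    unfold WB at hN1
    rw [Finset.mem_filter, mem_Mn] at hN1
    obtain ⟨a, b, rfl⟩ := hspan N hN2 hN1.2
    obtain ⟨h1, h2, h3⟩ := (key hp hq n (by omega) (by omega) a b).mp hN1.1
    refine ⟨(a, b), ?_, rfl⟩
    rw [Finset.mem_filter, Finset.mem_product, mem_Mn]
    exact ⟨⟨⟨h1, by change a.natDegree = α; omega⟩, h3⟩, hN3⟩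

theorem cnt {p q D : K[X]} (hp : p.Monic) (hq : q.Monic)
    (hne : p.natDegree % 4 ≠ q.natDegree % 4) (hpH : hasseDeriv 2 p = 0)
    (hqH : hasseDeriv 2 q = 0) (hpE : D ∣ p) (hqE : D ∣ q)
    (hspan : ∀ M : K[X], D ∣ M → hasseDeriv 2 M = 0 → ∃ a b, M = a ^ 4 * p + b ^ 4 * q)
    (n α : ℕ) (hn : n = 4 * α + p.natDegree) :
    ((WB K n).filter (fun N => D ∣ N)).card =
      Fintype.card K ^ (α + (n - q.natDegree + 3) / 4) := by
  have h1 := bij hp hq hne hpH hqH hpE hqE hspan n α hn (fun _ => True)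
  simp only [and_true] at h1
  rw [h1, Finset.filter_true, Finset.card_product, card_Mn, card_V, pow_add]

/-- the fourth powers modulo a squarefree polynomial -/
theorem exists_root (D : K[X]) (hD : D.Monic) (hsq : Squarefree D) (T : K[X]) :
    ∃ h : K[X], h.degree < D.natDegree ∧ D ∣ h ^ 4 - T := by
  have hdeg : D.degree = (D.natDegree : ℕ) := degree_eq_natDegree hD.ne_zero
  have hmem : ∀ f : K[X], f %ₘ D ∈ V K D.natDegree := by
    intro f
    rw [mem_V, ← hdeg]
    exact degree_modByMonic_lt f hD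
  let φ : {x // x ∈ V K D.natDegree} → {x // x ∈ V K D.natDegree} :=
    fun x => ⟨(x.1 ^ 4) %ₘ D, hmem _⟩
  have hinj : Function.Injective φ := by
    rintro ⟨x, hx⟩ ⟨y, hy⟩ hxy
    have h1 : (x ^ 4) %ₘ D = (y ^ 4) %ₘ D := congrArg Subtype.val hxy
    have h2 : (x ^ 4 - y ^ 4) %ₘ D = 0 := by
      rw [sub_modByMonic, h1, sub_self]
    rw [modByMonic_eq_zero_iff_dvd hD, ← p4_sub, hsq.dvd_pow_iff_dvd (by norm_num)] at h2
    rw [mem_V] at hx hy
    have h3 : (x - y).degree < D.degree := by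
      rw [hdeg]
      exact lt_of_le_of_lt (degree_sub_le _ _) (max_lt hx hy)
    have h4 : x - y = 0 := eq_zero_of_dvd_of_degree_lt h2 h3
    exact Subtype.ext (sub_eq_zero.mp h4)
  have hsurj : Function.Surjective φ := Finite.surjective_of_injective hinj
  obtain ⟨⟨h, hh⟩, hφ⟩ := hsurj ⟨T %ₘ D, hmem T⟩
  have h1 : (h ^ 4) %ₘ D = T %ₘ D := congrArg Subtype.val hφ
  refine ⟨h, (mem_V).mp hh, ?_⟩
  rw [← modByMonic_eq_zero_iff_dvd hD, sub_modByMonic, h1, sub_self]

theorem cntA (D : K[X]) (hD : D.Monic) (hsq : Squarefree D) (m : ℕ) (hm : D.natDegree ≤ m) :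
    ((WB K (4 * m)).filter (fun N => D ∣ N)).card =
      Fintype.card K ^ (m + (m - D.natDegree)) := by
  have h1H : hasseDeriv 2 (1 : K[X]) = 0 := hasseDeriv_apply_one 2 (by norm_num)
  have hXH : hasseDeriv 2 (X : K[X]) = 0 := hasseDeriv_X 2 (by norm_num)
  have hspan : ∀ M : K[X], (1 : K[X]) ∣ M → hasseDeriv 2 M = 0 →
      ∃ a b, M = a ^ 4 * 1 + b ^ 4 * X := fun M h1 h2 =>
    span (D := 1) monic_one monic_X (by rw [natDegree_one]) (by rw [natDegree_X])
      (one_dvd _) (one_dvd _) h1H hXH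
      (fun _ _ _ _ _ => by rw [natDegree_one]; exact Nat.zero_le _)
      (fun N _ _ _ hN => by rw [natDegree_X]; omega)
      (M.natDegree + 1) M (lt_of_le_of_lt degree_le_natDegree
        (by exact_mod_cast Nat.lt_succ_self _)) h1 h2
  have h1 := bij (p := (1 : K[X])) (q := X) (E := 1) monic_one monic_X
    (by rw [natDegree_one, natDegree_X]; norm_num) h1H hXH (one_dvd _) (one_dvd _) hspan
    (4 * m) m (by rw [natDegree_one, add_zero]) (fun N => D ∣ N)
  simp only [one_dvd, true_and] at h1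
  have hβ : (4 * m - (X : K[X]).natDegree + 3) / 4 = m := by
    rw [natDegree_X]
    omega
  rw [hβ] at h1
  rw [h1, Finset.card_filter, Finset.sum_product_right]
  have h2 : ∀ b ∈ V K m, ∑ a ∈ Mn K m, (if D ∣ (a, b).1 ^ 4 * 1 + (a, b).2 ^ 4 * X then 1 else 0) =
      Fintype.card K ^ (m - D.natDegree) := by
    intro b _
    rw [← Finset.card_filter, ← card_dvd hD hm]
    obtain ⟨h, hh1, hh2⟩ := exists_root D hD hsq (b ^ 4 * X)
    have hhm : h.degree < (m : ℕ) := lt_of_lt_of_le hh1 (by exact_mod_cast hm)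
    have hiff : ∀ a : K[X], D ∣ a ^ 4 * 1 + b ^ 4 * X ↔ D ∣ a - h := by
      intro a
      have h0 : D ∣ a - h ↔ D ∣ a ^ 4 - h ^ 4 := by
        rw [← p4_sub]
        exact (hsq.dvd_pow_iff_dvd (by norm_num)).symm
      rw [h0]
      have e : a ^ 4 * 1 + b ^ 4 * X = (a ^ 4 - h ^ 4) + (h ^ 4 - b ^ 4 * X) := by
        linear_combination (b ^ 4 * X) * (two (K := K))
      rw [e]
      exact dvd_add_left hh2
    refine Finset.card_bij (fun a _ => a - h) ?_ ?_ ?_
    · intro a ha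
      rw [Finset.mem_filter, mem_Mn] at ha
      obtain ⟨⟨ha1, ha2⟩, ha3⟩ := ha
      rw [Finset.mem_filter, mem_Mn]
      have hda : a.degree = (m : ℕ) := by rw [degree_eq_natDegree ha1.ne_zero, ha2]
      refine ⟨⟨ha1.sub_of_left (by rw [hda]; exact hhm), ?_⟩, (hiff a).mp ha3⟩
      apply natDegree_eq_of_degree_eq_some
      rw [degree_sub_eq_left_of_degree_lt (by rw [hda]; exact hhm), hda]
    · intro a _ a' _ haa
      exact sub_left_injective haa
    · intro a' ha'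
      rw [Finset.mem_filter, mem_Mn] at ha'
      obtain ⟨⟨ha1, ha2⟩, ha3⟩ := ha'
      have hda : a'.degree = (m : ℕ) := by rw [degree_eq_natDegree ha1.ne_zero, ha2]
      refine ⟨a' + h, ?_, by ring⟩
      rw [Finset.mem_filter, mem_Mn]
      refine ⟨⟨ha1.add_of_left (by rw [hda]; exact hhm), ?_⟩, (hiff _).mpr ?_⟩
      · apply natDegree_eq_of_degree_eq_some
        rw [degree_add_eq_left_of_degree_lt (by rw [hda]; exact hhm), hda]
      · rw [add_sub_cancel_right]
        exact ha3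
  rw [Finset.sum_congr rfl h2, Finset.sum_const, card_V, smul_eq_mul, pow_add]

end Lat2

theorem lat2 : S_lat2 := by
  intro K _ _ _ D hD hsq
  obtain ⟨F, hF1, hF2, hF3, hF4, hF5⟩ := Lat2.exists_min D hD 0 (by norm_num)
  obtain ⟨G, hG1, hG2, hG3, hG4, hG5⟩ := Lat2.exists_min D hD 1 (by norm_num)
  have hspan : ∀ M : K[X], D ∣ M → hasseDeriv 2 M = 0 → ∃ a b, M = a ^ 4 * F + b ^ 4 * G :=
    fun M h1 h2 => Lat2.span hF1 hG1 hF2 hG2 hF3 hG3 hF4 hG4 hF5 hG5 (M.natDegree + 1) M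
      (lt_of_le_of_lt degree_le_natDegree (by exact_mod_cast Nat.lt_succ_self _)) h1 h2
  have hspan' : ∀ M : K[X], D ∣ M → hasseDeriv 2 M = 0 → ∃ a b, M = a ^ 4 * G + b ^ 4 * F := by
    intro M h1 h2
    obtain ⟨a, b, h⟩ := hspan M h1 h2
    exact ⟨b, a, by rw [h]; ring⟩
  obtain ⟨a, ha⟩ : ∃ a, F.natDegree = 4 * a := ⟨F.natDegree / 4, by omega⟩
  obtain ⟨b, hb⟩ : ∃ b, G.natDegree = 4 * b + 1 := ⟨G.natDegree / 4, by omega⟩
  have hfirst : ∀ m : ℕ, a ≤ m → ((WB K (4 * m)).filter (fun N => D ∣ N)).card =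
      Fintype.card K ^ ((m - a) + (m - b)) := by
    intro m ham
    rw [Lat2.cnt hF1 hG1 (by omega) hF4 hG4 hF3 hG3 hspan (4 * m) (m - a) (by omega)]
    congr 2
    rw [hb]
    omega
  refine ⟨a, b, ?_, fun m => ⟨?_, ?_⟩⟩
  · have h1 := hfirst (a + b + D.natDegree) (by omega)
    rw [Lat2.cntA D hD hsq (a + b + D.natDegree) (by omega)] at h1
    have hq : 1 < Fintype.card K := Fintype.one_lt_card
    have h2 := Nat.pow_right_injective hq h1
    omega
  · by_cases ham : a ≤ m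
    · rw [if_pos ham]
      exact hfirst m ham
    · rw [if_neg ham, Finset.card_eq_zero, Finset.filter_eq_empty_iff]
      intro N hN hDN
      unfold WB at hN
      rw [Finset.mem_filter, mem_Mn] at hN
      have h1 := hF5 N hN.1.1.ne_zero hDN hN.2 (by rw [hN.1.2]; omega)
      rw [hN.1.2] at h1
      omega
  · by_cases hbm : b ≤ m
    · rw [if_pos hbm]
      rw [Lat2.cnt hG1 hF1 (by omega) hG4 hF4 hG3 hF3 hspan' (4 * m + 1) (m - b) (by omega)]
      congr 2
      rw [ha]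
      omega
    · rw [if_neg hbm, Finset.card_eq_zero, Finset.filter_eq_empty_iff]
      intro N hN hDN
      unfold WB at hN
      rw [Finset.mem_filter, mem_Mn] at hN
      have h1 := hG5 N hN.1.1.ne_zero hDN hN.2 (by rw [hN.1.2]; omega)
      rw [hN.1.2] at h1
      omega

end

end Pool.Agent.H6.C
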