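import Mathlib
import Pool.Agent.H6.C.Stm

/-!
# WILSON-2 (helper6), part LOC (helper231): the local weights exist

The cumulative weights `CC p k l` (the coefficient of `y ^ l` in the state `k`) are defined by recursion;
the bound `|CC p k l| ≤ g ^ l`, `g ^ 2 = 7 / 2 * p`, is proved by induction on `l`.
-/

set_option autoImplicit false
set_option linter.all false

namespace Pool.Agent.H6.C

namespace Locaux

theorem nuk_le (k : ℕ) : nuk k ≤ 2 * k := by unfold nuk; omega

theorem le_nuk (k : ℕ) : k ≤ nuk k := by unfold nuk; omega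

/-- The cumulative weights. -/
noncomputable def CC (p : ℝ) (k l : ℕ) : ℝ :=
  if hk : k = 0 then (if l = 0 then 1 else 0)
  else if hl : l < k then
    CC p (k - 1) l + if h2 : k ≤ 2 * l then
      p ^ (k - l) * (CC p (2 * l - k) l - if h3 : 2 * l - k = 0 then 0 else CC p (2 * l - k - 1) l)
      else 0
  else if hl2 : l = k then
    if k % 2 = 0 then -2 * ∑ i : Fin k, CC p k i else - CC p k (k - 1)
  else if hl3 : l ≤ nuk k then (-1) ^ k * CC p k (nuk k - l) else 0
termination_by (k, l)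
decreasing_by
  · omega
  · omega
  · omega
  · have := i.2; omega
  · omega
  · have := nuk_le k; omega


variable {p : ℝ}

theorem CC_zero (l : ℕ) : CC p 0 l = if l = 0 then 1 else 0 := by
  rw [CC, dif_pos rfl]

theorem CC_low {k l : ℕ} (hl : l < k) (h2 : ¬ k ≤ 2 * l) : CC p k l = CC p (k - 1) l := by
  rw [CC, dif_neg (by omega), dif_pos hl, dif_neg h2, add_zero]

theorem CC_low' {k l : ℕ} (hl : l < k) (h2 : k ≤ 2 * l) : CC p k l = CC p (k - 1) l +
    p ^ (k - l) * (CC p (2 * l - k) l - if 2 * l - k = 0 then 0 else CC p (2 * l - k - 1) l) := by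
  rw [CC, dif_neg (by omega), dif_pos hl, dif_pos h2]
  simp only [dite_eq_ite]

theorem CC_even {k : ℕ} (hk : 0 < k) (h : k % 2 = 0) :
    CC p k k = -2 * ∑ i ∈ Finset.range k, CC p k i := by
  rw [CC, dif_neg (by omega), dif_neg (lt_irrefl k), dif_pos rfl, if_pos h,
    Finset.sum_range]

theorem CC_odd {k : ℕ} (h : k % 2 = 1) : CC p k k = - CC p k (k - 1) := by
  rw [CC, dif_neg (by omega), dif_neg (lt_irrefl k), dif_pos rfl, if_neg (by omega)]

theorem CC_high {k l : ℕ} (hl : k < l) (h : l ≤ nuk k) :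
    CC p k l = (-1) ^ k * CC p k (nuk k - l) := by
  have hk : k ≠ 0 := by
    rintro rfl
    have := nuk_le 0
    omega
  rw [CC, dif_neg hk, dif_neg (by omega), dif_neg (by omega), dif_pos h]

theorem CC_big {k l : ℕ} (h : nuk k < l) : CC p k l = 0 := by
  have h1 := le_nuk k
  by_cases hk : k = 0
  · subst hk
    rw [CC_zero, if_neg (by omega)]
  · rw [CC, dif_neg hk, dif_neg (by omega), dif_neg (by omega), dif_neg (by omega)]

/-- The palindromes. -/
theorem CC_pal {k l : ℕ} (hl : l ≤ nuk k) : CC p k (nuk k - l) = (-1) ^ k * CC p k l := by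
  rcases Nat.eq_zero_or_pos k with hk | hk
  · subst hk
    have h1 : nuk 0 = 0 := rfl
    rw [h1] at hl ⊢
    have h2 : l = 0 := by omega
    rw [h2]
    norm_num
  · have hsq : ((-1 : ℝ) ^ k) * (-1) ^ k = 1 := by
      rw [← mul_pow]
      norm_num
    rcases lt_trichotomy l k with h | h | h
    · rcases Nat.lt_or_ge k (nuk k - l) with h1 | h1
      · rw [CC_high h1 (by omega), Nat.sub_sub_self hl]
      · -- `k` odd, `l = k - 1`
        have h2 : k % 2 = 1 ∧ l = k - 1 ∧ nuk k - l = k := by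
          unfold nuk at h1 hl ⊢
          omega
        rw [h2.2.2, h2.2.1, CC_odd h2.1, Odd.neg_one_pow (Nat.odd_iff.2 h2.1), neg_one_mul]
    · subst h
      rcases Nat.mod_two_eq_zero_or_one l with h1 | h1
      · have h2 : nuk l - l = l := by
          unfold nuk
          omega
        rw [h2, Even.neg_one_pow (Nat.even_iff.2 h1), one_mul]
      · have h2 : nuk l - l = l - 1 := by
          unfold nuk
          omega
        rw [h2, CC_odd h1, Odd.neg_one_pow (Nat.odd_iff.2 h1), neg_one_mul, neg_neg]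
    · rw [CC_high h hl, ← mul_assoc, hsq, one_mul]

/-- The weights. -/
noncomputable def ee (p : ℝ) (l k : ℕ) : ℝ := CC p k l - if k = 0 then 0 else CC p (k - 1) l

theorem om_ee (k l : ℕ) : om (ee p) k l = CC p k l := by
  unfold om
  induction k with
  | zero =>
    rw [Finset.sum_range_one, ee, if_pos rfl, sub_zero]
  | succ k ih =>
    rw [Finset.sum_range_succ, ih, ee, if_neg (Nat.succ_ne_zero k), Nat.add_sub_cancel]
    ring

theorem ee_low {k l : ℕ} (hl : l < k) (h2 : k ≤ 2 * l) :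
    ee p l k = p ^ (k - l) * ee p l (2 * l - k) := by
  rw [ee, if_neg (by omega), CC_low' hl h2, ee]
  ring

theorem ee_big {k l : ℕ} (h2 : 2 * l < k) : ee p l k = 0 := by
  rw [ee, if_neg (by omega), CC_low (by omega) (by omega), sub_self]

theorem CC_0 (k : ℕ) : CC p k 0 = 1 := by
  induction k with
  | zero => rw [CC_zero, if_pos rfl]
  | succ k ih => rw [CC_low (by omega) (by omega), Nat.add_sub_cancel, ih]

theorem CC_11 : CC p 1 1 = -1 := by
  rw [CC_odd (by norm_num), Nat.sub_self, CC_0]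

theorem CC_21 : CC p 2 1 = -1 := by
  rw [CC_low' (by norm_num) (by norm_num)]
  norm_num
  rw [CC_11, CC_zero, if_neg (by norm_num)]
  ring

theorem CC_22 : CC p 2 2 = 0 := by
  rw [CC_even (by norm_num) (by norm_num), Finset.sum_range_succ, Finset.sum_range_one, CC_0, CC_21]
  ring

theorem CC_one {k : ℕ} (hk : 1 ≤ k) : ∑ l ∈ Finset.range (nuk k + 1), CC p k l = 0 := by
  have h0 : ∑ l ∈ Finset.range (nuk k + 1), CC p k l =
      (-1) ^ k * ∑ l ∈ Finset.range (nuk k + 1), CC p k l := by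
    conv_lhs => rw [← Finset.sum_range_reflect]
    rw [Finset.mul_sum]
    refine Finset.sum_congr rfl fun l hl => ?_
    rw [Finset.mem_range] at hl
    have e : nuk k + 1 - 1 - l = nuk k - l := by omega
    rw [e, CC_pal (by omega)]
  rcases Nat.mod_two_eq_zero_or_one k with h | h
  · have h1 : nuk k + 1 = k + 1 + k := by
      unfold nuk
      omega
    have h3 : nuk k = 2 * k := by omega
    rw [h1, Finset.sum_range_add, Finset.sum_range_succ, CC_even (by omega) h]
    have h2 : ∑ x ∈ Finset.range k, CC p k (k + 1 + x) = ∑ x ∈ Finset.range k, CC p k x := by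
      conv_rhs => rw [← Finset.sum_range_reflect]
      refine Finset.sum_congr rfl fun x hx => ?_
      rw [Finset.mem_range] at hx
      have h4 := CC_pal (p := p) (k := k) (l := k - 1 - x) (by omega)
      rw [Even.neg_one_pow (Nat.even_iff.2 h), one_mul] at h4
      rw [← h4]
      congr 1
      omega
    rw [h2]
    ring
  · rw [Odd.neg_one_pow (Nat.odd_iff.2 h)] at h0
    linarith


/-! ### The bound -/

theorem lemA {g : ℝ} (hg : 1 ≤ g) {l : ℕ} (ih : ∀ l' < l, ∀ k, |CC p k l'| ≤ g ^ l') {k : ℕ}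
    (hk : k < l) : |CC p k l| ≤ g ^ ((nuk k : ℤ) - l) := by
  have hg0 : 0 < g := by linarith
  have hn := nuk_le k
  rcases Nat.lt_or_ge (nuk k) l with h | h
  · rw [CC_big h, abs_zero]
    exact (zpow_pos hg0 _).le
  · have h1 := CC_pal (p := p) h
    have h2 : |CC p k l| = |CC p k (nuk k - l)| := by
      rw [h1, abs_mul, abs_pow, abs_neg, abs_one, one_pow, one_mul]
    rw [h2, ← Nat.cast_sub h, zpow_natCast]
    exact ih _ (by omega) _

theorem lemA' {g : ℝ} (hg : 1 ≤ g) {l : ℕ} (ih : ∀ l' < l, ∀ k, |CC p k l'| ≤ g ^ l') {k : ℕ}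
    (hk : k < l) : |CC p k l| ≤ g ^ l := by
  refine (lemA hg ih hk).trans ?_
  rw [← zpow_natCast g l]
  refine zpow_le_zpow_right₀ hg ?_
  have hn := nuk_le k
  omega

theorem inv_bd {g : ℝ} (hg : 3.74 ≤ g) : g⁻¹ ≤ 0.2674 := by
  have hg0 : 0 < g := by linarith
  rw [inv_le_comm₀ hg0 (by norm_num)]
  refine le_trans ?_ hg
  norm_num

theorem lemB {g : ℝ} (hg : 3.74 ≤ g) {l : ℕ} (ih : ∀ l' < l, ∀ k, |CC p k l'| ≤ g ^ l') {k : ℕ}
    (hk : k < l) (hk1 : 1 ≤ k) :
    |ee p l k| ≤ (if k % 2 = 0 then 1.02 else 0.34) * g ^ (2 * (k : ℤ) - l) := by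
  have hg0 : 0 < g := by linarith
  have hg1 : 1 ≤ g := by linarith
  have hi := inv_bd hg
  have hi0 : 0 < g⁻¹ := inv_pos.2 hg0
  have h1 := lemA hg1 ih hk
  have h2 := lemA hg1 ih (k := k - 1) (by omega)
  have h3 : |ee p l k| ≤ g ^ ((nuk k : ℤ) - l) + g ^ ((nuk (k - 1) : ℤ) - l) := by
    rw [ee, if_neg (by omega)]
    exact (abs_sub _ _).trans (add_le_add h1 h2)
  refine h3.trans ?_
  have hP : 0 < g ^ (2 * (k : ℤ) - l) := zpow_pos hg0 _
  have hi2 : g⁻¹ ^ 2 ≤ 0.2674 ^ 2 := pow_le_pow_left₀ hi0.le hi 2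
  have hi3 : g⁻¹ ^ 3 ≤ 0.2674 ^ 3 := pow_le_pow_left₀ hi0.le hi 3
  rcases Nat.mod_two_eq_zero_or_one k with h | h
  · rw [if_pos h]
    have e1 : ((nuk k : ℤ) - l) = 2 * (k : ℤ) - l := by
      unfold nuk
      omega
    have e2 : ((nuk (k - 1) : ℤ) - l) = (2 * (k : ℤ) - l) + (-3 : ℤ) := by
      unfold nuk
      omega
    have e3 : g ^ (-3 : ℤ) = g⁻¹ ^ 3 := by
      rw [zpow_neg, inv_pow]
      norm_cast
    rw [e1, e2, zpow_add₀ hg0.ne', e3]
    calc g ^ (2 * (k : ℤ) - l) + g ^ (2 * (k : ℤ) - l) * g⁻¹ ^ 3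
        = (1 + g⁻¹ ^ 3) * g ^ (2 * (k : ℤ) - l) := by ring
      _ ≤ 1.02 * g ^ (2 * (k : ℤ) - l) := by
        refine mul_le_mul_of_nonneg_right ?_ hP.le
        norm_num at hi3 ⊢
        linarith
  · rw [if_neg (by omega)]
    have e1 : ((nuk k : ℤ) - l) = (2 * (k : ℤ) - l) + (-1 : ℤ) := by
      unfold nuk
      omega
    have e2 : ((nuk (k - 1) : ℤ) - l) = (2 * (k : ℤ) - l) + (-2 : ℤ) := by
      unfold nuk
      omega
    have e3 : g ^ (-1 : ℤ) = g⁻¹ := by
      rw [zpow_neg, zpow_one]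
    have e4 : g ^ (-2 : ℤ) = g⁻¹ ^ 2 := by
      rw [zpow_neg, inv_pow]
      norm_cast
    rw [e1, e2, zpow_add₀ hg0.ne', zpow_add₀ hg0.ne', e3, e4]
    calc g ^ (2 * (k : ℤ) - l) * g⁻¹ + g ^ (2 * (k : ℤ) - l) * g⁻¹ ^ 2
        = (g⁻¹ + g⁻¹ ^ 2) * g ^ (2 * (k : ℤ) - l) := by ring
      _ ≤ 0.34 * g ^ (2 * (k : ℤ) - l) := by
        refine mul_le_mul_of_nonneg_right ?_ hP.le
        norm_num at hi2 hi ⊢
        linarith

theorem lemC {g c : ℝ} (hg : 3.74 ≤ g) (hp : g ^ 2 = 7 / 2 * p) {l r : ℕ} (h1 : 1 ≤ r)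
    (hr : r ≤ l) (hc : |ee p l (l - r)| ≤ c * g ^ (2 * ((l - r : ℕ) : ℤ) - l)) :
    |ee p l (l + r)| ≤ c * (2 / 7) ^ r * g ^ l := by
  have hg0 : 0 < g := by linarith
  have hp' : p = 2 / 7 * g ^ 2 := by rw [hp]; ring
  have hp0 : 0 < p := by rw [hp']; positivity
  rw [ee_low (by omega) (by omega)]
  have e1 : l + r - l = r := by omega
  have e2 : 2 * l - (l + r) = l - r := by omega
  rw [e1, e2, abs_mul, abs_pow, abs_of_pos hp0]
  calc p ^ r * |ee p l (l - r)| ≤ p ^ r * (c * g ^ (2 * ((l - r : ℕ) : ℤ) - l)) :=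
        mul_le_mul_of_nonneg_left hc (by positivity)
    _ = c * (2 / 7) ^ r * (g ^ ((2 * r : ℕ) : ℤ) * g ^ (2 * ((l - r : ℕ) : ℤ) - l)) := by
        rw [zpow_natCast, pow_mul]
        nth_rewrite 1 [hp']
        rw [mul_pow]
        ring
    _ = c * (2 / 7) ^ r * g ^ l := by
        rw [← zpow_add₀ hg0.ne', ← zpow_natCast g l]
        congr 2
        omega

theorem lemC1 {g : ℝ} (hg : 3.74 ≤ g) (hp : g ^ 2 = 7 / 2 * p) {l r : ℕ} (h1 : 1 ≤ r) (hl : 1 ≤ l)
    (ih : ∀ l' < l, ∀ k, |CC p k l'| ≤ g ^ l') :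
    |ee p l (l + r)| ≤ 1.02 * (2 / 7) ^ r * g ^ l := by
  have hg0 : 0 < g := by linarith
  rcases Nat.lt_or_ge l r with h | h
  · rw [ee_big (by omega), abs_zero]
    positivity
  · refine lemC hg hp h1 h ?_
    rcases Nat.eq_zero_or_pos (l - r) with h0 | h0
    · rw [h0, ee, if_pos rfl, sub_zero, CC_zero, if_neg (by omega), abs_zero]
      positivity
    · refine (lemB hg ih (by omega) h0).trans ?_
      refine mul_le_mul_of_nonneg_right ?_ (zpow_pos hg0 _).le
      split_ifs <;> norm_num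

theorem lemC2 {g : ℝ} (hg : 3.74 ≤ g) (hp : g ^ 2 = 7 / 2 * p) {l : ℕ} (hl : 1 ≤ l)
    (hl2 : l % 2 = 0) (ih : ∀ l' < l, ∀ k, |CC p k l'| ≤ g ^ l') :
    |ee p l (l + 1)| ≤ 0.34 * (2 / 7) * g ^ l := by
  have h := lemB hg ih (k := l - 1) (by omega) (by omega)
  rw [if_neg (by omega)] at h
  have h2 := lemC hg hp le_rfl hl h
  rwa [pow_one] at h2

theorem lemD {g : ℝ} (hg : 3.74 ≤ g) {l : ℕ} (hl : 1 ≤ l)
    (ih : ∀ l' < l, ∀ k, |CC p k l'| ≤ g ^ l') :
    |CC p l l| ≤ (if l % 2 = 0 then 0.73 else 0.2674) * g ^ l := by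
  have hg0 : 0 < g := by linarith
  rcases Nat.mod_two_eq_zero_or_one l with h | h
  · rw [if_pos h, CC_even (by omega) h, abs_mul]
    have e1 : |(-2 : ℝ)| = 2 := by norm_num
    rw [e1]
    have h1 : |∑ i ∈ Finset.range l, CC p l i| ≤ ∑ i ∈ Finset.range l, g ^ i :=
      (Finset.abs_sum_le_sum_abs _ _).trans
        (Finset.sum_le_sum fun i hi => ih i (Finset.mem_range.1 hi) l)
    have h2 : ∑ i ∈ Finset.range l, g ^ i ≤ 0.365 * g ^ l := by
      rw [geom_sum_eq (by linarith), div_le_iff₀ (by linarith)]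
      have h3 : 0 < g ^ l := by positivity
      nlinarith
    linarith
  · rw [if_neg (by omega), CC_odd h, abs_neg]
    refine (ih (l - 1) (by omega) l).trans ?_
    have e1 : g ^ l = g ^ (l - 1) * g := by
      rw [← pow_succ]
      congr 1
      omega
    rw [e1]
    have h3 : 0 < g ^ (l - 1) := by positivity
    nlinarith

theorem CC_step (l n : ℕ) : CC p (l + (n + 1)) l = CC p (l + n) l + ee p l (l + (n + 1)) := by
  rw [ee, if_neg (by omega)]
  have e : l + (n + 1) - 1 = l + n := by omega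
  rw [e]
  ring

theorem bound {g : ℝ} (hg : 3.74 ≤ g) (hp : g ^ 2 = 7 / 2 * p) (l : ℕ) :
    ∀ k, |CC p k l| ≤ g ^ l := by
  have hg0 : 0 < g := by linarith
  induction l using Nat.strong_induction_on with
  | _ l ih =>
    intro k
    rcases Nat.eq_zero_or_pos l with hl | hl
    · subst hl
      rw [CC_0, abs_one, pow_zero]
    rcases Nat.lt_or_ge k l with hk | hk
    · exact lemA' (by linarith) ih hk
    obtain ⟨n, rfl⟩ := Nat.exists_eq_add_of_le hk
    have hP : 0 < g ^ l := by positivity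
    have hD := lemD hg hl ih
    rcases Nat.mod_two_eq_zero_or_one l with h | h
    · rw [if_pos h] at hD
      rcases n with _ | n
      · rw [add_zero]
        refine hD.trans ?_
        nlinarith
      · have h1 : ∀ m : ℕ, |CC p (l + (m + 1)) l| ≤
            (0.73 + 0.34 * (2 / 7) + 1.02 * (4 / 35) * (1 - (2 / 7) ^ m)) * g ^ l := by
          intro m
          induction m with
          | zero =>
            rw [CC_step, add_zero]
            have h2 := lemC2 hg hp hl h ih
            refine (abs_add_le _ _).trans ?_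
            rw [zero_add]
            rw [pow_zero]
            linarith
          | succ m ihm =>
            rw [CC_step]
            have h2 := lemC1 (r := m + 1 + 1) hg hp (by omega) hl ih
            refine (abs_add_le _ _).trans ((add_le_add ihm h2).trans (le_of_eq ?_))
            ring
        refine (h1 n).trans ?_
        have h3 : (0 : ℝ) ≤ (2 / 7) ^ n := by positivity
        have h4 : (0.73 + 0.34 * (2 / 7) + 1.02 * (4 / 35) * (1 - (2 / 7) ^ n) : ℝ) ≤ 1 := by
          norm_num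
          linarith
        nlinarith
    · rw [if_neg (by omega)] at hD
      have h1 : ∀ m : ℕ, |CC p (l + m) l| ≤
          (0.2674 + 1.02 * (2 / 5) * (1 - (2 / 7) ^ m)) * g ^ l := by
        intro m
        induction m with
        | zero =>
          rw [add_zero, pow_zero]
          linarith
        | succ m ihm =>
          rw [CC_step]
          have h2 := lemC1 (r := m + 1) hg hp (by omega) hl ih
          refine (abs_add_le _ _).trans ((add_le_add ihm h2).trans (le_of_eq ?_))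
          ring
      refine (h1 n).trans ?_
      have h3 : (0 : ℝ) ≤ (2 / 7) ^ n := by positivity
      have h4 : (0.2674 + 1.02 * (2 / 5) * (1 - (2 / 7) ^ n) : ℝ) ≤ 1 := by
        norm_num
        linarith
      nlinarith

end Locaux

open Locaux in
/-- The local weights exist. -/
theorem loc : S_loc := by
  intro p hp
  have hp0 : p ≠ 0 := by linarith
  refine ⟨ee p, ?_, ?_, ?_, ?_, ?_, ?_, ?_, ?_, ?_, ?_, ?_, ?_⟩
  · rw [ee, if_pos rfl, sub_zero, CC_0]
  · intro k hk
    rw [ee, if_neg (by omega), CC_0, CC_0, sub_self]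
  · intro l hl
    rw [ee, if_pos rfl, sub_zero, CC_zero, if_neg (by omega)]
  · rw [ee, if_neg one_ne_zero, CC_11, Nat.sub_self, CC_zero, if_neg one_ne_zero, sub_zero]
  · intro l hl
    have h1 : nuk 1 = 1 := rfl
    rw [ee, if_neg one_ne_zero, Nat.sub_self, CC_zero, if_neg (by omega), sub_zero,
      CC_big (by omega)]
  · have h1 : nuk 1 = 1 := rfl
    rw [ee, if_neg two_ne_zero, CC_22, CC_big (by norm_num [h1]), sub_zero]
  · intro l k h
    exact ee_big h
  · intro l k h
    rcases lt_trichotomy l k with h1 | h1 | h1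
    · rw [ee_low h1 h, ← Nat.cast_sub h1.le, zpow_natCast]
    · subst h1
      have e : 2 * l - l = l := by omega
      rw [sub_self, zpow_zero, one_mul, e]
    · have h2 := ee_low (p := p) (k := 2 * l - k) (l := l) (by omega) (by omega)
      have e1 : 2 * l - (2 * l - k) = k := by omega
      have e2 : 2 * l - k - l = l - k := by omega
      rw [e1, e2] at h2
      rw [h2, ← mul_assoc]
      have e3 : p ^ ((k : ℤ) - l) * p ^ (l - k) = 1 := by
        rw [← zpow_natCast p (l - k), ← zpow_add₀ hp0, Nat.cast_sub h1.le]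
        rw [sub_add_sub_cancel, sub_self, zpow_zero]
      rw [e3, one_mul]
  · intro k l h
    rw [om_ee, CC_big h]
  · intro k l h
    rw [om_ee, om_ee, CC_pal h]
  · intro k hk
    simp_rw [om_ee]
    exact CC_one hk
  · intro k l
    rw [om_ee]
    refine bound ?_ (Real.sq_sqrt (by linarith)) l k
    refine Real.le_sqrt_of_sq_le ?_
    norm_num
    linarith

end Pool.Agent.H6.C
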