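import Mathlib
import Pool.Agent.H6.C.Stm

/-!
# LSUM: the sum of the local main terms (helper383 for helper6)
-/

set_option autoImplicit false

namespace Pool.Agent.H6.C

namespace LSUM

noncomputable section

lemma nuk_le (k : ℕ) : nuk k ≤ 2 * k := by
  unfold nuk
  omega

lemma om_zero (e : ℕ → ℕ → ℝ) (l : ℕ) : om e 0 l = e l 0 := by
  unfold om
  simp

lemma om_succ (e : ℕ → ℕ → ℝ) (k l : ℕ) : om e (k + 1) l = om e k l + e l (k + 1) := by
  unfold om
  rw [Finset.sum_range_succ]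

lemma one_le_g {p : ℝ} (hp : 4 ≤ p) : 1 ≤ Real.sqrt (7 / 2 * p) := by
  rw [Real.one_le_sqrt]
  linarith

lemma g_lt {p : ℝ} (hp : 4 ≤ p) : Real.sqrt (7 / 2 * p) < p := by
  rw [Real.sqrt_lt' (by linarith)]
  nlinarith

lemma om_bd {p : ℝ} {e : ℕ → ℕ → ℝ} (hp : 4 ≤ p) (h : Tab p e) (k l : ℕ) :
    |om e k l| ≤ Real.sqrt (7 / 2 * p) ^ k := by
  have hg := one_le_g hp
  rcases Nat.lt_or_ge k l with hkl | hkl
  · rcases Nat.lt_or_ge (nuk k) l with hn | hn
    · rw [h.deg k l hn, abs_zero]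
      positivity
    · have h1 := h.pal k l hn
      have h2 : |om e k l| = |om e k (nuk k - l)| := by
        rw [h1, abs_mul, abs_pow, abs_neg, abs_one, one_pow, one_mul]
      rw [h2]
      refine (h.bd k (nuk k - l)).trans ?_
      apply pow_le_pow_right₀ hg
      have := nuk_le k
      omega
  · exact (h.bd k l).trans (pow_le_pow_right₀ hg hkl)

lemma om_big {p : ℝ} {e : ℕ → ℕ → ℝ} (h : Tab p e) {k l : ℕ} (hl : 2 * k < l) :
    om e k l = 0 := h.deg k l (lt_of_le_of_lt (nuk_le k) hl)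

lemma e_bd {p : ℝ} {e : ℕ → ℕ → ℝ} (hp : 4 ≤ p) (h : Tab p e) (k l : ℕ) :
    |e l k| ≤ 2 * Real.sqrt (7 / 2 * p) ^ k := by
  have hg := one_le_g hp
  cases k with
  | zero =>
    have := om_bd hp h 0 l
    rw [om_zero] at this
    rw [pow_zero] at this ⊢
    linarith
  | succ k =>
    have h1 : e l (k + 1) = om e (k + 1) l - om e k l := by rw [om_succ]; ring
    rw [h1]
    have h2 := om_bd hp h (k + 1) l
    have h3 := om_bd hp h k l
    have h4 : Real.sqrt (7 / 2 * p) ^ k ≤ Real.sqrt (7 / 2 * p) ^ (k + 1) :=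
      pow_le_pow_right₀ hg (Nat.le_succ k)
    have h5 := abs_sub (om e (k + 1) l) (om e k l)
    linarith

lemma e_big {p : ℝ} {e : ℕ → ℕ → ℝ} (h : Tab p e) {k l : ℕ} (hl : 2 * k < l) :
    e l k = 0 := by
  cases k with
  | zero => exact h.el0 l (by omega)
  | succ k =>
    have h1 : e l (k + 1) = om e (k + 1) l - om e k l := by rw [om_succ]; ring
    rw [h1, om_big h hl, om_big h (by omega : 2 * k < l), sub_zero]

/-- The terms of the double series. -/
def G (p : ℝ) (e : ℕ → ℕ → ℝ) (x : ℕ × ℕ) : ℝ := e x.2 x.1 * (p ^ x.1)⁻¹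

lemma G_bd {p : ℝ} {e : ℕ → ℕ → ℝ} (hp : 4 ≤ p) (h : Tab p e) (k l : ℕ) :
    |G p e (k, l)| ≤ 2 * (Real.sqrt (7 / 2 * p) / p) ^ k := by
  unfold G
  have hp0 : 0 < p := by linarith
  rw [abs_mul, abs_inv, abs_pow, abs_of_pos hp0, div_pow]
  have h1 := e_bd hp h k l
  have h2 : (0 : ℝ) ≤ (p ^ k)⁻¹ := by positivity
  calc |e l k| * (p ^ k)⁻¹ ≤ 2 * Real.sqrt (7 / 2 * p) ^ k * (p ^ k)⁻¹ :=
        mul_le_mul_of_nonneg_right h1 h2
    _ = 2 * (Real.sqrt (7 / 2 * p) ^ k / p ^ k) := by ring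

lemma G_big {p : ℝ} {e : ℕ → ℕ → ℝ} (h : Tab p e) {k l : ℕ} (hl : 2 * k < l) :
    G p e (k, l) = 0 := by
  unfold G
  rw [e_big h hl, zero_mul]

lemma G_summable {p : ℝ} {e : ℕ → ℕ → ℝ} (hp : 4 ≤ p) (h : Tab p e) :
    Summable (G p e) := by
  have hp0 : 0 < p := by linarith
  have hr0 : 0 ≤ Real.sqrt (7 / 2 * p) / p := by positivity
  have hr1 : Real.sqrt (7 / 2 * p) / p < 1 := by
    rw [div_lt_one hp0]
    exact g_lt hp
  have hfin : ∀ k, ∀ l ∉ Finset.range (2 * k + 1), |G p e (k, l)| = 0 := by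
    intro k l hl
    rw [Finset.mem_range] at hl
    rw [G_big h (by omega), abs_zero]
  rw [← summable_abs_iff]
  rw [summable_prod_of_nonneg (fun x => abs_nonneg _)]
  refine ⟨fun k => summable_of_ne_finset_zero (hfin k), ?_⟩
  have hs : Summable (fun k : ℕ => (2 * (2 * (k : ℝ) + 1)) * (Real.sqrt (7 / 2 * p) / p) ^ k) := by
    have h1 := summable_pow_mul_geometric_of_norm_lt_one (R := ℝ) 1
      (r := Real.sqrt (7 / 2 * p) / p) (by rw [Real.norm_eq_abs, abs_of_nonneg hr0]; exact hr1)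
    have h0 := summable_geometric_of_lt_one hr0 hr1
    refine ((h1.mul_left 4).add (h0.mul_left 2)).congr ?_
    intro k
    rw [pow_one]
    ring
  refine Summable.of_nonneg_of_le (fun k => tsum_nonneg (fun l => abs_nonneg _)) ?_ hs
  intro k
  rw [tsum_eq_sum (s := Finset.range (2 * k + 1)) (hfin k)]
  refine (Finset.sum_le_sum (fun l _ => G_bd hp h k l)).trans ?_
  rw [Finset.sum_const, Finset.card_range, nsmul_eq_mul]
  push_cast
  apply le_of_eq
  ring

lemma om_hasSum {p : ℝ} {e : ℕ → ℕ → ℝ} (h : Tab p e) (k : ℕ) :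
    HasSum (fun l => om e k l) (if k = 0 then 1 else 0) := by
  have h1 : HasSum (fun l => om e k l) (∑ l ∈ Finset.range (nuk k + 1), om e k l) := by
    apply hasSum_sum_of_ne_finset_zero
    intro l hl
    rw [Finset.mem_range] at hl
    exact h.deg k l (by omega)
  have h2 : ∑ l ∈ Finset.range (nuk k + 1), om e k l = if k = 0 then 1 else 0 := by
    split_ifs with hk
    · subst hk
      have : nuk 0 = 0 := rfl
      rw [this, Finset.sum_range_one, om_zero, h.e00]
    · exact h.one k (by omega)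
  rw [← h2]
  exact h1

lemma row {p : ℝ} {e : ℕ → ℕ → ℝ} (h : Tab p e) (k : ℕ) :
    HasSum (fun l => G p e (k, l)) (if k = 0 then 1 else if k = 1 then -(1 / p) else 0) := by
  unfold G
  cases k with
  | zero =>
    have h1 := om_hasSum h 0
    have h2 : (fun l => e (0, l).2 (0, l).1 * (p ^ (0, l).1)⁻¹) = fun l => om e 0 l := by
      funext l
      rw [om_zero]
      simp
    rw [h2]
    simpa using h1
  | succ k =>
    have h1 := ((om_hasSum h (k + 1)).sub (om_hasSum h k)).mul_right ((p ^ (k + 1))⁻¹)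
    have h2 : (fun l => e (k + 1, l).2 (k + 1, l).1 * (p ^ (k + 1, l).1)⁻¹) =
        fun l => (om e (k + 1) l - om e k l) * (p ^ (k + 1))⁻¹ := by
      funext l
      rw [om_succ]
      ring
    rw [h2]
    have h3 : (if k + 1 = 0 then (1 : ℝ) else if k + 1 = 1 then -(1 / p) else 0) =
        ((if k + 1 = 0 then (1 : ℝ) else 0) - (if k = 0 then (1 : ℝ) else 0)) *
          (p ^ (k + 1))⁻¹ := by
      by_cases hk : k = 0
      · subst hk
        simp
      · simp [hk]
    rw [h3]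
    exact h1

lemma rows {p : ℝ} :
    HasSum (fun k : ℕ => (if k = 0 then (1 : ℝ) else if k = 1 then -(1 / p) else 0))
      (1 - 1 / p) := by
  have h1 : HasSum (fun k : ℕ => (if k = 0 then (1 : ℝ) else if k = 1 then -(1 / p) else 0))
      (∑ k ∈ Finset.range 2, (if k = 0 then (1 : ℝ) else if k = 1 then -(1 / p) else 0)) := by
    apply hasSum_sum_of_ne_finset_zero
    intro k hk
    rw [Finset.mem_range] at hk
    rw [if_neg (by omega), if_neg (by omega)]
  have h2 : (∑ k ∈ Finset.range 2, (if k = 0 then (1 : ℝ) else if k = 1 then -(1 / p) else 0)) =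
      1 - 1 / p := by
    rw [Finset.sum_range_succ, Finset.sum_range_one]
    norm_num
    ring
  rw [← h2]
  exact h1

lemma col {p : ℝ} {e : ℕ → ℕ → ℝ} (hp : 4 ≤ p) (h : Tab p e) (l : ℕ) :
    HasSum (fun k => G p e (k, l)) (om e (2 * l) l * p ^ (-(l : ℤ))) := by
  have hp0 : p ≠ 0 := by linarith
  have h1 : HasSum (fun k => G p e (k, l)) (∑ k ∈ Finset.range (2 * l + 1), G p e (k, l)) := by
    apply hasSum_sum_of_ne_finset_zero
    intro k hk
    rw [Finset.mem_range] at hk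
    unfold G
    rw [h.big l k (by omega), zero_mul]
  have h2 : ∑ k ∈ Finset.range (2 * l + 1), G p e (k, l) = om e (2 * l) l * p ^ (-(l : ℤ)) := by
    rw [← Finset.sum_range_reflect]
    unfold om
    rw [Finset.sum_mul]
    apply Finset.sum_congr rfl
    intro k hk
    rw [Finset.mem_range] at hk
    have e1 : 2 * l + 1 - 1 - k = 2 * l - k := by omega
    rw [e1]
    unfold G
    have e2 := h.dual l k (by omega)
    rw [e2]
    have e3 : (p ^ (2 * l - k))⁻¹ = p ^ (((k : ℤ) - l) + (-(l : ℤ))) := by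
      rw [← zpow_natCast, ← zpow_neg]
      congr 1
      omega
    change e l (2 * l - k) * (p ^ (2 * l - k))⁻¹ = _
    rw [e3, zpow_add₀ hp0]
    ring
  rw [← h2]
  exact h1

end

end LSUM

open LSUM in
/-- **LSUM.**  The sum of the local main terms. -/
theorem lsum : S_lsum := by
  intro p e hp h
  have hs := (G_summable hp h).hasSum
  have h1 := hs.prod_fiberwise (row h)
  have h2 : ∑' x, G p e x = 1 - 1 / p := h1.unique rows
  rw [h2] at hs
  have h3 : HasSum ((G p e) ∘ (Equiv.prodComm ℕ ℕ)) (1 - 1 / p) :=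
    (Equiv.prodComm ℕ ℕ).hasSum_iff.mpr hs
  exact h3.prod_fiberwise (fun l => col hp h l)

end Pool.Agent.H6.C
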