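import Mathlib
import Pool.Agent.H6.C.Stm
import Pool.Agent.H524.LD.ParG

/-!
# Wilson primes of `F_q[t]`, `q` a power of four (helper6): the parity law (`S_par`)
-/

set_option autoImplicit false
set_option linter.unusedSectionVars false

namespace Pool.Agent.H6.C

open Polynomial
open Pool.Agent.H985.Chow
open Pool.Agent.H694.Typ (Mn mem_Mn)
open Pool.Agent.H524 (red emb frobLift AC vdm isUnit_iff_red two_dvd_iff red_emb)
open Pool.Agent.H524.LD (Top lc_map lc_top lc_C_mul' top_X top_monic top_der)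

namespace Par

section dec

variable {K : Type} [Field K] [Fintype K] [CharP K 2]

omit [Fintype K] in
lemma pow_four (F : K[X]) : F ^ 4 = expand K 4 (F.map (iterateFrobenius K 2 2)) := by
  have h := map_iterateFrobenius_expand (p := 2) F 2
  rw [map_expand] at h
  exact h.symm

omit [Fintype K] in
lemma coeff_pow_four (F : K[X]) (j : ℕ) :
    (F ^ 4).coeff j = if 4 ∣ j then (F.coeff (j / 4)) ^ 4 else 0 := by
  rw [pow_four, coeff_expand (by norm_num), coeff_map, iterateFrobenius_def,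
    show (2 : ℕ) ^ 2 = 4 by norm_num]

lemma exists_root (c : K) : ∃ x : K, x ^ 4 = c := by
  have hs : Function.Surjective (frobenius K 2) :=
    Finite.surjective_of_injective (frobenius_inj K 2)
  obtain ⟨y, hy⟩ := hs c
  obtain ⟨x, hx⟩ := hs y
  refine ⟨x, ?_⟩
  rw [frobenius_def] at hy hx
  rw [← hy, ← hx]
  ring

omit [Fintype K] in
lemma two_K : (2 : K) = 0 := by
  have := CharP.cast_eq_zero K 2
  exact_mod_cast this

omit [Fintype K] in
lemma odd_cast (k : ℕ) (h : k % 2 = 1) : (k : K) = 1 := by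
  have e : k = 2 * (k / 2) + 1 := by omega
  rw [e, Nat.cast_add, Nat.cast_mul, Nat.cast_ofNat, two_K, zero_mul, zero_add, Nat.cast_one]

omit [Fintype K] in
lemma coeff_zero_of (N : K[X]) (hN : hasseDeriv 2 N = 0) (j : ℕ) (hj : j % 4 = 2 ∨ j % 4 = 3) :
    N.coeff j = 0 := by
  obtain ⟨i, rfl⟩ : ∃ i, j = i + 2 := ⟨j - 2, by omega⟩
  have h := congrArg (fun f => f.coeff i) hN
  simp only [coeff_zero] at h
  rw [hasseDeriv_coeff] at h
  have hodd : (i + 2).choose 2 % 2 = 1 := by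
    rw [Nat.choose_two_right]
    rcases hj with hj | hj
    · obtain ⟨t, ht⟩ : ∃ t, i + 2 = 4 * t + 2 := ⟨(i + 2) / 4, by omega⟩
      rw [ht]
      have e : (4 * t + 2) * (4 * t + 2 - 1) = 2 * ((2 * t + 1) * (4 * t + 1)) := by
        rw [show 4 * t + 2 - 1 = 4 * t + 1 by omega]; ring
      rw [e, Nat.mul_div_cancel_left _ (by norm_num), Nat.mul_mod]
      have e1 : (2 * t + 1) % 2 = 1 := by omega
      have e2 : (4 * t + 1) % 2 = 1 := by omega
      rw [e1, e2]
    · obtain ⟨t, ht⟩ : ∃ t, i + 2 = 4 * t + 3 := ⟨(i + 2) / 4, by omega⟩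
      rw [ht]
      have e : (4 * t + 3) * (4 * t + 3 - 1) = 2 * ((4 * t + 3) * (2 * t + 1)) := by
        rw [show 4 * t + 3 - 1 = 4 * t + 2 by omega]; ring
      rw [e, Nat.mul_div_cancel_left _ (by norm_num), Nat.mul_mod]
      have e1 : (2 * t + 1) % 2 = 1 := by omega
      have e2 : (4 * t + 3) % 2 = 1 := by omega
      rw [e1, e2]
  rw [odd_cast _ hodd, one_mul] at h
  exact h

lemma decomp (N : K[X]) (hN : hasseDeriv 2 N = 0) : ∃ F G : K[X], N = F ^ 4 + X * G ^ 4 ∧
    (∀ i, F.coeff i ^ 4 = N.coeff (i * 4)) ∧ ∀ i, G.coeff i ^ 4 = N.coeff (i * 4 + 1) := by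
  choose rt hrt using exists_root (K := K)
  have hrt0 : rt 0 = 0 := (pow_eq_zero_iff (by norm_num : (4 : ℕ) ≠ 0)).1 (hrt 0)
  have hRt : ∀ a : ℕ → K, (∀ i, N.natDegree < i → a i = 0) → ∃ F : K[X], ∀ i,
      F.coeff i ^ 4 = a i := by
    intro a ha
    refine ⟨∑ i ∈ Finset.range (N.natDegree + 1), monomial i (rt (a i)), fun i => ?_⟩
    rw [finsetSum_coeff]
    simp only [coeff_monomial]
    rw [Finset.sum_ite_eq' (Finset.range (N.natDegree + 1)) i]
    split_ifs with h
    · exact hrt _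
    · rw [Finset.mem_range, not_lt] at h
      rw [ha i (by omega)]
      ring
  obtain ⟨F, hF⟩ := hRt (fun i => N.coeff (i * 4)) (fun i hi =>
    coeff_eq_zero_of_natDegree_lt (by omega))
  obtain ⟨G, hG⟩ := hRt (fun i => N.coeff (i * 4 + 1)) (fun i hi =>
    coeff_eq_zero_of_natDegree_lt (by omega))
  refine ⟨F, G, ?_, hF, hG⟩
  ext j
  rcases j with _ | j
  · rw [coeff_add, coeff_X_mul_zero, add_zero, coeff_pow_four, if_pos (dvd_zero 4), hF]
  · rw [coeff_add, coeff_X_mul, coeff_pow_four, coeff_pow_four, hF, hG]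
    have hm : (j + 1) % 4 = 0 ∨ (j + 1) % 4 = 1 ∨ (j + 1) % 4 = 2 ∨ (j + 1) % 4 = 3 := by omega
    rcases hm with h | h | h
    · rw [if_pos (by omega), if_neg (by omega), add_zero]
      congr 1
      omega
    · rw [if_neg (by omega), if_pos (by omega), zero_add]
      congr 1
      omega
    · rw [if_neg (by omega), if_neg (by omega), add_zero]
      exact coeff_zero_of N hN _ h

/-- `x ^ 2 + x` represents the natural numbers. -/
lemma as_nat (hsq : IsSquare (Fintype.card K)) (m : ℕ) : ∃ x : K, x ^ 2 + x = (m : K) := by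
  classical
  rcases Nat.even_or_odd' m with ⟨k, hk | hk⟩
  · refine ⟨0, ?_⟩
    rw [hk, Nat.cast_mul, Nat.cast_ofNat, two_K]
    ring
  · obtain ⟨n, hp, hn⟩ := FiniteField.card K 2
    have h3 : 3 ∣ Fintype.card Kˣ := by
      rw [Fintype.card_units]
      obtain ⟨s, hs⟩ := hsq
      have h4 : ¬ 3 ∣ Fintype.card K := by
        rw [hn]
        intro h
        have := (Nat.Prime.dvd_of_dvd_pow Nat.prime_three h)
        omega
      rw [hs] at h4 ⊢
      have h5 : s % 3 = 0 ∨ s % 3 = 1 ∨ s % 3 = 2 := by omega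
      have h6 : (s * s) % 3 = 1 := by
        rcases h5 with h | h | h
        · exact absurd (Dvd.dvd.mul_right (Nat.dvd_of_mod_eq_zero h) s) h4
        · rw [Nat.mul_mod, h]
        · rw [Nat.mul_mod, h]
      omega
    have : Fact (Nat.Prime 3) := ⟨Nat.prime_three⟩
    obtain ⟨u, hu⟩ := exists_prime_orderOf_dvd_card 3 h3
    have hu3 : (u : K) ^ 3 = 1 := by
      have := pow_orderOf_eq_one u
      rw [hu] at this
      rw [← Units.val_pow_eq_pow_val, this, Units.val_one]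
    have hu1 : (u : K) ≠ 1 := by
      intro h
      have h7 : u = 1 := Units.ext h
      rw [h7, orderOf_one] at hu
      omega
    refine ⟨u, ?_⟩
    have h8 : ((u : K) - 1) * ((u : K) ^ 2 + u + 1) = 0 := by linear_combination hu3
    have h9 := (mul_eq_zero.1 h8).resolve_left (sub_ne_zero.2 hu1)
    rw [odd_cast m (by omega)]
    linear_combination h9 - two_K (K := K)

omit [Fintype K] [CharP K 2] in
lemma lc_zero' {R : Type} [CommRing R] (G : R[X]) : lc G 0 = 0 := by
  rw [lc, zero_modByMonic, coeff_zero]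

/-- The computation. -/
lemma core (hsq : IsSquare (Fintype.card K)) (n m : ℕ) (hn : 1 ≤ n)
    (hpar : (-1 : WittVector 2 (AC K)) ^ (n * (n - 1) / 2) = 1) (P Q : (WittVector 2 K)[X])
    (hG : ((P ^ 2) ^ 2 + X * (Q ^ 2) ^ 2).Monic)
    (hd : ((P ^ 2) ^ 2 + X * (Q ^ 2) ^ 2).natDegree = n)
    (hcop : IsCoprime (P.map (red K)) (Q.map (red K)))
    (hlc : lc ((P ^ 2) ^ 2 + X * (Q ^ 2) ^ 2) (P ^ 3 * derivative P + X * (Q ^ 3 * derivative Q)) =
      (m : WittVector 2 K)) :
    mob (((P ^ 2) ^ 2 + X * (Q ^ 2) ^ 2).map (red K)) = (-1) ^ n := by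
  have hcop2 : IsCoprime ((P ^ 2).map (red K)) ((Q ^ 2).map (red K)) := by
    rw [Polynomial.map_pow, Polynomial.map_pow]
    exact hcop.pow
  obtain ⟨V, Y, N, ℓ1, ℓ2, w, hV, hV0, hYf, hY0, hVY, hN1, hN, hℓ1, hℓ2, hcp⟩ :=
    side sgn n hn (P ^ 2) (Q ^ 2) hG hd hcop2
  obtain ⟨M, hM⟩ : ∃ M, M = P ^ 3 * derivative P + X * (Q ^ 3 * derivative Q) := ⟨_, rfl⟩
  rw [← hM] at hlc
  have hKp : P ^ 2 * derivative (P ^ 2) + X * Q ^ 2 * derivative (Q ^ 2) = C 2 * M := by
    rw [hM, map_ofNat]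
    simp only [derivative_pow, Nat.cast_ofNat, map_ofNat, Nat.add_one_sub_one, pow_one]
    ring
  rw [hKp] at hN hℓ1 hℓ2
  -- the first sum
  have hL : lc (((P ^ 2) ^ 2 + X * (Q ^ 2) ^ 2).map (emb K)) ((C 2 * M).map (emb K)) =
      2 * (m : WittVector 2 (AC K)) := by
    rw [lc_map (emb K) hG, lc_C_mul', hlc, map_mul, map_natCast, map_ofNat]
  rw [hL] at hN
  -- the second sum
  obtain ⟨s, hs⟩ : ∃ s, ℓ1 = 4 * s := by
    have hgE : IsCoprime ((Q ^ 2).map (red K))
        (((P ^ 2).map (red K)) ^ 2 + X * ((Q ^ 2).map (red K)) ^ 2) :=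
      (isCoprime_f _ _ hcop2).symm
    have h1 := hcp ((Q ^ 2).map (emb K)) (by
      intro x hx
      rw [red_map_map]
      rw [map_G] at hx
      exact coprime_eval hgE x hx)
    obtain ⟨u, v, huv⟩ := h1.pow_right (n := 2)
    refine ⟨_, (hℓ1 (C 4 * ((M.map (emb K)) ^ 2 * v)) ⟨C 4 * (M.map (emb K)) ^ 2 * u, ?_⟩).trans
      (lc_C_mul' _ _ _)⟩
    have e4 : (C 4 : (WittVector 2 (AC K))[X]) = 4 := by rw [map_ofNat]
    have e2 : (C 2 : (WittVector 2 (AC K))[X]) = 2 := by rw [map_ofNat]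
    rw [Polynomial.map_mul, map_C, map_ofNat, e4, e2]
    linear_combination (-4 * (M.map (emb K)) ^ 2) * huv
  -- the third sum
  obtain ⟨t, ht⟩ : (2 : WittVector 2 (AC K)) ∣ ℓ2 := by
    rw [two_dvd_iff]
    have h1 := hℓ2 0 (by
      have e : (C 2 * M).map (red K) = 0 := by
        rw [Polynomial.map_mul, map_C, map_ofNat, two_K, C_0, zero_mul]
      rw [e, Polynomial.map_zero, zero_pow (by norm_num), zero_mul, sub_zero]
      exact dvd_zero _)
    rw [h1, lc_zero']
  -- the sign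
  have hsqf : Squarefree (((P ^ 2) ^ 2 + X * (Q ^ 2) ^ 2).map (red K)) := by
    rw [map_G]
    exact squarefree_f _ _ hcop2
  have hpm : ((-1) ^ n * mob (((P ^ 2) ^ 2 + X * (Q ^ 2) ^ 2).map (red K)) : ℤ) = 1 ∨
      ((-1) ^ n * mob (((P ^ 2) ^ 2 + X * (Q ^ 2) ^ 2).map (red K)) : ℤ) = -1 := by
    rcases mob_pm hsqf with h | h <;> rcases neg_one_pow_eq_or ℤ n with h' | h' <;> rw [h, h'] <;>
      norm_num
  rw [hpar, one_mul] at hVY
  obtain ⟨x, hx, hx'⟩ := sign_step V Y N 1 (m : WittVector 2 (AC K)) _ 1 hpm (Or.inl rfl) hV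
    (by rw [hYf]; push_cast; ring) hY0 (by rw [mul_one]; exact hVY) (map_one _) (by
      rw [hN, hs, ht]
      exact ⟨(m : WittVector 2 (AC K)) ^ 2 + s - t + w, by ring⟩)
  rw [mul_one] at hx'
  obtain ⟨w', hw', hfin⟩ := last_step x 0 (m : AC K) (red (AC K) (m : WittVector 2 (AC K))) _ hx
    (by rw [map_natCast]; ring) (by rw [zero_pow (Fintype.card_ne_zero)])
    (by rw [← map_natCast (algebraMap K (AC K)), ← map_pow, FiniteField.pow_card]) hx'
  have hw'' : w' = (m : K) := by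
    apply (algebraMap K (AC K)).injective
    rw [hw', map_natCast]
  rw [hw''] at hfin
  rcases hfin with ⟨h1, -⟩ | ⟨-, h2⟩
  · rcases neg_one_pow_eq_or ℤ n with h' | h' <;> rw [h'] at h1 ⊢ <;> linarith
  · exact absurd (as_nat hsq m) h2

end dec

section top

variable {R : Type} [CommRing R] [IsDomain R]

lemma top_of_le {P : R[X]} {m : ℕ} (h : P.natDegree ≤ m) : Top P m (P.coeff m) := ⟨h, rfl⟩

lemma top_of_monic {P : R[X]} {m : ℕ} (h : Top P m 1) : P.Monic ∧ P.natDegree = m :=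
  ⟨monic_of_natDegree_le_of_coeff_eq_one m h.1 h.2,
    natDegree_eq_of_le_of_coeff_ne_zero h.1 (by rw [h.2]; exact one_ne_zero)⟩

/-- The degree `4 m`. -/
lemma case0 (m : ℕ) (hm : 1 ≤ m) (P Q : R[X]) (hP : P.Monic) (hPd : P.natDegree = m)
    (hQ : Q.natDegree ≤ m - 1) :
    ((P ^ 2) ^ 2 + X * (Q ^ 2) ^ 2).Monic ∧
      ((P ^ 2) ^ 2 + X * (Q ^ 2) ^ 2).natDegree = 4 * m ∧
      lc ((P ^ 2) ^ 2 + X * (Q ^ 2) ^ 2) (P ^ 3 * derivative P + X * (Q ^ 3 * derivative Q)) =
        (m : R) := by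
  have tP := top_monic hP hPd
  have tQ := top_of_le hQ
  have tQ' : Top (derivative Q) (m - 1) ((derivative Q).coeff (m - 1)) :=
    top_of_le ((natDegree_derivative_le Q).trans (by omega))
  have t1 : Top ((P ^ 2) ^ 2) (4 * m) 1 := ((tP.pow 2).pow 2).eq (by omega) (by ring)
  have t2 : Top (X * (Q ^ 2) ^ 2) (4 * m) 0 := (top_X.mul ((tQ.pow 2).pow 2)).lift (by omega)
  have t3 : Top ((P ^ 2) ^ 2 + X * (Q ^ 2) ^ 2) (4 * m) 1 := (t1.add t2).eq rfl (add_zero _)
  obtain ⟨h1, h2⟩ := top_of_monic t3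
  refine ⟨h1, h2, ?_⟩
  have t4 : Top (P ^ 3 * derivative P) (4 * m - 1) (m : R) :=
    ((tP.pow 3).mul (top_der hP hPd hm)).eq (by omega) (by ring)
  have t5 : Top (X * (Q ^ 3 * derivative Q)) (4 * m - 1) 0 :=
    (top_X.mul ((tQ.pow 3).mul tQ')).lift (by omega)
  exact lc_top h1 (n := 4 * m - 1) (by omega) ((t4.add t5).eq rfl (add_zero _))

/-- The degree `4 m + 1`. -/
lemma case1 (m : ℕ) (P Q : R[X]) (hQ : Q.Monic) (hQd : Q.natDegree = m)
    (hP : P.natDegree ≤ m) :
    ((P ^ 2) ^ 2 + X * (Q ^ 2) ^ 2).Monic ∧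
      ((P ^ 2) ^ 2 + X * (Q ^ 2) ^ 2).natDegree = 4 * m + 1 ∧
      lc ((P ^ 2) ^ 2 + X * (Q ^ 2) ^ 2) (P ^ 3 * derivative P + X * (Q ^ 3 * derivative Q)) =
        (m : R) := by
  have tQ := top_monic hQ hQd
  have tP := top_of_le hP
  have t1 : Top ((P ^ 2) ^ 2) (4 * m + 1) 0 := ((tP.pow 2).pow 2).lift (by omega)
  have t2 : Top (X * (Q ^ 2) ^ 2) (4 * m + 1) 1 :=
    (top_X.mul ((tQ.pow 2).pow 2)).eq (by omega) (by ring)
  have t3 : Top ((P ^ 2) ^ 2 + X * (Q ^ 2) ^ 2) (4 * m + 1) 1 :=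
    (t1.add t2).eq rfl (zero_add _)
  obtain ⟨h1, h2⟩ := top_of_monic t3
  refine ⟨h1, h2, ?_⟩
  rcases Nat.eq_zero_or_pos m with h0 | hm
  · rw [h0] at hP hQd
    rw [derivative_of_natDegree_zero (Nat.le_zero.1 hP), derivative_of_natDegree_zero hQd, h0]
    rw [mul_zero, mul_zero, mul_zero, add_zero, Nat.cast_zero]
    rw [lc, zero_modByMonic, coeff_zero]
  · have tP' : Top (derivative P) (m - 1) ((derivative P).coeff (m - 1)) :=
      top_of_le ((natDegree_derivative_le P).trans (by omega))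
    have t4 : Top (P ^ 3 * derivative P) (4 * m) 0 := ((tP.pow 3).mul tP').lift (by omega)
    have t5 : Top (X * (Q ^ 3 * derivative Q)) (4 * m) (m : R) :=
      (top_X.mul ((tQ.pow 3).mul (top_der hQ hQd hm))).eq (by omega) (by ring)
    exact lc_top h1 (n := 4 * m) (by omega) ((t4.add t5).eq rfl (zero_add _))

end top

end Par

theorem par : S_par := by
  intro K _ _ _ hsq n N hN hs
  classical
  rw [WB, Finset.mem_filter, mem_Mn] at hN
  obtain ⟨⟨hNm, hNd⟩, hN2⟩ := hN
  have hNc : N.coeff n = 1 := by rw [← hNd]; exact hNm.coeff_natDegree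
  obtain ⟨F, G, hFG, hF, hG⟩ := Par.decomp N hN2
  have hcop : IsCoprime F G := by
    apply EuclideanDomain.isCoprime_of_dvd
    · rintro ⟨h1, h2⟩
      rw [h1, h2] at hFG
      apply hNm.ne_zero
      rw [hFG]
      ring
    · intro z hz hz0 hzF hzG
      have h1 : z * z ∣ N := by
        rw [hFG]
        refine dvd_add ?_ (Dvd.dvd.mul_left ?_ X)
        · exact (mul_dvd_mul hzF hzF).trans ⟨F ^ 2, by ring⟩
        · exact (mul_dvd_mul hzG hzG).trans ⟨G ^ 2, by ring⟩
      exact hz (hs z h1)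
  have hcop' : IsCoprime ((tl F).map (red K)) ((tl G).map (red K)) := by
    rw [map_tl, map_tl]; exact hcop
  have hmap : (((tl F) ^ 2) ^ 2 + X * ((tl G) ^ 2) ^ 2).map (red K) = N := by
    rw [Polynomial.map_add, Polynomial.map_mul, Polynomial.map_pow, Polynomial.map_pow,
      Polynomial.map_pow, Polynomial.map_pow, map_X, map_tl, map_tl, hFG]
    ring
  have hx0 : ∀ x : K, x ^ 4 = 0 → x = 0 := fun x hx => pow_eq_zero_iff (by norm_num) |>.1 hx
  have hx1 : ∀ x : K, x ^ 4 = 1 → x = 1 := by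
    intro x hx
    have h2 := Par.two_K (K := K)
    have h3 : (x - 1) ^ 4 = 0 := by
      linear_combination hx + (-2 * x ^ 3 + 3 * x ^ 2 - 2 * x + 1) * h2
    exact sub_eq_zero.1 (hx0 _ h3)
  obtain ⟨m, hm⟩ : ∃ m, m = n / 4 := ⟨_, rfl⟩
  have hn4 : n = 4 * m ∨ n = 4 * m + 1 ∨ (n % 4 = 2 ∨ n % 4 = 3) := by omega
  rcases hn4 with h4 | h4 | h4
  · rcases Nat.eq_zero_or_pos m with h0 | hmp
    · have h1 : N = 1 := (Monic.natDegree_eq_zero hNm).1 (by omega)
      rw [h1, mob_one, h4, h0]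
      rfl
    · have hFd : F.natDegree ≤ m := by
        rw [natDegree_le_iff_coeff_eq_zero]
        intro i hi
        apply hx0
        rw [hF]
        exact coeff_eq_zero_of_natDegree_lt (by omega)
      have hFm : F.coeff m = 1 := by
        apply hx1
        rw [hF, ← hNc, h4]
        congr 1
        omega
      have hGd : G.natDegree ≤ m - 1 := by
        rw [natDegree_le_iff_coeff_eq_zero]
        intro i hi
        apply hx0
        rw [hG]
        exact coeff_eq_zero_of_natDegree_lt (by omega)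
      have hFmon : F.Monic := monic_of_natDegree_le_of_coeff_eq_one m hFd hFm
      have hFdeg : F.natDegree = m :=
        natDegree_eq_of_le_of_coeff_ne_zero hFd (by rw [hFm]; exact one_ne_zero)
      obtain ⟨c1, c2, c3⟩ := Par.case0 m hmp (tl F) (tl G) (tl_monic hFmon)
        (by rw [natDegree_tl hFmon, hFdeg]) ((natDegree_tl_le G).trans hGd)
      have h5 := Par.core hsq n m (by omega) (by
        have e : n * (n - 1) / 2 = 2 * (m * (4 * m - 1)) := by
          rw [h4, show 4 * m * (4 * m - 1) = 2 * (2 * (m * (4 * m - 1))) by ring]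
          exact Nat.mul_div_cancel_left _ (by norm_num)
        rw [e, pow_mul, neg_one_sq, one_pow]) (tl F) (tl G) c1 (by rw [c2, h4]) hcop' c3
      rw [hmap] at h5
      exact h5
  · have hFd : F.natDegree ≤ m := by
      rw [natDegree_le_iff_coeff_eq_zero]
      intro i hi
      apply hx0
      rw [hF]
      exact coeff_eq_zero_of_natDegree_lt (by omega)
    have hGd : G.natDegree ≤ m := by
      rw [natDegree_le_iff_coeff_eq_zero]
      intro i hi
      apply hx0
      rw [hG]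
      exact coeff_eq_zero_of_natDegree_lt (by omega)
    have hGm : G.coeff m = 1 := by
      apply hx1
      rw [hG, ← hNc, h4]
      congr 1
      omega
    have hGmon : G.Monic := monic_of_natDegree_le_of_coeff_eq_one m hGd hGm
    have hGdeg : G.natDegree = m :=
      natDegree_eq_of_le_of_coeff_ne_zero hGd (by rw [hGm]; exact one_ne_zero)
    obtain ⟨c1, c2, c3⟩ := Par.case1 m (tl F) (tl G) (tl_monic hGmon)
      (by rw [natDegree_tl hGmon, hGdeg]) ((natDegree_tl_le F).trans hFd)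
    have h5 := Par.core hsq n m (by omega) (by
      have e : n * (n - 1) / 2 = 2 * (m * (4 * m + 1)) := by
        rw [h4, show 4 * m + 1 - 1 = 4 * m by omega,
          show (4 * m + 1) * (4 * m) = 2 * (2 * (m * (4 * m + 1))) by ring]
        exact Nat.mul_div_cancel_left _ (by norm_num)
      rw [e, pow_mul, neg_one_sq, one_pow]) (tl F) (tl G) c1 (by rw [c2, h4]) hcop' c3
    rw [hmap] at h5
    exact h5
  · rw [Par.coeff_zero_of N hN2 n h4] at hNc
    exact absurd hNc.symm one_ne_zero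

end Pool.Agent.H6.C
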