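import Pool.Agent.H6.C.Stm
import Pool.Agent.H985.Chow.Typ

/-! Project WILSON-2 (helper6), part RHO: the main term (helper539). -/

set_option autoImplicit false

namespace Pool.Agent.H6.C

open Polynomial
open scoped Classical
open Pool.Agent.H694.Typ (Mn PU Irn mem_Mn card_Mn mem_PU mem_Irn irn_one_le sum_PU)

noncomputable section

namespace Rho

/-! ### Local series -/

/-- the local series in `u ^ d` -/
def ser (d : ℕ) (f : ℕ → ℝ) : PowerSeries ℝ :=
  PowerSeries.mk (fun n => if d ∣ n then f (n / d) else 0)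

theorem ser_eq {d : ℕ} (hd : d ≠ 0) (f : ℕ → ℝ) :
    ser d f = PowerSeries.expand d hd (PowerSeries.mk f) := by
  ext n
  rw [PowerSeries.coeff_expand, ser, PowerSeries.coeff_mk, PowerSeries.coeff_mk]

theorem ser_mul {d : ℕ} (hd : d ≠ 0) (f g : ℕ → ℝ) :
    ser d f * ser d g =
      ser d (fun n => ∑ x ∈ Finset.HasAntidiagonal.antidiagonal n, f x.1 * g x.2) := by
  rw [ser_eq hd, ser_eq hd, ser_eq hd, ← map_mul]
  congr 1
  ext n
  rw [PowerSeries.coeff_mul, PowerSeries.coeff_mk]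
  simp only [PowerSeries.coeff_mk]

theorem coeff_ser_mul {d : ℕ} (hd : 0 < d) (f : ℕ → ℝ) (l : ℕ) :
    PowerSeries.coeff (d * l) (ser d f) = f l := by
  rw [ser, PowerSeries.coeff_mk, if_pos (dvd_mul_right _ _), Nat.mul_div_cancel_left _ hd]

theorem coeff_ser_not {d n : ℕ} (hd : ¬ d ∣ n) (f : ℕ → ℝ) :
    PowerSeries.coeff n (ser d f) = 0 := by
  rw [ser, PowerSeries.coeff_mk, if_neg hd]

/-- sums over the local series -/
theorem ser_hasSum {d : ℕ} (hd : 0 < d) (f : ℕ → ℝ) (φ : ℝ → ℝ) (hφ : φ 0 = 0) (w s : ℝ)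
    (h : HasSum (fun l : ℕ => φ (f l) * (w ^ d) ^ l) s) :
    HasSum (fun j : ℕ => φ (PowerSeries.coeff j (ser d f)) * w ^ j) s := by
  have hinj : Function.Injective (fun l : ℕ => d * l) := fun a b hab => Nat.eq_of_mul_eq_mul_left hd hab
  rw [← hinj.hasSum_iff]
  · refine h.congr_fun ?_ 
    intro l
    simp only [Function.comp, coeff_ser_mul hd, pow_mul]
  · intro n hn
    have h1 : ¬ d ∣ n := by
      rintro ⟨l, rfl⟩
      exact hn ⟨l, rfl⟩
    rw [coeff_ser_not h1, hφ, zero_mul]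

/-! ### Weighted absolute sums -/

/-- the weighted absolute sum is at most `B` -/
def NB (F : PowerSeries ℝ) (w B : ℝ) : Prop :=
  Summable (fun j => |PowerSeries.coeff j F| * w ^ j) ∧
    ∑' j, |PowerSeries.coeff j F| * w ^ j ≤ B

theorem NB.nonneg {F : PowerSeries ℝ} {w B : ℝ} (hw : 0 ≤ w) (h : NB F w B) : 0 ≤ B :=
  le_trans (tsum_nonneg fun j => by positivity) h.2

theorem antid (F G : PowerSeries ℝ) (w : ℝ) (n : ℕ) :
    ∑ x ∈ Finset.HasAntidiagonal.antidiagonal n, (PowerSeries.coeff x.1 F * w ^ x.1) *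
      (PowerSeries.coeff x.2 G * w ^ x.2) = PowerSeries.coeff n (F * G) * w ^ n := by
  rw [PowerSeries.coeff_mul, Finset.sum_mul]
  refine Finset.sum_congr rfl fun x hx => ?_
  rw [← Finset.HasAntidiagonal.mem_antidiagonal.1 hx, pow_add]
  ring

theorem NB.mul {F G : PowerSeries ℝ} {w A B : ℝ} (hw : 0 ≤ w) (hF : NB F w A) (hG : NB G w B) :
    NB (F * G) w (A * B) := by
  have e1 : ∀ (F : PowerSeries ℝ) (j : ℕ), |PowerSeries.coeff j F| * w ^ j =
      ‖PowerSeries.coeff j F * w ^ j‖ := by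
    intro F j
    rw [Real.norm_eq_abs, abs_mul, abs_of_nonneg (pow_nonneg hw j)]
  have sF : Summable (fun j => ‖PowerSeries.coeff j F * w ^ j‖) := by
    simpa only [e1] using hF.1
  have sG : Summable (fun j => ‖PowerSeries.coeff j G * w ^ j‖) := by
    simpa only [e1] using hG.1
  have s1 := summable_norm_sum_mul_antidiagonal_of_summable_norm sF sG
  simp only [antid] at s1
  have sF' : Summable (fun j => ‖(|PowerSeries.coeff j F| * w ^ j)‖) := by
    simpa only [e1, norm_norm] using hF.1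
  have sG' : Summable (fun j => ‖(|PowerSeries.coeff j G| * w ^ j)‖) := by
    simpa only [e1, norm_norm] using hG.1
  have s2 := summable_norm_sum_mul_antidiagonal_of_summable_norm sF' sG'
  have s3 := tsum_mul_tsum_eq_tsum_sum_antidiagonal_of_summable_norm sF' sG'
  refine ⟨by simpa only [e1] using s1, ?_⟩
  have h1 : ∑' j, |PowerSeries.coeff j (F * G)| * w ^ j ≤
      ∑' n, ∑ x ∈ Finset.HasAntidiagonal.antidiagonal n, (|PowerSeries.coeff x.1 F| * w ^ x.1) *
        (|PowerSeries.coeff x.2 G| * w ^ x.2) := by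
    refine Summable.tsum_le_tsum ?_ (by simpa only [e1] using s1) s2.of_norm
    intro n
    have h2 : |PowerSeries.coeff n (F * G)| * w ^ n = |PowerSeries.coeff n (F * G) * w ^ n| := by
      rw [abs_mul, abs_of_nonneg (pow_nonneg hw n)]
    rw [h2, ← antid]
    refine (Finset.abs_sum_le_sum_abs _ _).trans (Finset.sum_le_sum fun x _ => ?_)
    rw [abs_mul, abs_mul, abs_mul, abs_of_nonneg (pow_nonneg hw x.1),
      abs_of_nonneg (pow_nonneg hw x.2)]
  refine h1.trans ?_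
  rw [← s3]
  exact mul_le_mul hF.2 hG.2 (tsum_nonneg fun j => by positivity) (hF.nonneg hw)

theorem NB_one (w : ℝ) : NB 1 w 1 := by
  have h : HasSum (fun j : ℕ => |PowerSeries.coeff j (1 : PowerSeries ℝ)| * w ^ j) 1 := by
    have h1 := hasSum_single (f := fun j : ℕ => |PowerSeries.coeff j (1 : PowerSeries ℝ)| * w ^ j) 0
      (fun j hj => by
        show |PowerSeries.coeff j (1 : PowerSeries ℝ)| * w ^ j = 0
        rw [PowerSeries.coeff_one, if_neg hj, abs_zero, zero_mul])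
    simpa using h1
  exact ⟨h.summable, h.tsum_eq.le⟩

theorem NB.prod {ι : Type} (S : Finset ι) (F : ι → PowerSeries ℝ) (w : ℝ) (B : ι → ℝ) (hw : 0 ≤ w)
    (h : ∀ i ∈ S, NB (F i) w (B i)) : NB (∏ i ∈ S, F i) w (∏ i ∈ S, B i) := by
  induction S using Finset.induction_on with
  | empty => simpa using NB_one w
  | insert i S hi ih =>
    rw [Finset.prod_insert hi, Finset.prod_insert hi]
    exact (h i (Finset.mem_insert_self _ _)).mul hw
      (ih fun j hj => h j (Finset.mem_insert_of_mem hj))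

theorem NB.le {F : PowerSeries ℝ} {w x B : ℝ} (hx : 0 ≤ x) (hxw : x ≤ w) (h : NB F w B) :
    Summable (fun j => ‖PowerSeries.coeff j F * x ^ j‖) := by
  refine Summable.of_nonneg_of_le (fun j => norm_nonneg _) (fun j => ?_) h.1
  rw [Real.norm_eq_abs, abs_mul, abs_of_nonneg (pow_nonneg hx j)]
  gcongr

theorem val_mul {F G : PowerSeries ℝ} {x a b : ℝ}
    (sF : Summable (fun j => ‖PowerSeries.coeff j F * x ^ j‖))
    (sG : Summable (fun j => ‖PowerSeries.coeff j G * x ^ j‖))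
    (hF : HasSum (fun j => PowerSeries.coeff j F * x ^ j) a)
    (hG : HasSum (fun j => PowerSeries.coeff j G * x ^ j) b) :
    HasSum (fun j => PowerSeries.coeff j (F * G) * x ^ j) (a * b) := by
  have s1 := (summable_norm_sum_mul_antidiagonal_of_summable_norm sF sG).of_norm
  have s2 := tsum_mul_tsum_eq_tsum_sum_antidiagonal_of_summable_norm sF sG
  simp only [antid] at s1 s2
  rw [← hF.tsum_eq, ← hG.tsum_eq, s2]
  exact s1.hasSum

theorem val_prod {ι : Type} (S : Finset ι) (F : ι → PowerSeries ℝ) (w x : ℝ) (B : ι → ℝ)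
    (hx : 0 ≤ x) (hxw : x ≤ w) (h : ∀ i ∈ S, NB (F i) w (B i))
    (hv : ∀ i ∈ S, HasSum (fun j => PowerSeries.coeff j (F i) * x ^ j) 1) :
    HasSum (fun j => PowerSeries.coeff j (∏ i ∈ S, F i) * x ^ j) 1 := by
  induction S using Finset.induction_on with
  | empty =>
    have h1 := hasSum_single (f := fun j : ℕ => PowerSeries.coeff j (1 : PowerSeries ℝ) * x ^ j) 0
      (fun j hj => by
        show PowerSeries.coeff j (1 : PowerSeries ℝ) * x ^ j = 0
        rw [PowerSeries.coeff_one, if_neg hj, zero_mul])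
    simpa using h1
  | insert i S hi ih =>
    rw [Finset.prod_insert hi]
    have h1 := NB.prod S F w B (hx.trans hxw) fun j hj => h j (Finset.mem_insert_of_mem hj)
    have h2 := val_mul ((h i (Finset.mem_insert_self _ _)).le hx hxw) (h1.le hx hxw)
      (hv i (Finset.mem_insert_self _ _))
      (ih (fun j hj => h j (Finset.mem_insert_of_mem hj))
        (fun j hj => hv j (Finset.mem_insert_of_mem hj)))
    rwa [one_mul] at h2

/-! ### The Euler product -/

section euler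
variable {K : Type} [Field K] [Fintype K]

/-- the monic polynomials of degree `j` with all prime factors in `S` -/
def Ms (S : Finset K[X]) (j : ℕ) : Finset K[X] := (Mn K j).filter (fun D => pf D ⊆ S)

omit [Fintype K] in
theorem vv_eq_zero {P D : K[X]} (h : P ∉ pf D) : vv P D = 0 := by
  unfold vv
  rw [Multiset.count_eq_zero]
  rwa [pf, Multiset.mem_toFinset] at h

omit [Fintype K] in
theorem mem_pf {P D : K[X]} (hD : D ≠ 0) : P ∈ pf D ↔ P.Monic ∧ Irreducible P ∧ P ∣ D := by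
  rw [pf, Multiset.mem_toFinset, UniqueFactorizationMonoid.mem_normalizedFactors_iff' hD]
  constructor
  · rintro ⟨a, b, c⟩
    refine ⟨?_, a, c⟩
    rw [← b]
    exact monic_normalize a.ne_zero
  · rintro ⟨a, b, c⟩
    exact ⟨b, a.normalize_eq_self, c⟩

omit [Fintype K] in
theorem prod_pf {f : K[X] → ℕ → ℝ} {S : Finset K[X]} (hf : ∀ P ∈ S, f P 0 = 1) {D : K[X]}
    (h : pf D ⊆ S) : ∏ P ∈ pf D, f P (vv P D) = ∏ P ∈ S, f P (vv P D) := by
  refine Finset.prod_subset h fun P hPS hP => ?_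
  rw [vv_eq_zero hP, hf P hPS]

omit [Fintype K] in
theorem nf_mul {Q E : K[X]} (hQ : Q.Monic) (hQi : Irreducible Q) (hE : E.Monic) (l : ℕ) :
    UniqueFactorizationMonoid.normalizedFactors (Q ^ l * E) =
      Multiset.replicate l Q + UniqueFactorizationMonoid.normalizedFactors E := by
  rw [UniqueFactorizationMonoid.normalizedFactors_mul (pow_ne_zero _ hQi.ne_zero) hE.ne_zero,
    UniqueFactorizationMonoid.normalizedFactors_pow,
    UniqueFactorizationMonoid.normalizedFactors_irreducible hQi, hQ.normalize_eq_self,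
    Multiset.nsmul_singleton]

omit [Fintype K] in
theorem vv_mul_self {Q E : K[X]} (hQ : Q.Monic) (hQi : Irreducible Q) (hE : E.Monic) (l : ℕ) :
    vv Q (Q ^ l * E) = l + vv Q E := by
  unfold vv
  rw [nf_mul hQ hQi hE, Multiset.count_add, Multiset.count_replicate_self]

omit [Fintype K] in
theorem vv_mul_ne {Q E P : K[X]} (hQ : Q.Monic) (hQi : Irreducible Q) (hE : E.Monic) (l : ℕ)
    (hP : P ≠ Q) : vv P (Q ^ l * E) = vv P E := by
  unfold vv
  rw [nf_mul hQ hQi hE, Multiset.count_add, Multiset.count_replicate, if_neg (Ne.symm hP), zero_add]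

omit [Fintype K] in
theorem pf_mul {Q E : K[X]} (hQ : Q.Monic) (hQi : Irreducible Q) (hE : E.Monic) (l : ℕ) :
    pf (Q ^ l * E) ⊆ insert Q (pf E) := by
  intro P hP
  rw [pf, Multiset.mem_toFinset, nf_mul hQ hQi hE, Multiset.mem_add] at hP
  rw [Finset.mem_insert]
  rcases hP with hP | hP
  · exact Or.inl (Multiset.eq_of_mem_replicate hP)
  · right
    rwa [pf, Multiset.mem_toFinset]

omit [Fintype K] in
theorem pf_sub {Q E : K[X]} (hQ : Q.Monic) (hQi : Irreducible Q) (hE : E.Monic) (l : ℕ) :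
    pf E ⊆ pf (Q ^ l * E) := by
  intro P hP
  rw [pf, Multiset.mem_toFinset] at hP ⊢
  rw [nf_mul hQ hQi hE, Multiset.mem_add]
  exact Or.inr hP

omit [Fintype K] in
theorem pow_dvd {Q D : K[X]} (hQ : Q.Monic) (hQi : Irreducible Q) (hD : D.Monic) :
    Q ^ vv Q D ∣ D := by
  rw [UniqueFactorizationMonoid.dvd_iff_normalizedFactors_le_normalizedFactors
    (pow_ne_zero _ hQi.ne_zero) hD.ne_zero, UniqueFactorizationMonoid.normalizedFactors_pow,
    UniqueFactorizationMonoid.normalizedFactors_irreducible hQi, hQ.normalize_eq_self,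
    Multiset.nsmul_singleton, ← Multiset.le_count_iff_replicate_le]
  exact le_rfl

theorem euler_fin (f : K[X] → ℕ → ℝ) (S : Finset K[X]) :
    (∀ P ∈ S, P.Monic ∧ Irreducible P) → ∀ j : ℕ,
    ∑ D ∈ Ms S j, ∏ P ∈ S, f P (vv P D) =
      PowerSeries.coeff j (∏ P ∈ S, ser P.natDegree (f P)) := by
  induction S using Finset.induction_on with
  | empty =>
    intro _ j
    have h1 : Ms (∅ : Finset K[X]) j = if j = 0 then {1} else ∅ := by
      ext D
      rw [Ms, Finset.mem_filter, mem_Mn, Finset.subset_empty]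
      constructor
      · rintro ⟨⟨hD, hj⟩, h⟩
        have h2 : D = 1 := by
          have h3 : UniqueFactorizationMonoid.normalizedFactors D = 0 := by
            rwa [pf, Multiset.toFinset_eq_empty] at h
          have h4 := UniqueFactorizationMonoid.prod_normalizedFactors hD.ne_zero
          rw [h3, Multiset.prod_zero] at h4
          exact (eq_of_monic_of_associated monic_one hD h4).symm
        have h5 : j = 0 := by
          rw [← hj, h2, natDegree_one]
        rw [if_pos h5, h2]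
        exact Finset.mem_singleton_self _
      · intro h
        split_ifs at h with h5
        · rw [Finset.mem_singleton] at h
          subst h
          refine ⟨⟨monic_one, by rw [natDegree_one, h5]⟩, ?_⟩
          rw [pf, UniqueFactorizationMonoid.normalizedFactors_one, Multiset.toFinset_zero]
        · exact absurd h (Finset.notMem_empty _)
    rw [h1, Finset.prod_empty, PowerSeries.coeff_one]
    split_ifs
    · rw [Finset.sum_singleton, Finset.prod_empty]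
    · rw [Finset.sum_empty]
  | insert Q S hQ ih =>
    intro hS j
    obtain ⟨hQm, hQi⟩ := hS Q (Finset.mem_insert_self _ _)
    have ih' := ih fun P hP => hS P (Finset.mem_insert_of_mem hP)
    have hd0 : 0 < Q.natDegree := hQi.natDegree_pos
    rw [Finset.prod_insert hQ, PowerSeries.coeff_mul]
    have hmap : ∀ D ∈ Ms (insert Q S) j, (Q.natDegree * vv Q D, j - Q.natDegree * vv Q D) ∈
        Finset.HasAntidiagonal.antidiagonal j := by
      intro D hD
      rw [Ms, Finset.mem_filter, mem_Mn] at hD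
      rw [Finset.HasAntidiagonal.mem_antidiagonal]
      have h1 := natDegree_le_of_dvd (pow_dvd hQm hQi hD.1.1) hD.1.1.ne_zero
      rw [natDegree_pow, hD.1.2, mul_comm] at h1
      show Q.natDegree * vv Q D + (j - Q.natDegree * vv Q D) = j
      omega
    rw [← Finset.sum_fiberwise_of_maps_to hmap]
    refine Finset.sum_congr rfl fun x hx => ?_
    rw [Finset.HasAntidiagonal.mem_antidiagonal] at hx
    by_cases hd : Q.natDegree ∣ x.1
    · obtain ⟨l, hl⟩ := hd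
      rw [hl, coeff_ser_mul hd0, ← ih', Finset.mul_sum]
      symm
      refine Finset.sum_bij (fun E _ => Q ^ l * E) ?_ ?_ ?_ ?_
      · intro E hE
        rw [Ms, Finset.mem_filter, mem_Mn] at hE
        have hQE : vv Q (Q ^ l * E) = l := by
          rw [vv_mul_self hQm hQi hE.1.1, vv_eq_zero fun h => hQ (hE.2 h), add_zero]
        rw [Finset.mem_filter, Ms, Finset.mem_filter, mem_Mn]
        refine ⟨⟨⟨(hQm.pow l).mul hE.1.1, ?_⟩, ?_⟩, ?_⟩
        · rw [(hQm.pow l).natDegree_mul hE.1.1, hQm.natDegree_pow, hE.1.2, ← hx, hl, mul_comm]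
        · exact (pf_mul hQm hQi hE.1.1 l).trans (Finset.insert_subset_insert _ hE.2)
        · rw [hQE, ← hl]
          ext
          · rfl
          · show j - x.1 = x.2
            omega
      · intro E _ E' _ h
        exact mul_left_cancel₀ (pow_ne_zero _ hQi.ne_zero) h
      · intro D hD
        rw [Finset.mem_filter, Ms, Finset.mem_filter, mem_Mn] at hD
        obtain ⟨⟨⟨hDm, hDj⟩, hDS⟩, hDx⟩ := hD
        have h1 : Q.natDegree * vv Q D = x.1 := by rw [← hDx]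
        have h2 : vv Q D = l := Nat.eq_of_mul_eq_mul_left hd0 (h1.trans hl)
        obtain ⟨E, hE⟩ := pow_dvd hQm hQi hDm
        rw [h2] at hE
        have hEm : E.Monic := (hQm.pow l).of_mul_monic_left (hE ▸ hDm)
        have hQE : vv Q E = 0 := by
          have h3 := vv_mul_self hQm hQi hEm l
          rw [← hE, h2] at h3
          omega
        refine ⟨E, ?_, hE.symm⟩
        rw [Ms, Finset.mem_filter, mem_Mn]
        refine ⟨⟨hEm, ?_⟩, ?_⟩
        · have h3 : D.natDegree = Q.natDegree * l + E.natDegree := by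
            rw [hE, (hQm.pow l).natDegree_mul hEm, hQm.natDegree_pow, mul_comm]
          omega
        · intro P hP
          have h3 := hDS (hE ▸ pf_sub hQm hQi hEm l hP)
          rw [Finset.mem_insert] at h3
          rcases h3 with h3 | h3
          · exfalso
            rw [h3, pf, Multiset.mem_toFinset] at hP
            exact (Multiset.count_pos.2 hP).ne' hQE
          · exact h3
      · intro E hE
        rw [Ms, Finset.mem_filter, mem_Mn] at hE
        have hQE : vv Q (Q ^ l * E) = l := by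
          rw [vv_mul_self hQm hQi hE.1.1, vv_eq_zero fun h => hQ (hE.2 h), add_zero]
        rw [Finset.prod_insert hQ, hQE]
        congr 1
        refine Finset.prod_congr rfl fun P hP => ?_
        rw [vv_mul_ne hQm hQi hE.1.1]
        rintro rfl
        exact hQ hP
    · rw [coeff_ser_not hd, zero_mul]
      refine Finset.sum_eq_zero fun D hD => ?_
      rw [Finset.mem_filter] at hD
      exfalso
      apply hd
      rw [← hD.2]
      exact dvd_mul_right _ _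

theorem euler (f : K[X] → ℕ → ℝ) (hf : ∀ P, 0 < P.natDegree → f P 0 = 1) {j N : ℕ} (h : j ≤ N) :
    ∑ D ∈ Mn K j, ∏ P ∈ pf D, f P (vv P D) =
      PowerSeries.coeff j (∏ P ∈ PU K N, ser P.natDegree (f P)) := by
  have h0 : ∀ D ∈ Mn K j, pf D ⊆ PU K N := by
    intro D hD P hP
    rw [mem_Mn] at hD
    rw [mem_pf hD.1.ne_zero] at hP
    rw [mem_PU]
    refine ⟨hP.1, hP.2.1, ?_⟩
    have := natDegree_le_of_dvd hP.2.2 hD.1.ne_zero
    omega
  rw [← euler_fin f (PU K N) (fun P hP => by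
    rw [mem_PU] at hP
    exact ⟨hP.1, hP.2.1⟩)]
  have h1 : Ms (PU K N) j = Mn K j := by
    rw [Ms, Finset.filter_true_of_mem h0]
  rw [h1]
  refine Finset.sum_congr rfl fun D hD => prod_pf (fun P hP => hf P ?_) (h0 D hD)
  rw [mem_PU] at hP
  exact hP.2.1.natDegree_pos

end euler

/-! ### The local factors -/

/-- the coefficients `c_l` -/
def cl (e : ℕ → ℕ → ℝ) (l : ℕ) : ℝ := om e (2 * l) l

/-- the coefficients `h_l` -/
def hl (e : ℕ → ℕ → ℝ) (l : ℕ) : ℝ :=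
  ∑ x ∈ Finset.HasAntidiagonal.antidiagonal l, cl e x.1 * 1

theorem cl_zero {p : ℝ} {e : ℕ → ℕ → ℝ} (h : Tab p e) : cl e 0 = 1 := by
  simp [cl, om, h.e00]

theorem cl_one {p : ℝ} {e : ℕ → ℕ → ℝ} (h : Tab p e) : cl e 1 = -1 := by
  have h1 : e 1 2 = 0 := by
    rw [h.dual 1 2 (by norm_num), h.el0 1 le_rfl, mul_zero]
  simp [cl, om, Finset.sum_range_succ, h.el0 1 le_rfl, h.e11, h1]

theorem cl_two {p : ℝ} {e : ℕ → ℕ → ℝ} (h : Tab p e) : cl e 2 = 0 := by
  have h1 : e 2 4 = 0 := by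
    rw [h.dual 2 4 (by norm_num), h.el0 2 (by norm_num), mul_zero]
  have h2 : e 2 3 = 0 := by
    rw [h.dual 2 3 (by norm_num), h.el1 2 le_rfl, mul_zero]
  simp [cl, om, Finset.sum_range_succ, h.el0 2 (by norm_num), h.el1 2 le_rfl, h.e22, h1, h2]

theorem hl_eq (e : ℕ → ℕ → ℝ) (l : ℕ) : hl e l = ∑ i ∈ Finset.range (l + 1), cl e i := by
  rw [hl, Finset.Nat.sum_antidiagonal_eq_sum_range_succ (fun i _ => cl e i * 1) l]
  simp

theorem hl_zero {p : ℝ} {e : ℕ → ℕ → ℝ} (h : Tab p e) : hl e 0 = 1 := by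
  rw [hl_eq]
  simp [cl_zero h]

theorem hl_one {p : ℝ} {e : ℕ → ℕ → ℝ} (h : Tab p e) : hl e 1 = 0 := by
  rw [hl_eq]
  simp [Finset.sum_range_succ, cl_zero h, cl_one h]

theorem hl_two {p : ℝ} {e : ℕ → ℕ → ℝ} (h : Tab p e) : hl e 2 = 0 := by
  rw [hl_eq]
  simp [Finset.sum_range_succ, cl_zero h, cl_one h, cl_two h]

theorem hl_bd {p : ℝ} {e : ℕ → ℕ → ℝ} (h : Tab p e) (hp : 4 ≤ p) (l : ℕ) :
    |hl e l| ≤ ((l : ℝ) + 1) * Real.sqrt (7 / 2 * p) ^ l := by
  have hG : 1 ≤ Real.sqrt (7 / 2 * p) := by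
    rw [Real.one_le_sqrt]
    linarith
  rw [hl_eq]
  refine (Finset.abs_sum_le_sum_abs _ _).trans ?_
  have h1 : ∀ i ∈ Finset.range (l + 1), |cl e i| ≤ Real.sqrt (7 / 2 * p) ^ l := by
    intro i hi
    rw [Finset.mem_range] at hi
    exact (h.bd _ _).trans (pow_le_pow_right₀ hG (by omega))
  refine (Finset.sum_le_sum h1).trans ?_
  rw [Finset.sum_const, Finset.card_range, nsmul_eq_mul]
  push_cast
  exact le_rfl

theorem summ {ρ : ℝ} (h0 : 0 ≤ ρ) (hρ : ρ < 1) : Summable (fun m : ℕ => ((m : ℝ) + 4) * ρ ^ m) := by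
  have h1 : Summable (fun m : ℕ => (m : ℝ) * ρ ^ m) := by
    have := summable_pow_mul_geometric_of_norm_lt_one 1 (r := ρ) (by
      rw [Real.norm_eq_abs, abs_of_nonneg h0]
      exact hρ)
    simpa using this
  have h2 : Summable (fun m : ℕ => 4 * ρ ^ m) := (summable_geometric_of_lt_one h0 hρ).mul_left 4
  refine (h1.add h2).congr fun m => ?_
  ring

theorem local_sum (h : ℕ → ℝ) (G y ρ : ℝ) (h0 : h 0 = 1) (h1 : h 1 = 0) (h2 : h 2 = 0)
    (hb : ∀ l : ℕ, |h l| ≤ ((l : ℝ) + 1) * G ^ l) (hG : 0 ≤ G) (hy : 0 ≤ y) (hr : G * y ≤ ρ)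
    (hρ : ρ < 1) :
    Summable (fun l => |h l| * y ^ l) ∧
      ∑' l, |h l| * y ^ l ≤ 1 + (∑' m : ℕ, ((m : ℝ) + 4) * ρ ^ m) * (G * y) ^ 3 := by
  have hGy : 0 ≤ G * y := mul_nonneg hG hy
  have hρ0 : 0 ≤ ρ := hGy.trans hr
  have hs := summ hρ0 hρ
  have key : ∀ m : ℕ, |h (m + 3)| * y ^ (m + 3) ≤ (((m : ℝ) + 4) * ρ ^ m) * (G * y) ^ 3 := by
    intro m
    have h3 := hb (m + 3)
    push_cast at h3
    calc |h (m + 3)| * y ^ (m + 3) ≤ (((m : ℝ) + 3 + 1) * G ^ (m + 3)) * y ^ (m + 3) :=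
          mul_le_mul_of_nonneg_right h3 (by positivity)
      _ = (((m : ℝ) + 4) * (G * y) ^ m) * (G * y) ^ 3 := by ring
      _ ≤ _ := by gcongr
  have hs3 : Summable (fun m : ℕ => |h (m + 3)| * y ^ (m + 3)) :=
    Summable.of_nonneg_of_le (fun m => by positivity) key (hs.mul_right _)
  have hsum : Summable (fun l => |h l| * y ^ l) := (summable_nat_add_iff 3).1 hs3
  refine ⟨hsum, ?_⟩
  rw [← hsum.sum_add_tsum_nat_add 3]
  have e1 : ∑ i ∈ Finset.range 3, |h i| * y ^ i = 1 := by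
    simp [Finset.sum_range_succ, h0, h1, h2]
  rw [e1, ← tsum_mul_right]
  have h4 := hs3.tsum_le_tsum key (hs.mul_right _)
  linarith

theorem kap {q : ℝ} (hq : 4 ≤ q) : ∃ κ : ℝ, 1 < κ ∧ κ ^ 64 = q ∧ 1.93 ≤ κ ^ 31 ∧
    ∀ j : ℕ, q ^ (-((1 / 64 : ℝ) * j)) = (κ⁻¹) ^ j := by
  have hq0 : (0 : ℝ) ≤ q := by linarith
  have h64 : (q ^ (1 / 64 : ℝ)) ^ 64 = q := by
    rw [← Real.rpow_natCast, ← Real.rpow_mul hq0]
    norm_num
  refine ⟨q ^ (1 / 64 : ℝ), Real.one_lt_rpow (by linarith) (by norm_num), h64, ?_, ?_⟩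
  · by_contra hcon
    rw [not_le] at hcon
    have h1 : ((q ^ (1 / 64 : ℝ)) ^ 31) ^ 64 < (1.93 : ℝ) ^ 64 :=
      pow_lt_pow_left₀ hcon (by positivity) (by norm_num)
    have h2 : ((q ^ (1 / 64 : ℝ)) ^ 31) ^ 64 = q ^ 31 := by
      rw [← pow_mul, mul_comm, pow_mul, h64]
    rw [h2] at h1
    have h3 : (4 : ℝ) ^ 31 ≤ q ^ 31 := pow_le_pow_left₀ (by norm_num) hq 31
    norm_num at h1 h3
    linarith
  · intro j
    rw [Real.rpow_neg hq0, Real.rpow_mul hq0, Real.rpow_natCast, inv_pow]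

/-- the bound of a local factor -/
theorem loc_nb {q κ : ℝ} (hκ : 1 < κ) (hκq : κ ^ 64 = q) (hκ2 : 1.93 ≤ κ ^ 31) (hq : 4 ≤ q) {d : ℕ}
    (hd : 0 < d) {e : ℕ → ℕ → ℝ} (h : Tab (q ^ d) e) :
    NB (ser d (hl e)) ((κ ^ 63)⁻¹)
      (1 + (∑' m : ℕ, ((m : ℝ) + 4) * (0.97 : ℝ) ^ m) * 7 * ((κ ^ 93)⁻¹) ^ d) ∧
    Real.sqrt (7 / 2 * q ^ d) * ((κ ^ 63)⁻¹) ^ d ≤ 0.97 := by
  have hκ0 : 0 < κ := by linarith
  have hp4 : 4 ≤ q ^ d := by
    calc (4 : ℝ) ≤ q := hq
      _ = q ^ 1 := (pow_one q).symm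
      _ ≤ q ^ d := pow_le_pow_right₀ (by linarith) hd
  have e1 : Real.sqrt (7 / 2 * q ^ d) = Real.sqrt (7 / 2) * (κ ^ 32) ^ d := by
    have e2 : q ^ d = ((κ ^ 32) ^ d) ^ 2 := by
      rw [← hκq]
      ring
    rw [Real.sqrt_mul (by norm_num), e2, Real.sqrt_sq (by positivity)]
  have e2 : Real.sqrt (7 / 2 * q ^ d) * ((κ ^ 63)⁻¹) ^ d = Real.sqrt (7 / 2) * ((κ ^ 31)⁻¹) ^ d := by
    rw [e1, mul_assoc, ← mul_pow]
    congr 2
    rw [show κ ^ 63 = κ ^ 32 * κ ^ 31 by ring]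
    field_simp
  have hs : Real.sqrt (7 / 2) ≤ 1.871 := by
    rw [Real.sqrt_le_left (by norm_num)]
    norm_num
  have hs0 : 0 ≤ Real.sqrt (7 / 2) := Real.sqrt_nonneg _
  have hinv : (κ ^ 31)⁻¹ ≤ 1 / 1.93 := by
    rw [one_div]
    exact inv_anti₀ (by norm_num) hκ2
  have hinv0 : 0 ≤ (κ ^ 31)⁻¹ := by positivity
  have hr : Real.sqrt (7 / 2 * q ^ d) * ((κ ^ 63)⁻¹) ^ d ≤ 0.97 := by
    rw [e2]
    have h1 : ((κ ^ 31)⁻¹) ^ d ≤ (κ ^ 31)⁻¹ :=
      pow_le_of_le_one hinv0 (hinv.trans (by norm_num)) hd.ne'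
    calc Real.sqrt (7 / 2) * ((κ ^ 31)⁻¹) ^ d ≤ 1.871 * (1 / 1.93) := by
          refine mul_le_mul hs (h1.trans hinv) (by positivity) (by norm_num)
      _ ≤ 0.97 := by norm_num
  refine ⟨?_, hr⟩
  have hM : 0 ≤ ∑' m : ℕ, ((m : ℝ) + 4) * (0.97 : ℝ) ^ m := tsum_nonneg fun m => by positivity
  have h3 : (Real.sqrt (7 / 2 * q ^ d) * ((κ ^ 63)⁻¹) ^ d) ^ 3 ≤ 7 * ((κ ^ 93)⁻¹) ^ d := by
    rw [e2, mul_pow]
    have h4 : (((κ ^ 31)⁻¹) ^ d) ^ 3 = ((κ ^ 93)⁻¹) ^ d := by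
      rw [← pow_mul, mul_comm d 3, pow_mul, inv_pow, ← pow_mul]
    rw [h4]
    have h5 : Real.sqrt (7 / 2) ^ 3 ≤ 7 := by
      calc Real.sqrt (7 / 2) ^ 3 ≤ 1.871 ^ 3 := pow_le_pow_left₀ hs0 hs 3
        _ ≤ 7 := by norm_num
    gcongr
  obtain ⟨s1, s2⟩ := local_sum (hl e) (Real.sqrt (7 / 2 * q ^ d)) (((κ ^ 63)⁻¹) ^ d) 0.97
    (hl_zero h) (hl_one h) (hl_two h) (hl_bd h hp4) (Real.sqrt_nonneg _) (by positivity) hr
    (by norm_num)
  have h6 := ser_hasSum hd (hl e) (fun t => |t|) abs_zero ((κ ^ 63)⁻¹) _ s1.hasSum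
  refine ⟨h6.summable, ?_⟩
  rw [h6.tsum_eq]
  refine s2.trans ?_
  rw [mul_assoc]
  gcongr

/-- the value of a local factor -/
theorem loc_val (hlsum : S_lsum) {q κ : ℝ} (hκ : 1 < κ) (hκq : κ ^ 64 = q) (hκ2 : 1.93 ≤ κ ^ 31)
    (hq : 4 ≤ q) {d : ℕ} (hd : 0 < d) {e : ℕ → ℕ → ℝ} (h : Tab (q ^ d) e) :
    HasSum (fun j => PowerSeries.coeff j (ser d (hl e)) * (q⁻¹) ^ j) 1 := by
  have hκ0 : 0 < κ := by linarith
  have hq0 : 0 < q := by linarith
  have hp4 : 4 ≤ q ^ d := by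
    calc (4 : ℝ) ≤ q := hq
      _ = q ^ 1 := (pow_one q).symm
      _ ≤ q ^ d := pow_le_pow_right₀ (by linarith) hd
  have hxw : q⁻¹ ≤ (κ ^ 63)⁻¹ := by
    rw [← hκq]
    exact inv_anti₀ (by positivity) (pow_le_pow_right₀ hκ.le (by norm_num))
  have hy : (q⁻¹) ^ d < 1 := by
    rw [inv_pow]
    exact inv_lt_one_of_one_lt₀ (by linarith)
  have hy0 : 0 ≤ (q⁻¹) ^ d := by positivity
  have hr : Real.sqrt (7 / 2 * q ^ d) * (q⁻¹) ^ d < 1 := by
    calc Real.sqrt (7 / 2 * q ^ d) * (q⁻¹) ^ d ≤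
        Real.sqrt (7 / 2 * q ^ d) * ((κ ^ 63)⁻¹) ^ d := by gcongr
      _ ≤ 0.97 := (loc_nb hκ hκq hκ2 hq hd h).2
      _ < 1 := by norm_num
  have hr0 : 0 ≤ Real.sqrt (7 / 2 * q ^ d) * (q⁻¹) ^ d := by positivity
  have v1 : HasSum (fun j => PowerSeries.coeff j (ser d (cl e)) * (q⁻¹) ^ j) (1 - 1 / q ^ d) := by
    refine ser_hasSum hd (cl e) (fun t => t) rfl _ _ ?_
    refine (hlsum (q ^ d) e hp4 h).congr_fun fun l => ?_
    show cl e l * ((q⁻¹) ^ d) ^ l = om e (2 * l) l * (q ^ d) ^ (-(l : ℤ))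
    rw [zpow_neg, zpow_natCast, inv_pow, inv_pow, cl]
  have v2 : HasSum (fun j => PowerSeries.coeff j (ser d (fun _ => 1)) * (q⁻¹) ^ j)
      (1 - 1 / q ^ d)⁻¹ := by
    refine ser_hasSum hd (fun _ => 1) (fun t => t) rfl _ _ ?_
    have h1 := hasSum_geometric_of_lt_one hy0 hy
    rw [one_div, ← inv_pow]
    refine h1.congr_fun fun l => ?_
    show (1 : ℝ) * ((q⁻¹) ^ d) ^ l = ((q⁻¹) ^ d) ^ l
    rw [one_mul]
  have s2 : Summable (fun j => ‖PowerSeries.coeff j (ser d (fun _ => 1)) * (q⁻¹) ^ j‖) := by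
    have h1 := (hasSum_geometric_of_lt_one hy0 hy)
    have h2 := ser_hasSum hd (fun _ => (1 : ℝ)) (fun t => |t|) abs_zero (q⁻¹) _
      (h1.congr_fun fun l => by
        show |(1 : ℝ)| * ((q⁻¹) ^ d) ^ l = ((q⁻¹) ^ d) ^ l
        rw [abs_one, one_mul])
    refine h2.summable.congr fun j => ?_
    rw [Real.norm_eq_abs, abs_mul, abs_of_nonneg (show 0 ≤ (q⁻¹) ^ j by positivity)]
  have s1 : Summable (fun j => ‖PowerSeries.coeff j (ser d (cl e)) * (q⁻¹) ^ j‖) := by
    have h1 : Summable (fun l : ℕ => |cl e l| * ((q⁻¹) ^ d) ^ l) := by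
      refine Summable.of_nonneg_of_le (fun l => by positivity) (fun l => ?_)
        (summable_geometric_of_lt_one hr0 hr)
      rw [mul_pow]
      have := h.bd (2 * l) l
      rw [cl]
      gcongr
    have h2 := ser_hasSum hd (cl e) (fun t => |t|) abs_zero (q⁻¹) _ h1.hasSum
    refine h2.summable.congr fun j => ?_
    rw [Real.norm_eq_abs, abs_mul, abs_of_nonneg (show 0 ≤ (q⁻¹) ^ j by positivity)]
  have h3 := val_mul s1 s2 v1 v2
  rw [ser_mul hd.ne'] at h3
  have h4 : (1 - 1 / q ^ d) * (1 - 1 / q ^ d)⁻¹ = 1 := by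
    refine mul_inv_cancel₀ ?_
    have : 1 / q ^ d ≤ 1 / 4 := one_div_le_one_div_of_le (by norm_num) hp4
    linarith
  rw [h4] at h3
  exact h3

/-! ### Assembly -/

section asm
variable {K : Type} [Field K] [Fintype K]

/-- the partial Euler product -/
def HHN (K : Type) [Field K] [Fintype K] (T : ℕ → ℕ → ℕ → ℝ) (N : ℕ) : PowerSeries ℝ :=
  ∏ P ∈ PU K N, ser P.natDegree (hl (T P.natDegree))

theorem HHN_coeff (T : ℕ → ℕ → ℕ → ℝ) (hT : Tabs K T) {j N : ℕ} (h : j ≤ N) :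
    PowerSeries.coeff j (HHN K T N) =
      ∑ a ∈ Finset.range (j + 1), cc K T a * (Fintype.card K : ℝ) ^ (j - a) := by
  have h1 : HHN K T N = (∏ P ∈ PU K N, ser P.natDegree (cl (T P.natDegree))) *
      ∏ P ∈ PU K N, ser P.natDegree (fun _ => 1) := by
    rw [← Finset.prod_mul_distrib, HHN]
    refine Finset.prod_congr rfl fun P hP => ?_
    rw [mem_PU] at hP
    rw [ser_mul hP.2.1.natDegree_pos.ne']
    rfl
  rw [h1, PowerSeries.coeff_mul,
    Finset.Nat.sum_antidiagonal_eq_sum_range_succ (fun a b =>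
      PowerSeries.coeff a (∏ P ∈ PU K N, ser P.natDegree (cl (T P.natDegree))) *
      PowerSeries.coeff b (∏ P ∈ PU K N, ser P.natDegree (fun _ => 1))) j]
  refine Finset.sum_congr rfl fun a ha => ?_
  rw [Finset.mem_range] at ha
  congr 1
  · rw [← euler (K := K) (fun P l => cl (T P.natDegree) l)
      (fun P hP => cl_zero (hT P.natDegree hP)) (show a ≤ N by omega)]
    rfl
  · rw [← euler (K := K) (fun _ _ => 1) (fun _ _ => rfl) (show j - a ≤ N by omega)]
    simp only [Finset.prod_const_one]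
    rw [Finset.sum_const, card_Mn, nsmul_eq_mul, mul_one]
    push_cast
    rfl

theorem HHN_nb (T : ℕ → ℕ → ℕ → ℝ) (hT : Tabs K T) {κ : ℝ} (hκ : 1 < κ)
    (hκq : κ ^ 64 = (Fintype.card K : ℝ)) (hκ2 : 1.93 ≤ κ ^ 31) (hq : 4 ≤ (Fintype.card K : ℝ)) :
    ∃ B : ℝ, ∀ N : ℕ, NB (HHN K T N) ((κ ^ 63)⁻¹) B := by
  have hκ0 : 0 < κ := by linarith
  set M : ℝ := ∑' m : ℕ, ((m : ℝ) + 4) * (0.97 : ℝ) ^ m with hM
  have hM0 : 0 ≤ M := tsum_nonneg fun m => by positivity
  set r : ℝ := (κ ^ 29)⁻¹ with hr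
  have hr0 : 0 ≤ r := by positivity
  have hr1 : r < 1 := inv_lt_one_of_one_lt₀ (one_lt_pow₀ hκ (by norm_num))
  refine ⟨Real.exp (M * 7 * (1 - r)⁻¹), fun N => ?_⟩
  have h1 : NB (HHN K T N) ((κ ^ 63)⁻¹)
      (∏ P ∈ PU K N, (1 + M * 7 * ((κ ^ 93)⁻¹) ^ P.natDegree)) := by
    refine NB.prod _ _ _ _ (by positivity) fun P hP => ?_
    rw [mem_PU] at hP
    exact (loc_nb hκ hκq hκ2 hq hP.2.1.natDegree_pos (hT _ hP.2.1.natDegree_pos)).1
  refine ⟨h1.1, h1.2.trans ?_⟩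
  have h2 : ∏ P ∈ PU K N, (1 + M * 7 * ((κ ^ 93)⁻¹) ^ P.natDegree) ≤
      ∏ P ∈ PU K N, Real.exp (M * 7 * ((κ ^ 93)⁻¹) ^ P.natDegree) := by
    refine Finset.prod_le_prod (fun P _ => by positivity) fun P _ => ?_
    rw [add_comm]
    exact Real.add_one_le_exp _
  refine h2.trans ?_
  rw [← Real.exp_sum, Real.exp_le_exp, ← Finset.mul_sum, sum_PU]
  refine mul_le_mul_of_nonneg_left ?_ (by positivity)
  have h3 : ∀ j ∈ Finset.Icc 1 N, ∑ P ∈ Irn K j, ((κ ^ 93)⁻¹) ^ P.natDegree ≤ r ^ j := by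
    intro j hj
    rw [Finset.mem_Icc] at hj
    rw [Finset.sum_congr rfl (fun P hP => by rw [(mem_Irn.1 hP).2.1]), Finset.sum_const,
      nsmul_eq_mul]
    have h4 : ((Irn K j).card : ℝ) ≤ (Fintype.card K : ℝ) ^ j := by
      have h5 := irn_one_le (k := K) (d := j) (by omega)
      have h6 : (Irn K j).card ≤ j * (Irn K j).card := Nat.le_mul_of_pos_left _ (by omega)
      exact_mod_cast h6.trans h5
    have h5 : κ ^ 64 * (κ ^ 93)⁻¹ = r := by
      rw [hr, show κ ^ 93 = κ ^ 64 * κ ^ 29 by ring]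
      field_simp
    calc ((Irn K j).card : ℝ) * ((κ ^ 93)⁻¹) ^ j ≤ (Fintype.card K : ℝ) ^ j * ((κ ^ 93)⁻¹) ^ j :=
          mul_le_mul_of_nonneg_right h4 (by positivity)
      _ = r ^ j := by rw [← mul_pow, ← hκq, h5]
  refine (Finset.sum_le_sum h3).trans ?_
  have h4 : ∑ j ∈ Finset.Icc 1 N, r ^ j ≤ ∑' j : ℕ, r ^ j :=
    (summable_geometric_of_lt_one hr0 hr1).sum_le_tsum _ fun j _ => by positivity
  rwa [tsum_geometric_of_lt_one hr0 hr1] at h4

theorem HHN_val (hlsum : S_lsum) (T : ℕ → ℕ → ℕ → ℝ) (hT : Tabs K T) {κ : ℝ} (hκ : 1 < κ)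
    (hκq : κ ^ 64 = (Fintype.card K : ℝ)) (hκ2 : 1.93 ≤ κ ^ 31) (hq : 4 ≤ (Fintype.card K : ℝ))
    (N : ℕ) :
    HasSum (fun j => PowerSeries.coeff j (HHN K T N) * ((Fintype.card K : ℝ)⁻¹) ^ j) 1 := by
  have hκ0 : 0 < κ := by linarith
  refine val_prod (PU K N) _ ((κ ^ 63)⁻¹) _
    (fun P => 1 + (∑' m : ℕ, ((m : ℝ) + 4) * (0.97 : ℝ) ^ m) * 7 * ((κ ^ 93)⁻¹) ^ P.natDegree)
    (by positivity) ?_ (fun P hP => ?_) (fun P hP => ?_)
  · rw [← hκq]
    exact inv_anti₀ (by positivity) (pow_le_pow_right₀ hκ.le (by norm_num))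
  · rw [mem_PU] at hP
    exact (loc_nb hκ hκq hκ2 hq hP.2.1.natDegree_pos (hT _ hP.2.1.natDegree_pos)).1
  · rw [mem_PU] at hP
    exact loc_val hlsum hκ hκq hκ2 hq hP.2.1.natDegree_pos (hT _ hP.2.1.natDegree_pos)

end asm

end Rho

/-- **RHO.** -/
theorem rho (hlsum : S_lsum) : S_rho := by
  intro K _ _ T hcard hT
  have hq : (4 : ℝ) ≤ (Fintype.card K : ℝ) := by exact_mod_cast hcard
  obtain ⟨κ, hκ, hκq, hκ2, hκj⟩ := Rho.kap hq
  obtain ⟨B, hB⟩ := Rho.HHN_nb T hT hκ hκq hκ2 hq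
  have hκ0 : 0 < κ := by linarith
  set q : ℝ := (Fintype.card K : ℝ) with hqd
  have hq0 : 0 < q := by linarith
  set g : ℕ → ℝ := fun j => ∑ a ∈ Finset.range (j + 1), cc K T a * (q⁻¹) ^ a with hg
  -- the coefficients of the partial Euler products
  have hgN : ∀ j N : ℕ, j ≤ N → PowerSeries.coeff j (Rho.HHN K T N) * (q⁻¹) ^ j = g j := by
    intro j N hjN
    rw [Rho.HHN_coeff T hT hjN, Finset.sum_mul, hg]
    refine Finset.sum_congr rfl fun a ha => ?_
    rw [Finset.mem_range] at ha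
    obtain ⟨b, rfl⟩ := Nat.exists_eq_add_of_le (show a ≤ j by omega)
    rw [Nat.add_sub_cancel_left, pow_add, inv_pow, inv_pow, ← hqd]
    field_simp
  -- the bound of the coefficients
  have hbd : ∀ j N : ℕ, |PowerSeries.coeff j (Rho.HHN K T N) * (q⁻¹) ^ j| ≤ B * (κ⁻¹) ^ j := by
    intro j N
    have h1 : |PowerSeries.coeff j (Rho.HHN K T N)| * ((κ ^ 63)⁻¹) ^ j ≤ B :=
      ((hB N).1.le_tsum j fun i _ => by positivity).trans (hB N).2
    have h2 : q⁻¹ = (κ ^ 63)⁻¹ * κ⁻¹ := by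
      rw [← hκq, ← mul_inv, ← pow_succ]
    rw [abs_mul, abs_of_nonneg (show 0 ≤ (q⁻¹) ^ j by positivity), h2, mul_pow, ← mul_assoc]
    exact mul_le_mul_of_nonneg_right h1 (by positivity)
  have hgb : ∀ j : ℕ, |g j| ≤ B * (κ⁻¹) ^ j := by
    intro j
    rw [← hgN j j le_rfl]
    exact hbd j j
  have hκi : κ⁻¹ < 1 := inv_lt_one_of_one_lt₀ hκ
  have hsb : Summable (fun j : ℕ => B * (κ⁻¹) ^ j) :=
    (summable_geometric_of_lt_one (by positivity) hκi).mul_left B
  have hsg : Summable g := Summable.of_norm_bounded hsb fun j => by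
    rw [Real.norm_eq_abs]
    exact hgb j
  refine ⟨1 / 64, by norm_num, B, g, ?_, ?_, ?_⟩
  · intro j
    rw [hκj]
    exact hgb j
  · have h1 : Filter.Tendsto (fun N : ℕ => ∑' j, PowerSeries.coeff j (Rho.HHN K T N) * (q⁻¹) ^ j)
        Filter.atTop (nhds (∑' j, g j)) := by
      refine tendsto_tsum_of_dominated_convergence hsb ?_ ?_
      · intro j
        refine tendsto_const_nhds.congr' ?_
        filter_upwards [Filter.eventually_ge_atTop j] with N hN
        exact (hgN j N hN).symm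
      · refine Filter.Eventually.of_forall fun N j => ?_
        rw [Real.norm_eq_abs]
        exact hbd j N
    have h2 : ∀ N : ℕ, ∑' j, PowerSeries.coeff j (Rho.HHN K T N) * (q⁻¹) ^ j = 1 := fun N =>
      (Rho.HHN_val hlsum T hT hκ hκq hκ2 hq N).tsum_eq
    simp only [h2] at h1
    have h3 : ∑' j, g j = 1 := tendsto_nhds_unique h1 tendsto_const_nhds
    rw [← h3]
    exact hsg.hasSum
  · intro j
    rcases j with _ | j
    · simp [hg]
    · rw [if_neg (Nat.succ_ne_zero j), Nat.add_sub_cancel]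
      have h1 : g (j + 1) - g j = cc K T (j + 1) * (q⁻¹) ^ (j + 1) := by
        rw [hg]
        show (∑ a ∈ Finset.range (j + 1 + 1), cc K T a * (q⁻¹) ^ a) -
          (∑ a ∈ Finset.range (j + 1), cc K T a * (q⁻¹) ^ a) = _
        rw [Finset.sum_range_succ _ (j + 1)]
        ring
      rw [h1, inv_pow]
      field_simp

end

end Pool.Agent.H6.C
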