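import Pool.Agent.H6.C.Wil
import Pool.Agent.H6.C.Par
import Pool.Agent.H6.C.Loc
import Pool.Agent.H6.C.Lsum
import Pool.Agent.H6.C.Lat2
import Pool.Agent.H6.C.Fel
import Pool.Agent.H6.C.Exp
import Pool.Agent.H6.C.Fe2
import Pool.Agent.H6.C.Fe1
import Pool.Agent.H6.C.Rho
import Pool.Agent.H6.C.Bnd
import Pool.Agent.H6.C.Det
import Pool.Agent.H6.C.Fin

/-!
# Wilson primes of `F_q[t]`, `q` a power of four: the theorem
-/

set_option autoImplicit false

namespace Pool.Agent.H6.C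

theorem s_fe2 : S_fe2 := fe2 exp_ (fel lat2)

theorem s_fe1 : S_fe1 := fe1 par

theorem s_rho : S_rho := rho lsum

theorem s_bnd : S_bnd := bnd s_fe1 s_fe2 s_rho

theorem s_main : S_main := fin wil par loc s_rho s_fe1 s_bnd det_

end Pool.Agent.H6.C
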